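import Pool.Agent.T9h53.SZ.Core2

/-! # The window inequality -/

set_option autoImplicit false

open Complex Filter Topology Set MeasureTheory

namespace Pool.Agent.T9h53.SZ

open H370.DL

lemma tau_le {H η ℓ : ℝ} (hH : 2 ≤ H) (hℓ : 1 ≤ ℓ) (hη : ℓ ^ 2 ≤ (H - 1) * η) :
    tau H (2 * H * ℓ) η ≤ 20 * H * ℓ * Real.exp (-ℓ ^ 2) := by
  unfold tau
  have hH0 : 0 < H := by linarith
  have he : Real.exp 1 ≤ 2.72 := by
    have := Real.exp_one_lt_d9
    linarith
  have h1 : 1 - (2 * H * ℓ) ^ 2 / H ^ 2 = 1 + -(4 * ℓ ^ 2) := by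
    field_simp
    ring
  have h2 : Real.exp (-(4 * ℓ ^ 2)) ≤ Real.exp (-ℓ ^ 2) := by
    apply Real.exp_le_exp.mpr
    nlinarith [sq_nonneg ℓ]
  have h3 : Real.exp (-((H - 1) * η)) ≤ Real.exp (-ℓ ^ 2) := by
    apply Real.exp_le_exp.mpr
    linarith
  rw [h1, Real.exp_add]
  have hX := Real.exp_pos (-ℓ ^ 2)
  have hH1 : H + 1 ≤ 1.5 * H := by linarith
  calc 2 * (H + 1) * (Real.exp 1 * Real.exp (-(4 * ℓ ^ 2))) +
        2 * Real.exp 1 * (2 * H * ℓ) * Real.exp (-((H - 1) * η)) ≤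
      2 * (1.5 * H) * (2.72 * Real.exp (-ℓ ^ 2)) +
        2 * 2.72 * (2 * H * ℓ) * Real.exp (-ℓ ^ 2) := by gcongr
    _ ≤ 2 * (1.5 * (H * ℓ)) * (2.72 * Real.exp (-ℓ ^ 2)) +
        2 * 2.72 * (2 * H * ℓ) * Real.exp (-ℓ ^ 2) := by
        gcongr
        nlinarith
    _ ≤ 20 * H * ℓ * Real.exp (-ℓ ^ 2) := by
        have : 0 ≤ H * ℓ * Real.exp (-ℓ ^ 2) := by positivity
        nlinarith

/-- the final arithmetic of the window inequality -/
lemma final_arith {C e0 S K T H ℓ X w k1 B aq aq' eE τ1 τ2 V1 V2 J : ℝ}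
    (hC : 0 < C) (he01 : 1 ≤ e0) (hS0 : 0 ≤ S)
    (hK : K = 20 * S + 20 * S * C * (2 * e0) + 4 * (1 + C * (2 * e0)) * 3 + 6)
    (hTge : 1 ≤ T) (hH0 : 2 ≤ H) (hℓ1 : 1 ≤ ℓ) (hTexp : T = Real.exp ℓ)
    (hXdef : X = Real.exp (-ℓ ^ 2)) (hK5 : K * Real.exp (5.5 * ℓ - ℓ ^ 2) ≤ 0.1)
    (hw0 : 0 < w) (hw1 : w ≤ 1) (hw2 : Real.exp (-(ℓ / 2)) ≤ w)
    (hk0 : 0 ≤ k1) (hk1 : k1 ≤ 3 * X) (hB : B ≤ (1 + C * (2 * e0)) * T ^ 2 * (3 * X))
    (haq : aq ≤ T ^ 2) (haq0' : 0 ≤ aq') (haq' : aq' ≤ 1)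
    (heE : eE ≤ 2 * e0 * T) (hτ10 : 0 ≤ τ1) (hτ1 : τ1 ≤ 20 * H * ℓ * X)
    (hτ20 : 0 ≤ τ2) (hτ2 : τ2 ≤ 20 * H * ℓ * X)
    (hright : w * (2 * H * Real.exp (-1) - 2 * k1) - S * (aq * τ1) ≤ V1)
    (hleft : V2 ≤ J + S * (C * eE * aq' * τ2))
    (hshift : V1 ≤ V2 + 2 * (B * (1 - -1))) : w * H / 2 ≤ J := by
  have hX0 : 0 < X := by rw [hXdef]; exact Real.exp_pos _
  have hℓT : ℓ ≤ T := by
    have := Real.add_one_le_exp ℓ
    rw [hTexp]
    linarith
  set W := H * T ^ 3 * X with hW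
  have hW0 : 0 < W := by positivity
  have hT3 : (1 : ℝ) ≤ T ^ 3 := one_le_pow₀ hTge
  have hT23 : T ^ 2 ≤ T ^ 3 := pow_le_pow_right₀ hTge (by norm_num)
  have hXW : X ≤ W := by
    rw [hW]
    have h1 : 1 ≤ H * T ^ 3 := by nlinarith
    calc X = 1 * X := (one_mul _).symm
      _ ≤ H * T ^ 3 * X := mul_le_mul_of_nonneg_right h1 hX0.le
  have hT2X : T ^ 2 * X ≤ W := by
    rw [hW]
    have h7 : T ^ 2 ≤ H * T ^ 3 := by nlinarith
    exact mul_le_mul_of_nonneg_right h7 hX0.le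
  have hHℓ2 : T ^ 2 * (H * ℓ * X) ≤ W := by
    rw [hW]
    calc T ^ 2 * (H * ℓ * X) ≤ T ^ 2 * (H * T * X) := by gcongr
      _ = H * T ^ 3 * X := by ring
  have hHℓ1 : T * (H * ℓ * X) ≤ W := by
    refine le_trans ?_ hHℓ2
    apply mul_le_mul_of_nonneg_right _ (by positivity)
    nlinarith
  have E1 : w * (2 * k1) ≤ 6 * W := by
    calc w * (2 * k1) ≤ 1 * (2 * (3 * X)) := by gcongr
      _ = 6 * X := by ring
      _ ≤ 6 * W := by linarith
  have E2 : S * (aq * τ1) ≤ 20 * S * W := by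
    calc S * (aq * τ1) ≤ S * (T ^ 2 * (20 * H * ℓ * X)) := by gcongr
      _ = 20 * S * (T ^ 2 * (H * ℓ * X)) := by ring
      _ ≤ 20 * S * W := by gcongr
  have E3 : 2 * (B * (1 - -1)) ≤ 4 * (1 + C * (2 * e0)) * 3 * W := by
    calc 2 * (B * (1 - -1)) = 4 * B := by ring
      _ ≤ 4 * ((1 + C * (2 * e0)) * T ^ 2 * (3 * X)) := by linarith
      _ = 4 * (1 + C * (2 * e0)) * 3 * (T ^ 2 * X) := by ring
      _ ≤ 4 * (1 + C * (2 * e0)) * 3 * W := by gcongr
  have E4 : S * (C * eE * aq' * τ2) ≤ 20 * S * C * (2 * e0) * W := by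
    calc S * (C * eE * aq' * τ2) ≤ S * (C * (2 * e0 * T) * 1 * (20 * H * ℓ * X)) := by gcongr
      _ = 20 * S * C * (2 * e0) * (T * (H * ℓ * X)) := by ring
      _ ≤ 20 * S * C * (2 * e0) * W := by gcongr
  have hKW : K * W ≤ 0.1 * H * w := by
    have h11 : T ^ 3 * X = Real.exp (5.5 * ℓ - ℓ ^ 2) * Real.exp (-(2.5 * ℓ)) := by
      have : T ^ 3 = Real.exp (3 * ℓ) := by
        rw [show (3 : ℝ) * ℓ = ℓ + ℓ + ℓ by ring, Real.exp_add, Real.exp_add, ← hTexp]
        ring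
      rw [this, hXdef, ← Real.exp_add, ← Real.exp_add]
      congr 1
      ring
    have h12 : Real.exp (-(2.5 * ℓ)) ≤ w := by
      refine le_trans (Real.exp_le_exp.mpr ?_) hw2
      linarith
    calc K * W = H * ((K * Real.exp (5.5 * ℓ - ℓ ^ 2)) * Real.exp (-(2.5 * ℓ))) := by
          rw [hW, mul_assoc H, h11]
          ring
      _ ≤ H * (0.1 * w) := by gcongr
      _ = _ := by ring
  have he27 : Real.exp 1 ≤ 2.7183 := by
    have := Real.exp_one_lt_d9
    linarith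
  have hinv : 0.735 ≤ 2 * Real.exp (-1) := by
    rw [Real.exp_neg]
    have h13 : (2.7183 : ℝ)⁻¹ ≤ (Real.exp 1)⁻¹ := inv_anti₀ (Real.exp_pos 1) he27
    have h14 : (0.735 : ℝ) ≤ 2 * (2.7183 : ℝ)⁻¹ := by norm_num
    linarith
  have hmain : 0.735 * (w * H) ≤ w * (2 * H * Real.exp (-1)) := by
    calc 0.735 * (w * H) ≤ (2 * Real.exp (-1)) * (w * H) := by gcongr
      _ = _ := by ring
  have hsplit : w * (2 * H * Real.exp (-1) - 2 * k1) =
      w * (2 * H * Real.exp (-1)) - w * (2 * k1) := by ring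
  rw [hsplit] at hright
  have hKsum : K * W = 20 * S * W + 20 * S * C * (2 * e0) * W +
      4 * (1 + C * (2 * e0)) * 3 * W + 6 * W := by
    rw [hK]
    ring
  have hqH : 0 ≤ w * H := by positivity
  linarith

variable {N₁ N₂ : ℕ} [NeZero N₁] [NeZero N₂] (χ₁ : DirichletCharacter ℂ N₁)
  (χ₂ : DirichletCharacter ℂ N₂) (α δ : ℝ)

omit [NeZero N₂] in
lemma L1_order_ne_top {z : ℂ} (hz : 0 < z.im) :
    analyticOrderAt (fun w => DirichletCharacter.LFunction χ₁ (1 / 2 + w)) z ≠ ⊤ := by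
  have hU : IsPreconnected {s : ℂ | 0 < s.im} := (convex_halfSpace_im_gt 0).isPreconnected
  have han : AnalyticOnNhd ℂ (fun w => DirichletCharacter.LFunction χ₁ (1 / 2 + w))
      {s : ℂ | 0 < s.im} := by
    intro w hw
    have hw' : 0 < w.im := hw
    exact AnalyticAt.fun_comp (f := fun w : ℂ => 1 / 2 + w)
      (analyticAt_L (ne_one_of_im (by simpa using hw'.ne'))) (by fun_prop)
  refine H370.Loc.order_ne_top hU han (c := ⟨3 / 2, z.im⟩) (by simpa using hz) ?_ hz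
  apply L_nzr
  · norm_num
  · simpa using hz.ne'

omit [NeZero N₂] in
lemma L1_analytic {z : ℂ} (hz : 0 < z.im) :
    AnalyticAt ℂ (fun w => DirichletCharacter.LFunction χ₁ (1 / 2 + w)) z :=
  AnalyticAt.fun_comp (f := fun w : ℂ => 1 / 2 + w)
    (analyticAt_L (ne_one_of_im (by simpa using hz.ne'))) (by fun_prop)

omit [NeZero N₁] in
lemma L2_analytic {z : ℂ} (hz : 0 < δ + α * z.im) :
    AnalyticAt ℂ (fun w => DirichletCharacter.LFunction χ₂ (1 / 2 + δ * I + α * w)) z :=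
  AnalyticAt.fun_comp (f := fun w : ℂ => 1 / 2 + δ * I + α * w)
    (analyticAt_L (ne_one_of_im (by simpa using hz.ne'))) (by fun_prop)

omit [NeZero N₂] in
lemma L1_isolated {z : ℂ} (hz : 0 < z.im) :
    ∀ᶠ w in 𝓝 z, w ≠ z → DirichletCharacter.LFunction χ₁ (1 / 2 + w) ≠ 0 := by
  have h1 := L1_analytic χ₁ hz
  obtain ⟨φ, -, -, h3⟩ := local_quot h1 h1 (L1_order_ne_top χ₁ hz) le_rfl
  exact h3

set_option maxHeartbeats 4000000 in
/-- **the window inequality** -/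
theorem core (h₁ : χ₁.IsPrimitive) (h₂ : χ₂.IsPrimitive) (hα : 1 < α) (hα2 : α ≤ 2) :
    ∃ C T₀ : ℝ, 0 < C ∧ 1 ≤ T₀ ∧ ∀ (T H κ η : ℝ) (q : ℕ), T₀ ≤ T → 2 ≤ H →
      4 * H * (2 * H * Real.log T) ≤ T → 2 * H ^ 2 ≤ T → 1 ≤ q → (q : ℝ) ≤ T →
      ‖χ₂ (q : ZMod N₂)‖ = 1 → 0 ≤ κ → 0 ≤ η →
      (Real.log T) ^ 2 ≤ (H - 1) * κ → (Real.log T) ^ 2 ≤ (H - 1) * η →
      (∀ p : ℕ × ℕ, cc χ₁ χ₂ δ p ≠ 0 → p ≠ (q, 1) → κ ≤ |α * Real.log q - nu α p|) →
      ∀ t : ℝ, T ≤ t → t ≤ 2 * T → ∀ D : ℂ → ℂ,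
      (∀ z : ℂ, |z.im - t| < 2 * H * Real.log T + 3 → AnalyticAt ℂ D z) →
      (∀ z : ℂ, |z.im - t| < 2 * H * Real.log T + 3 →
        DirichletCharacter.LFunction χ₂ (1 / 2 + δ * I + α * z) =
          D z * DirichletCharacter.LFunction χ₁ (1 / 2 + z)) →
      ∀ S : Finset (ℕ × ℕ), (∀ p ∉ S, cc χ₁ χ₂ δ p ≠ 0 →
        η ≤ |nu α p + α * Real.log q - EE N₁ N₂ α t|) →
      (∀ p ∈ S, |nu α p + α * Real.log q - EE N₁ N₂ α t| ≤ 1) →
      (q : ℝ) ^ (-(1 / 2) : ℝ) * H / 2 ≤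
        C * ∫ v in (-(2 * H * Real.log T))..(2 * H * Real.log T),
          ‖PP χ₁ χ₂ α δ q S (t + v)‖ * Real.exp (-(v ^ 2 / H ^ 2)) := by
  obtain ⟨C, T1, hC, hT1, hAmp⟩ := amp_GG χ₁ χ₂ α δ h₁ h₂ hα hα2
  obtain ⟨T2, hT2, hBox⟩ := box_bound χ₁ χ₂ α δ h₁ h₂ hα hα2
  have hS0 : 0 ≤ S0 := tsum_nonneg fun p => by positivity
  set e0 : ℝ := Real.exp (|c0 N₁ N₂ α|) with he0
  have he01 : 1 ≤ e0 := Real.one_le_exp (abs_nonneg _)
  -- the constant in front of the errors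
  set K : ℝ := 20 * S0 + 20 * S0 * C * (2 * e0) + 4 * (1 + C * (2 * e0)) * 3 + 6 with hK
  have hK0 : 0 < K := by positivity
  have htend : Tendsto (fun x : ℝ => K * Real.exp (5.5 * x - x ^ 2)) atTop (𝓝 (K * 0)) := by
    apply Tendsto.const_mul
    apply Real.tendsto_exp_atBot.comp
    have : (fun x : ℝ => 5.5 * x - x ^ 2) = fun x : ℝ => x * (5.5 - x) := by
      funext x; ring
    rw [this]
    exact tendsto_id.atTop_mul_atBot₀ (tendsto_atBot_add_const_left _ _ tendsto_neg_atTop_atBot)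
  rw [mul_zero] at htend
  have hev := (htend.comp Real.tendsto_log_atTop).eventually (Iio_mem_nhds (show (0 : ℝ) < 0.1 by
    norm_num))
  obtain ⟨T3, hT3⟩ := eventually_atTop.mp hev
  refine ⟨C, max T1 (max (2 * T2) (max T3 (max 100 (4 * |δ| + 4)))), hC, hT1.trans (le_max_left _ _), ?_⟩
  intro T H κ η q hT hH hHY hHT hq hqT hχq hκ hη hκ2 hη2 hgap t ht1 ht2 D hDa hDL S hS1 hS2
  have hTT1 : T1 ≤ T := (le_max_left _ _).trans hT
  have hTT2 : 2 * T2 ≤ T := (le_max_left _ _).trans ((le_max_right _ _).trans hT)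
  have hTT3 : T3 ≤ T :=
    (le_max_left _ _).trans ((le_max_right _ _).trans ((le_max_right _ _).trans hT))
  have hTT4 : max 100 (4 * |δ| + 4) ≤ T :=
    (le_max_right _ _).trans ((le_max_right _ _).trans ((le_max_right _ _).trans hT))
  have hT100 : 100 ≤ T := (le_max_left _ _).trans hTT4
  have hTδ : 4 * |δ| + 4 ≤ T := (le_max_right _ _).trans hTT4
  have hδ := neg_abs_le δ
  have hT0 : 0 < T := by linarith
  set ℓ := Real.log T with hℓdef
  have hℓ : 1 ≤ ℓ := by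
    rw [hℓdef, Real.le_log_iff_exp_le hT0]
    have := Real.exp_one_lt_three
    linarith
  set Y := 2 * H * ℓ with hYdef
  have hH0 : 0 < H := by linarith
  have hY0 : 0 ≤ Y := by positivity
  have hHYle : H ≤ Y := by rw [hYdef]; nlinarith
  have hY8 : 8 * Y ≤ T := by nlinarith
  have hY4 : 4 ≤ Y := by rw [hYdef]; nlinarith
  have hA := hAmp T H Y hTT1 hH hY0 hHY hHT t ht1 ht2
  have hlt : ∀ u : ℝ, |u - t| < Y + 3 → T / 2 < u := by
    intro u hu
    have := (abs_lt.mp hu).1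
    linarith
  -- the open set
  set U : Set ℂ := {z : ℂ | |z.im - t| < Y + 3} with hU
  have hUo : IsOpen U := by
    have : Continuous fun z : ℂ => |z.im - t| := by fun_prop
    exact isOpen_lt this continuous_const
  have hfe := D_fe χ₁ χ₂ α δ h₁ h₂ D hUo (fun z hz => by
      have h3 := hlt z.im hz
      constructor
      · linarith
      · nlinarith) (fun z hz => by
      have : (-(starRingEnd ℂ) z).im = z.im := by simp
      rw [hU, mem_ofPred_eq, this]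
      exact hz) (fun z hz => hDa z hz) (fun z hz => hDL z hz) (fun z hz => by
      have h3 := hlt z.im hz
      exact L1_isolated χ₁ (by linarith))
  -- the function
  set F : ℂ → ℂ := fun z => D z * cexp (((α * Real.log q : ℝ) : ℂ) * z) with hF
  have hlq0 : 0 ≤ Real.log q := Real.log_nonneg (by exact_mod_cast hq)
  have hq0 : (0 : ℝ) < q := by exact_mod_cast hq
  have hlq : Real.log q ≤ ℓ := Real.log_le_log hq0 hqT
  have hαq0 : 0 ≤ α * Real.log q := by nlinarith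
  have hαq : α * Real.log q ≤ 2 * ℓ := by nlinarith
  have hexpn : ∀ c v : ℝ, ‖cexp (((α * Real.log q : ℝ) : ℂ) * (⟨c, v⟩ : ℂ))‖ =
      Real.exp (c * (α * Real.log q)) := fun c v => exp_norm _ _ _
  -- E
  set E := EE N₁ N₂ α t with hE
  have hEabs : Real.exp |E| ≤ 2 * e0 * T := by
    have hlogt : 0 ≤ Real.log t := Real.log_nonneg (by linarith)
    have e1 : |E| ≤ Real.log t + |c0 N₁ N₂ α| := by
      rw [hE]
      unfold EE
      refine (abs_add_le _ _).trans (add_le_add ?_ le_rfl)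
      rw [abs_mul, abs_of_pos (by linarith : 0 < α - 1), abs_of_nonneg hlogt]
      nlinarith
    calc Real.exp |E| ≤ Real.exp (Real.log t + |c0 N₁ N₂ α|) := Real.exp_le_exp.mpr e1
      _ = t * e0 := by rw [Real.exp_add, Real.exp_log (by linarith)]
      _ ≤ (2 * T) * e0 := by gcongr
      _ = _ := by ring
  -- right side
  have hright := right_ge χ₁ χ₂ α δ hα (t := t) hH hHYle hq hχq hκ hgap F (by
    intro v hv1 hv2
    have hz : (⟨1, t + v⟩ : ℂ) ∈ U := by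
      rw [hU, mem_ofPred_eq]
      simp only [add_sub_cancel_left]
      exact lt_of_le_of_lt (abs_le.mpr ⟨hv1, hv2⟩) (by linarith)
    have hL1 : DirichletCharacter.LFunction χ₁ (1 / 2 + (⟨1, t + v⟩ : ℂ)) ≠ 0 := by
      apply L_nzr
      · norm_num
      · have := hlt _ hz
        simp only at this
        simp only [add_im, div_ofNat_im, one_im, zero_div, zero_add]
        linarith
    have e1 : D ⟨1, t + v⟩ = DirichletCharacter.LFunction χ₂ (1 / 2 + δ * I + α * ⟨1, t + v⟩) /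
        DirichletCharacter.LFunction χ₁ (1 / 2 + ⟨1, t + v⟩) := by
      rw [hDL _ hz, mul_div_cancel_right₀ _ hL1]
    rw [hF]
    simp only
    rw [e1, quot_series χ₁ χ₂ α δ hα.le (by simp), ← tsum_mul_right]
    refine tsum_congr fun p => ?_
    rw [mul_assoc, ← Complex.exp_add]
    congr 2
    push_cast
    ring)
  -- left side
  have hleft := left_le χ₁ χ₂ α δ hα (t := t) (q := q) hH hY0 hC.le hη hA S hS1 hS2 F (by
    intro v hv1 hv2
    have hz : (⟨-1, t + v⟩ : ℂ) ∈ U := by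
      rw [hU, mem_ofPred_eq]
      simp only [add_sub_cancel_left]
      exact lt_of_le_of_lt (abs_le.mpr ⟨hv1, hv2⟩) (by linarith)
    have hz' : (⟨1, t + v⟩ : ℂ) ∈ U := hz
    have hL1 : DirichletCharacter.LFunction χ₁ (1 / 2 + (⟨1, t + v⟩ : ℂ)) ≠ 0 := by
      apply L_nzr
      · norm_num
      · have := hlt _ hz'
        simp only at this
        simp only [add_im, div_ofNat_im, one_im, zero_div, zero_add]
        linarith
    have e1 : D ⟨1, t + v⟩ = DirichletCharacter.LFunction χ₂ (1 / 2 + δ * I + α * ⟨1, t + v⟩) /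
        DirichletCharacter.LFunction χ₁ (1 / 2 + ⟨1, t + v⟩) := by
      rw [hDL _ hz', mul_div_cancel_right₀ _ hL1]
    have e2 : -(starRingEnd ℂ) (⟨-1, t + v⟩ : ℂ) = ⟨1, t + v⟩ := by
      apply Complex.ext <;> simp
    rw [hF]
    simp only
    rw [hfe _ hz, e2, e1, quot_series χ₁ χ₂ α δ hα.le (by simp), mul_assoc, conj_tsum,
      ← tsum_mul_right]
    congr 1
    refine tsum_congr fun p => ?_
    rw [map_mul, mul_assoc, ← Complex.exp_conj, ← Complex.exp_add]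
    congr 2
    simp only [map_mul, map_neg, conj_ofReal]
    have e3 : (starRingEnd ℂ) (⟨1, t + v⟩ : ℂ) = -⟨-1, t + v⟩ := by
      apply Complex.ext <;> simp
    rw [e3]
    push_cast
    ring)
  -- the shift
  set B : ℝ := (1 + C * (2 * e0)) * T ^ 2 * (Real.exp (ℓ ^ 2) * Real.exp (1 - Y ^ 2 / H ^ 2))
    with hB
  have hhor : ∀ τ : ℝ, τ = t + -Y ∨ τ = t + Y → ∀ c : ℝ, -1 ≤ c → c ≤ 1 →
      ‖F ⟨c, τ⟩‖ * Real.exp ((c ^ 2 - Y ^ 2) / H ^ 2) ≤ B := by
    intro τ hτ c hc1 hc2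
    have hτt : |τ - t| = Y := by
      rcases hτ with h | h
      · rw [h]
        simp only [add_sub_cancel_left, abs_neg, abs_of_nonneg hY0]
      · rw [h]
        simp only [add_sub_cancel_left, abs_of_nonneg hY0]
    have hτ2 : T / 2 < τ := hlt τ (by rw [hτt]; linarith)
    have hτ3 : τ ≤ 3 * T / 2 + T := by
      have := (abs_le.mp hτt.le).2
      linarith
    -- box bound : height between T and 3T is needed
    have hbx : ∀ x : ℝ, 0 ≤ x → x ≤ 1 → ‖D ⟨x, τ⟩‖ ≤ Real.exp (ℓ ^ 2) := by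
      intro x hx0 hx1
      obtain ⟨g1, g2⟩ := abs_le.mp hτt.le
      have hin : ∀ z : ℂ, |z.im - τ| ≤ 2 → |z.im - t| < Y + 3 := by
        intro z hz
        calc |z.im - t| ≤ |z.im - τ| + |τ - t| := abs_sub_le _ _ _
          _ < Y + 3 := by linarith
      have e1 := hBox (7 / 8 * T) (by linarith) τ (by linarith) (by linarith) D
        (fun z hz => hDa z (hin z hz)) (fun z hz => hDL z (hin z hz)) x hx0 hx1
      refine e1.trans (Real.exp_le_exp.mpr ?_)
      have e2 : 0 ≤ Real.log (7 / 8 * T) := Real.log_nonneg (by linarith)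
      have e3 : Real.log (7 / 8 * T) ≤ ℓ := Real.log_le_log (by linarith) (by linarith)
      exact pow_le_pow_left₀ e2 e3 2
    have hker := ker_edge (H := H) (Y := Y) (c := c) hH0 (abs_le.mpr ⟨by linarith, by linarith⟩)
    have hFn : ‖F ⟨c, τ⟩‖ ≤ (1 + C * (2 * e0)) * T ^ 2 * Real.exp (ℓ ^ 2) := by
      rw [hF]
      simp only
      rw [norm_mul, hexpn]
      have hX := Real.exp_pos (ℓ ^ 2)
      have hT1' : T ≤ T ^ 2 := by nlinarith
      rcases le_or_gt 0 c with hc | hc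
      · have e1 := hbx c hc hc2
        have e2 : Real.exp (c * (α * Real.log q)) ≤ T ^ 2 := by
          have : T ^ 2 = Real.exp (2 * ℓ) := by
            rw [two_mul, Real.exp_add, Real.exp_log hT0]
            ring
          rw [this]
          apply Real.exp_le_exp.mpr
          nlinarith
        calc ‖D ⟨c, τ⟩‖ * Real.exp (c * (α * Real.log q)) ≤ Real.exp (ℓ ^ 2) * T ^ 2 := by gcongr
          _ = 1 * T ^ 2 * Real.exp (ℓ ^ 2) := by ring
          _ ≤ (1 + C * (2 * e0)) * T ^ 2 * Real.exp (ℓ ^ 2) := by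
              gcongr
              have : 0 ≤ C * (2 * e0) := by positivity
              linarith
      · have hz : (⟨c, τ⟩ : ℂ) ∈ U := by
          rw [hU, mem_ofPred_eq]
          simp only
          rw [hτt]
          linarith
        have e2 : -(starRingEnd ℂ) (⟨c, τ⟩ : ℂ) = ⟨-c, τ⟩ := by
          apply Complex.ext <;> simp
        have e1 := hbx (-c) (by linarith) (by linarith)
        have e3 : Real.exp (c * (α * Real.log q)) ≤ 1 := by
          rw [Real.exp_le_one_iff]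
          nlinarith
        have e4 : ‖GG χ₁ χ₂ α δ ⟨c, τ⟩‖ ≤ C * (2 * e0 * T) := by
          have e5 : ‖GG χ₁ χ₂ α δ ⟨c, τ⟩‖ ≤ C * Real.exp (-(c * E)) := by
            rcases hτ with h | h
            · rw [h]
              exact hA.bd c (-Y) (abs_le.mpr ⟨by linarith, by linarith⟩)
                (by rw [abs_neg, abs_of_nonneg hY0])
            · rw [h]
              exact hA.bd c Y (abs_le.mpr ⟨by linarith, by linarith⟩) (by rw [abs_of_nonneg hY0])
          refine e5.trans (mul_le_mul_of_nonneg_left ?_ hC.le)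
          refine le_trans (Real.exp_le_exp.mpr ?_) hEabs
          calc -(c * E) = (-c) * E := by ring
            _ ≤ |(-c) * E| := le_abs_self _
            _ = |-c| * |E| := abs_mul _ _
            _ ≤ 1 * |E| := by
                apply mul_le_mul_of_nonneg_right _ (abs_nonneg _)
                rw [abs_le]
                constructor <;> linarith
            _ = |E| := one_mul _
        rw [hfe _ hz, e2, norm_mul, Complex.norm_conj]
        calc ‖GG χ₁ χ₂ α δ ⟨c, τ⟩‖ * ‖D ⟨-c, τ⟩‖ * Real.exp (c * (α * Real.log q)) ≤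
            (C * (2 * e0 * T)) * Real.exp (ℓ ^ 2) * 1 := by gcongr
          _ = (C * (2 * e0)) * T * Real.exp (ℓ ^ 2) := by ring
          _ ≤ (1 + C * (2 * e0)) * T ^ 2 * Real.exp (ℓ ^ 2) := by
              gcongr
              linarith
    rw [hB]
    calc ‖F ⟨c, τ⟩‖ * Real.exp ((c ^ 2 - Y ^ 2) / H ^ 2) ≤
        ((1 + C * (2 * e0)) * T ^ 2 * Real.exp (ℓ ^ 2)) * Real.exp (1 - Y ^ 2 / H ^ 2) := by
          gcongr
      _ = _ := by ring
  have hshift : ‖VV F H Y t 1 - VV F H Y t (-1)‖ ≤ 2 * (B * (1 - -1)) := by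
    apply shift_le hY0 (by norm_num)
    · intro z hz1 hz2 hz3 hz4
      have hz : z ∈ U := by
        rw [hU, mem_ofPred_eq]
        exact lt_of_le_of_lt (abs_le.mpr ⟨by linarith, by linarith⟩) (by linarith : Y < Y + 3)
      rw [hF]
      exact (hDa z hz).differentiableAt.mul (by fun_prop)
    · intro c hc1 hc2
      exact hhor _ (Or.inl rfl) c hc1 hc2
    · intro c hc1 hc2
      exact hhor _ (Or.inr rfl) c hc1 hc2
  -- combine
  have htri : ‖VV F H Y t 1‖ ≤ ‖VV F H Y t (-1)‖ + ‖VV F H Y t 1 - VV F H Y t (-1)‖ := by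
    calc ‖VV F H Y t 1‖ = ‖VV F H Y t (-1) + (VV F H Y t 1 - VV F H Y t (-1))‖ := by
          rw [add_sub_cancel]
      _ ≤ _ := norm_add_le _ _
  have hkey : Y ^ 2 / H ^ 2 = 4 * ℓ ^ 2 := by
    rw [hYdef]
    field_simp
    ring
  have he3 : Real.exp 1 ≤ 3 := Real.exp_one_lt_three.le
  set X := Real.exp (-ℓ ^ 2) with hXdef
  have hX0 : 0 < X := Real.exp_pos _
  have hℓ20 : 0 ≤ ℓ ^ 2 := sq_nonneg ℓ
  have hk1 : Real.exp (1 - Y ^ 2 / H ^ 2) ≤ 3 * X := by
    rw [hkey, sub_eq_add_neg, Real.exp_add]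
    apply mul_le_mul he3 _ (Real.exp_pos _).le (by norm_num)
    apply Real.exp_le_exp.mpr
    linarith
  have hk2 : Real.exp (ℓ ^ 2) * Real.exp (1 - Y ^ 2 / H ^ 2) ≤ 3 * X := by
    rw [hkey, ← Real.exp_add, show ℓ ^ 2 + (1 - 4 * ℓ ^ 2) = 1 + (-(3 * ℓ ^ 2)) by ring,
      Real.exp_add]
    apply mul_le_mul he3 _ (Real.exp_pos _).le (by norm_num)
    apply Real.exp_le_exp.mpr
    linarith
  have htκ : tau H Y κ ≤ 20 * H * ℓ * X := tau_le hH hℓ hκ2
  have htη : tau H Y η ≤ 20 * H * ℓ * X := tau_le hH hℓ hη2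
  have htκ0 : 0 ≤ tau H Y κ := by unfold tau; positivity
  have htη0 : 0 ≤ tau H Y η := by unfold tau; positivity
  have hTge : 1 ≤ T := by linarith
  have hexpαq : Real.exp (α * Real.log q) ≤ T ^ 2 := by
    have : T ^ 2 = Real.exp (2 * ℓ) := by
      rw [two_mul, Real.exp_add, Real.exp_log hT0]
      ring
    rw [this]
    exact Real.exp_le_exp.mpr hαq
  have hexpE : Real.exp E ≤ 2 * e0 * T := (Real.exp_le_exp.mpr (le_abs_self E)).trans hEabs
  have hexpαq' : Real.exp (-(α * Real.log q)) ≤ 1 := by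
    rw [Real.exp_le_one_iff]
    linarith
  have hqr : (q : ℝ) ^ (-(1 / 2) : ℝ) ≤ 1 := by
    apply Real.rpow_le_one_of_one_le_of_nonpos (by exact_mod_cast hq) (by norm_num)
  have hqr0 : 0 < (q : ℝ) ^ (-(1 / 2) : ℝ) := Real.rpow_pos_of_pos hq0 _
  have hqr2 : Real.exp (-(ℓ / 2)) ≤ (q : ℝ) ^ (-(1 / 2) : ℝ) := by
    rw [Real.rpow_def_of_pos hq0]
    apply Real.exp_le_exp.mpr
    linarith
  have h10 := hT3 T hTT3
  simp only [Function.comp_apply, ← hℓdef] at h10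
  have hBle : B ≤ (1 + C * (2 * e0)) * T ^ 2 * (3 * X) := by
    rw [hB]
    exact mul_le_mul_of_nonneg_left hk2 (by positivity)
  exact final_arith hC he01 hS0 hK hTge hH hℓ (Real.exp_log hT0).symm hXdef h10.le hqr0 hqr hqr2
    (Real.exp_pos _).le hk1 hBle hexpαq (Real.exp_pos _).le hexpαq'
    hexpE htκ0 htκ htη0 htη hright hleft (htri.trans (by linarith))

end Pool.Agent.T9h53.SZ
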