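import Pool.Agent.T9h53.SZ.XX

/-! # The size of the factor of the functional equation of the quotient -/

set_option autoImplicit false

open Complex Filter Topology Set

namespace Pool.Agent.T9h53.SZ

open H370.DL

variable {N₁ N₂ : ℕ} [NeZero N₁] [NeZero N₂] (χ₁ : DirichletCharacter ℂ N₁)
  (χ₂ : DirichletCharacter ℂ N₂) (α δ : ℝ)

/-- the factor of the functional equation of `L(1/2 + iδ + αz, χ₂) / L(1/2 + z, χ₁)` -/
noncomputable def GG (z : ℂ) : ℂ := XX χ₂ (1 / 2 + δ * I + α * z) / XX χ₁ (1 / 2 + z)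

/-- the constant in the phase derivative -/
noncomputable def c0 (N₁ N₂ : ℕ) (α : ℝ) : ℝ :=
  α * Real.log (N₂ * α / (2 * Real.pi)) - Real.log (N₁ / (2 * Real.pi))

/-- the logarithm of the length of the dual sum at height `t` -/
noncomputable def EE (N₁ N₂ : ℕ) (α t : ℝ) : ℝ := (α - 1) * Real.log t + c0 N₁ N₂ α

lemma log_one_add_abs {u : ℝ} (hu : |u| ≤ 1 / 2) : |Real.log (1 + u)| ≤ 2 * |u| := by
  obtain ⟨h1, h2⟩ := abs_le.mp hu
  have hpos : 0 < 1 + u := by linarith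
  rw [abs_le]
  constructor
  · have h3 := Real.one_sub_inv_le_log_of_pos hpos
    have h4 : 1 - (1 + u)⁻¹ = u / (1 + u) := by field_simp; ring
    rw [h4] at h3
    refine le_trans ?_ h3
    rw [le_div_iff₀ hpos]
    rcases abs_cases u with ⟨h5, h6⟩ | ⟨h5, h6⟩
    · rw [h5]; nlinarith
    · rw [h5]; nlinarith
  · have h3 := Real.log_le_sub_one_of_pos hpos
    have := le_abs_self u
    have := abs_nonneg u
    linarith

theorem GG_size (h₁ : χ₁.IsPrimitive) (h₂ : χ₂.IsPrimitive) (hα : 1 < α) (hα2 : α ≤ 2) :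
    ∃ C t₀ : ℝ, 0 ≤ C ∧ 1 ≤ t₀ ∧ ∀ t X : ℝ, t₀ ≤ t → 2 ≤ X → X ^ 2 ≤ t → ∀ σ : ℝ, |σ| ≤ X →
      |Real.log ‖GG χ₁ χ₂ α δ ⟨σ, t⟩‖ + σ * EE N₁ N₂ α t| ≤ C := by
  obtain ⟨C1, hC1, hX1⟩ := XX_size χ₁ h₁
  obtain ⟨C2, hC2, hX2⟩ := XX_size χ₂ h₂
  refine ⟨C1 + C2 + 4 * |δ|, max 1024 (max (|δ| / (α - 1)) (2 * |δ|)), by positivity, by
    exact le_trans (by norm_num) (le_max_left _ _), ?_⟩
  intro t X ht hX hXt σ hσ
  have ht1 : 1024 ≤ t := (le_max_left _ _).trans ht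
  have ht2 : |δ| / (α - 1) ≤ t := (le_max_left _ _).trans ((le_max_right _ _).trans ht)
  have ht3 : 2 * |δ| ≤ t := (le_max_right _ _).trans ((le_max_right _ _).trans ht)
  have ht0 : 0 < t := by linarith
  have hα0 : 0 < α - 1 := by linarith
  have hα1 : 0 < α := by linarith
  rw [div_le_iff₀ hα0] at ht2
  have hδ := neg_abs_le δ
  have hy : t ≤ δ + α * t := by nlinarith
  have hy0 : 0 < δ + α * t := by linarith
  have hX3 : (2 * X) ^ 3 ≤ (t / 2) ^ 2 := by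
    have hX32 : 32 ≤ X → 32 * X ^ 3 ≤ t ^ 2 := by
      intro h
      have e1 : 32 * X ^ 3 ≤ X * X ^ 3 := by
        apply mul_le_mul_of_nonneg_right h (by positivity)
      have e2 : X * X ^ 3 = (X ^ 2) ^ 2 := by ring
      rw [e2] at e1
      exact e1.trans (pow_le_pow_left₀ (by positivity) hXt 2)
    have hX32' : X < 32 → 32 * X ^ 3 ≤ t ^ 2 := by
      intro h
      have e1 : X ^ 3 ≤ 32 ^ 3 := pow_le_pow_left₀ (by linarith) h.le 3
      have e2 : (1024 : ℝ) ^ 2 ≤ t ^ 2 := pow_le_pow_left₀ (by norm_num) ht1 2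
      nlinarith
    have h : 32 * X ^ 3 ≤ t ^ 2 := by
      rcases le_or_gt 32 X with h | h
      · exact hX32 h
      · exact hX32' h
    nlinarith
  have hXX : X ^ 3 ≤ (t / 2) ^ 2 := by
    refine le_trans ?_ hX3
    exact pow_le_pow_left₀ (by linarith) (by linarith) 3
  have e1 := hX1 t X (by linarith) hX hXX σ hσ
  have hασ : |α * σ| ≤ 2 * X := by
    rw [abs_mul, abs_of_pos hα1]
    exact mul_le_mul hα2 hσ (abs_nonneg _) (by norm_num)
  have e2 := hX2 (δ + α * t) (2 * X) (by linarith) (by linarith)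
    (hX3.trans (pow_le_pow_left₀ (by positivity) (by linarith) 2)) (α * σ) hασ
  have hs1 : (1 / 2 : ℂ) + (⟨σ, t⟩ : ℂ) = ⟨1 / 2 + σ, t⟩ := by
    apply Complex.ext <;> simp
  have hs2 : (1 / 2 : ℂ) + δ * I + α * (⟨σ, t⟩ : ℂ) = ⟨1 / 2 + α * σ, δ + α * t⟩ := by
    apply Complex.ext <;> simp
  have hn1 : 0 < ‖XX χ₁ (⟨1 / 2 + σ, t⟩ : ℂ)‖ :=
    norm_pos_iff.mpr (XX_ne_zero h₁ (by simpa using ht0.ne'))
  have hn2 : 0 < ‖XX χ₂ (⟨1 / 2 + α * σ, δ + α * t⟩ : ℂ)‖ :=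
    norm_pos_iff.mpr (XX_ne_zero h₂ (by simpa using hy0.ne'))
  have hG : Real.log ‖GG χ₁ χ₂ α δ ⟨σ, t⟩‖ =
      Real.log ‖XX χ₂ (⟨1 / 2 + α * σ, δ + α * t⟩ : ℂ)‖ -
        Real.log ‖XX χ₁ (⟨1 / 2 + σ, t⟩ : ℂ)‖ := by
    unfold GG
    rw [hs1, hs2, norm_div, Real.log_div hn2.ne' hn1.ne']
  have hN1 : (0 : ℝ) < N₁ := by exact_mod_cast Nat.pos_of_ne_zero (NeZero.ne N₁)
  have hN2 : (0 : ℝ) < N₂ := by exact_mod_cast Nat.pos_of_ne_zero (NeZero.ne N₂)
  have hpi := Real.pi_pos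
  have hl1 : Real.log (N₁ * t / (2 * Real.pi)) = Real.log (N₁ / (2 * Real.pi)) + Real.log t := by
    rw [show (N₁ : ℝ) * t / (2 * Real.pi) = N₁ / (2 * Real.pi) * t by ring,
      Real.log_mul (by positivity) ht0.ne']
  have hu : |δ / (α * t)| ≤ 1 / 2 := by
    rw [abs_div, abs_of_pos (by positivity : 0 < α * t), div_le_iff₀ (by positivity)]
    nlinarith [abs_nonneg δ]
  have hl2 : Real.log (N₂ * (δ + α * t) / (2 * Real.pi)) =
      Real.log (N₂ * α / (2 * Real.pi)) + Real.log t + Real.log (1 + δ / (α * t)) := by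
    obtain ⟨h5, h6⟩ := abs_le.mp hu
    rw [show (N₂ : ℝ) * (δ + α * t) / (2 * Real.pi) =
      (N₂ * α / (2 * Real.pi)) * t * (1 + δ / (α * t)) by field_simp; ring,
      Real.log_mul (by positivity) (by linarith), Real.log_mul (by positivity) ht0.ne']
  have hlog := log_one_add_abs hu
  have hmain : Real.log ‖GG χ₁ χ₂ α δ ⟨σ, t⟩‖ + σ * EE N₁ N₂ α t =
      (Real.log ‖XX χ₂ (⟨1 / 2 + α * σ, δ + α * t⟩ : ℂ)‖ +
        α * σ * Real.log (N₂ * (δ + α * t) / (2 * Real.pi))) -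
      (Real.log ‖XX χ₁ (⟨1 / 2 + σ, t⟩ : ℂ)‖ + σ * Real.log (N₁ * t / (2 * Real.pi))) -
      α * σ * Real.log (1 + δ / (α * t)) := by
    rw [hG, hl1, hl2]
    unfold EE c0
    ring
  rw [hmain]
  refine (abs_sub _ _).trans (add_le_add ((abs_sub _ _).trans (by linarith)) ?_)
  rw [abs_mul]
  have hXt' : X ≤ t := by nlinarith
  calc |α * σ| * |Real.log (1 + δ / (α * t))| ≤ (2 * X) * (2 * |δ / (α * t)|) := by
        apply mul_le_mul hασ hlog (abs_nonneg _) (by linarith)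
    _ = 4 * |δ| * (X / (α * t)) := by
        rw [abs_div, abs_of_pos (by positivity : 0 < α * t)]
        ring
    _ ≤ 4 * |δ| * 1 := by
        apply mul_le_mul_of_nonneg_left _ (by positivity)
        rw [div_le_one (by positivity)]
        nlinarith
    _ = 4 * |δ| := mul_one _

/-- the functional equation of the quotient -/
lemma quot_fe (h₁ : χ₁.IsPrimitive) (h₂ : χ₂.IsPrimitive) {z : ℂ} (hz : z.im ≠ 0)
    (hz2 : δ + α * z.im ≠ 0) :
    DirichletCharacter.LFunction χ₂ (1 / 2 + δ * I + α * z) /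
      DirichletCharacter.LFunction χ₁ (1 / 2 + z) =
    GG χ₁ χ₂ α δ z * (starRingEnd ℂ)
      (DirichletCharacter.LFunction χ₂ (1 / 2 + δ * I + α * (-(starRingEnd ℂ) z)) /
        DirichletCharacter.LFunction χ₁ (1 / 2 + (-(starRingEnd ℂ) z))) := by
  rw [func_eq h₂ (s := 1 / 2 + δ * I + α * z) (by simpa using hz2),
    func_eq h₁ (s := 1 / 2 + z) (by simpa using hz)]
  have e1 : (1 : ℂ) - (starRingEnd ℂ) (1 / 2 + z) = 1 / 2 + (-(starRingEnd ℂ) z) := by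
    simp only [map_add, map_div₀, map_one, map_ofNat]
    ring
  have e2 : (1 : ℂ) - (starRingEnd ℂ) (1 / 2 + δ * I + α * z) =
      1 / 2 + δ * I + α * (-(starRingEnd ℂ) z) := by
    simp only [map_add, map_div₀, map_one, map_ofNat, map_mul, conj_ofReal, conj_I]
    ring
  unfold GG H370.DL.refl
  rw [e1, e2, map_div₀]
  ring

end Pool.Agent.T9h53.SZ
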