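import Pool.Agent.T9h53.SZ.Circ
import Pool.Agent.T9h53.SZ.GG

/-! # The quotient is not too large where it is holomorphic -/

set_option autoImplicit false

open Complex Filter Topology Set Metric Asymptotics

namespace Pool.Agent.T9h53.SZ

lemma QQ_mono {a b : ℝ} (ha : 0 ≤ a) (hab : a ≤ b) : QQ a ≤ QQ b := by
  have hK := K1_pos
  have hl37 : 0 < Real.log 37 := Real.log_pos (by norm_num)
  have hl185 : 0 < Real.log 1.85 := Real.log_pos (by norm_num)
  unfold QQ
  have h0 : K1 * a ≤ K1 * b := mul_le_mul_of_nonneg_left hab hK.le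
  have h1 : K1 * a * Real.log 1.85 ≤ K1 * b * Real.log 1.85 :=
    mul_le_mul_of_nonneg_right h0 hl185.le
  have h2 : K1 * a * Real.log 37 ≤ K1 * b * Real.log 37 :=
    mul_le_mul_of_nonneg_right h0 hl37.le
  have h3 : K1 * a * Real.log (20 * (K1 * a + 1)) ≤ K1 * b * Real.log (20 * (K1 * b + 1)) := by
    apply mul_le_mul h0
    · apply Real.log_le_log
      · have : 0 ≤ K1 * a := by positivity
        linarith
      · linarith
    · apply Real.log_nonneg
      have : 0 ≤ K1 * a := by positivity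
      linarith
    · have : 0 ≤ b := ha.trans hab
      positivity
  linarith

lemma QQ_small (A B K : ℝ) (hK : 0 < K) :
    ∀ᶠ x : ℝ in atTop, A * x + B + QQ (K * x) ≤ x ^ 2 := by
  have hK1 := K1_pos
  have h1 : (fun x : ℝ => x) =o[atTop] fun x : ℝ => x ^ 2 := by
    simpa using (isLittleO_pow_pow_atTop_of_lt (𝕜 := ℝ) (p := 1) (q := 2) one_lt_two)
  have h2 : (fun _ : ℝ => (1 : ℝ)) =o[atTop] fun x : ℝ => x ^ 2 := by
    simpa using (isLittleO_pow_pow_atTop_of_lt (𝕜 := ℝ) (p := 0) (q := 2) (by norm_num))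
  have ht : Tendsto (fun x : ℝ => 20 * (K1 * (K * x) + 1)) atTop atTop := by
    apply Tendsto.const_mul_atTop (by norm_num)
    apply tendsto_atTop_add_const_right
    apply Tendsto.const_mul_atTop hK1
    exact tendsto_id.const_mul_atTop hK
  have h3 : (fun x : ℝ => Real.log (20 * (K1 * (K * x) + 1))) =o[atTop] fun x : ℝ => x := by
    have e1 := Real.isLittleO_log_id_atTop.comp_tendsto ht
    have e2 : (fun x : ℝ => 20 * (K1 * (K * x) + 1)) =O[atTop] fun x : ℝ => x := by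
      have e3 : (fun _ : ℝ => (1 : ℝ)) =O[atTop] fun x : ℝ => x := by
        simpa using (isLittleO_pow_pow_atTop_of_lt (𝕜 := ℝ) (p := 0) (q := 1)
          (by norm_num)).isBigO
      have e4 : (fun x : ℝ => 20 * (K1 * (K * x) + 1)) =
          fun x : ℝ => (20 * K1 * K) * x + 20 * 1 := by
        funext x; ring
      rw [e4]
      exact ((isBigO_refl _ _).const_mul_left _).add (e3.const_mul_left _)
    exact (e1.trans_isBigO e2)
  have h4 : (fun x : ℝ => x * Real.log (20 * (K1 * (K * x) + 1))) =o[atTop]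
      fun x : ℝ => x ^ 2 := by
    have e1 : (fun x : ℝ => x ^ 2) = fun x : ℝ => x * x := by funext x; ring
    rw [e1]
    exact (isBigO_refl (fun x : ℝ => x) atTop).mul_isLittleO h3
  have h5 : (fun x : ℝ => A * x + B + QQ (K * x)) =o[atTop] fun x : ℝ => x ^ 2 := by
    have e1 : (fun x : ℝ => A * x + B + QQ (K * x)) = fun x : ℝ =>
        (A + K1 * K * Real.log 1.85 + 40 * K + 40 * K1 * K * Real.log 37) * x + (B + 40) * 1 +
        K1 * K * (x * Real.log (20 * (K1 * (K * x) + 1))) := by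
      funext x
      unfold QQ
      ring
    rw [e1]
    exact ((h1.const_mul_left _).add (h2.const_mul_left _)).add (h4.const_mul_left _)
  filter_upwards [h5.bound one_pos] with x hx
  rw [Real.norm_eq_abs, Real.norm_eq_abs, one_mul, abs_of_nonneg (sq_nonneg x)] at hx
  exact (le_abs_self _).trans hx

section

variable {q : ℕ} [NeZero q] {χ : DirichletCharacter ℂ q}

lemma L_bound_right : ∃ C : ℝ, 0 < C ∧ ∀ s : ℂ, 2 ≤ s.re →
    ‖DirichletCharacter.LFunction χ s‖ ≤ C := by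
  have hsum : Summable (fun n : ℕ => 1 / (n : ℝ) ^ 2) :=
    Real.summable_one_div_nat_pow.mpr (by norm_num)
  refine ⟨(∑' n : ℕ, 1 / (n : ℝ) ^ 2) + 1, by
    have : 0 ≤ ∑' n : ℕ, 1 / (n : ℝ) ^ 2 := tsum_nonneg fun n => by positivity
    linarith, fun s hs => ?_⟩
  rw [DirichletCharacter.LFunction_eq_LSeries _ (by linarith), LSeries]
  have hb : ∀ n : ℕ, ‖LSeries.term (fun n => χ (n : ZMod q)) s n‖ ≤ 1 / (n : ℝ) ^ 2 := by
    intro n
    rcases Nat.eq_zero_or_pos n with rfl | hn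
    · simp
    · rw [LSeries.norm_term_eq, if_neg hn.ne']
      have hn1 : (1 : ℝ) ≤ n := by exact_mod_cast hn
      have h1 : (n : ℝ) ^ 2 ≤ (n : ℝ) ^ s.re := by
        rw [← Real.rpow_natCast]
        exact Real.rpow_le_rpow_of_exponent_le hn1 (by exact_mod_cast hs)
      calc ‖χ (n : ZMod q)‖ / (n : ℝ) ^ s.re ≤ 1 / (n : ℝ) ^ s.re := by
            gcongr
            exact DirichletCharacter.norm_le_one χ _
        _ ≤ 1 / (n : ℝ) ^ 2 := by
            apply one_div_le_one_div_of_le (by positivity) h1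
  have := tsum_of_norm_bounded hsum.hasSum hb
  linarith

lemma L_growth_all (hχ : χ.IsPrimitive) : ∃ C A : ℝ, 0 < C ∧ 0 < A ∧ ∀ s : ℂ,
    (1 / 16 : ℝ) ≤ s.re → 1 ≤ s.im → ‖DirichletCharacter.LFunction χ s‖ ≤ C * s.im ^ A := by
  obtain ⟨C, A, hC, hA, h⟩ := H370.DL.L_growth (χ := χ) hχ
  obtain ⟨C', hC', h'⟩ := L_bound_right (χ := χ)
  refine ⟨C + C', A, by positivity, hA, fun s h1 h2 => ?_⟩
  have h3 : 1 ≤ s.im ^ A := Real.one_le_rpow h2 hA.le
  rcases le_or_gt s.re 4 with h4 | h4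
  · have := h s h1 h4 h2
    nlinarith
  · have := h' s (by linarith)
    nlinarith

end

variable {N₁ N₂ : ℕ} [NeZero N₁] [NeZero N₂] (χ₁ : DirichletCharacter ℂ N₁)
  (χ₂ : DirichletCharacter ℂ N₂) (α δ : ℝ)

theorem box_bound (h₁ : χ₁.IsPrimitive) (h₂ : χ₂.IsPrimitive) (hα : 1 < α) (hα2 : α ≤ 2) :
    ∃ T₀ : ℝ, 1 ≤ T₀ ∧ ∀ T : ℝ, T₀ ≤ T → ∀ τ : ℝ, T ≤ τ → τ ≤ 3 * T → ∀ D : ℂ → ℂ,
      (∀ z : ℂ, |z.im - τ| ≤ 2 → AnalyticAt ℂ D z) →
      (∀ z : ℂ, |z.im - τ| ≤ 2 → DirichletCharacter.LFunction χ₂ (1 / 2 + δ * I + α * z) =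
        D z * DirichletCharacter.LFunction χ₁ (1 / 2 + z)) →
      ∀ x : ℝ, 0 ≤ x → x ≤ 1 → ‖D ⟨x, τ⟩‖ ≤ Real.exp ((Real.log T) ^ 2) := by
  have hgood := H370.good_dirichlet χ₁ h₁
  obtain ⟨K, hK, hdata⟩ := H370.Loc.ball_data hgood
  obtain ⟨c, hc, hlow⟩ := hgood.lower
  obtain ⟨C2, A2, hC2, hA2, hg2⟩ := L_growth_all h₂
  -- the final inequality
  have hsm := QQ_small (2 * A2) (|Real.log (C2 / c * 3 ^ A2)|) (2 * K) (by positivity)
  have hsm2 := Real.tendsto_log_atTop.eventually hsm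
  obtain ⟨T1, hT1⟩ := eventually_atTop.mp hsm2
  refine ⟨max T1 (max 10 (4 + 2 * |δ|)), by
    exact le_trans (by norm_num) ((le_max_left _ _).trans (le_max_right _ _)), ?_⟩
  intro T hT τ hτ1 hτ2 D hD hDL x hx0 hx1
  have hT10 : 10 ≤ T := (le_max_left _ _).trans ((le_max_right _ _).trans hT)
  have hTδ : 4 + 2 * |δ| ≤ T := (le_max_right _ _).trans ((le_max_right _ _).trans hT)
  have hfin := hT1 T ((le_max_left _ _).trans hT)
  have hδ1 := neg_abs_le δ
  have hδ2 := le_abs_self δ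
  obtain ⟨M, hM1, han, hF0, hb, hMc, hL0, hLle⟩ := hdata τ (by linarith)
  set ctr : ℂ := ⟨3 / 2, τ⟩ with hctr
  have hsh : ∀ w : ℂ, w ∈ closedBall ctr 1.9 → 1 / 2 + w ∈ closedBall (⟨2, τ⟩ : ℂ) 1.9 := by
    intro w hw
    rw [mem_closedBall, dist_eq_norm] at hw ⊢
    have : 1 / 2 + w - (⟨2, τ⟩ : ℂ) = w - ctr := by
      rw [hctr]
      apply Complex.ext
      · simp
        ring
      · simp
    rw [this]
    exact hw
  have hcc : (1 / 2 : ℂ) + ctr = ⟨2, τ⟩ := by
    rw [hctr]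
    apply Complex.ext
    · simp
      norm_num
    · simp
  have hfan : AnalyticOnNhd ℂ (fun w => DirichletCharacter.LFunction χ₁ (1 / 2 + w))
      (closedBall ctr 1.9) := by
    intro w hw
    exact AnalyticAt.fun_comp (f := fun w : ℂ => 1 / 2 + w) (han _ (hsh w hw)) (by fun_prop)
  obtain ⟨r, hr1, hr2, hr⟩ := circle_lower (f := fun w => DirichletCharacter.LFunction χ₁ (1 / 2 + w))
    (c := ctr) hM1 hfan (by simp only [hcc]; exact hF0) (by simp only [hcc]; exact hMc)
    (fun w hw => hb _ (hsh w hw))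
  simp only [hcc] at hr
  have hr0 : 0 < r := by linarith
  have hcl := hlow τ (by linarith)
  -- bound on the sphere
  have hτ0 : 0 < τ := by linarith
  have hlogτ : 0 ≤ Real.log τ := Real.log_nonneg (by linarith)
  have hsph : ∀ w ∈ sphere ctr r, ‖D w‖ ≤ C2 * (3 * τ) ^ A2 / c *
      Real.exp (QQ (K * Real.log τ)) := by
    intro w hw
    have hwn : ‖w - ctr‖ = r := by rwa [mem_sphere, dist_eq_norm] at hw
    have hwim : |w.im - τ| ≤ 1.6 := by
      have := abs_im_le_norm (w - ctr)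
      rw [sub_im, hwn] at this
      exact this.trans hr2
    have hwre : |w.re - 3 / 2| ≤ 1.6 := by
      have := abs_re_le_norm (w - ctr)
      rw [sub_re, hwn] at this
      exact this.trans hr2
    obtain ⟨hi1, hi2⟩ := abs_le.mp hwim
    obtain ⟨hr1', hr2'⟩ := abs_le.mp hwre
    norm_num at hi1 hi2 hr1' hr2'
    have h1 := hr w hw
    have h2 := hDL w (hwim.trans (by norm_num))
    have hs2re : ((1 / 2 : ℂ) + δ * I + α * w).re = 1 / 2 + α * w.re := by simp
    have hs2im : ((1 / 2 : ℂ) + δ * I + α * w).im = δ + α * w.im := by simp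
    have h3 := hg2 (1 / 2 + δ * I + α * w) (by rw [hs2re]; nlinarith)
      (by rw [hs2im]; nlinarith)
    rw [hs2im] at h3
    have h4 : (δ + α * w.im) ^ A2 ≤ (3 * τ) ^ A2 := by
      apply Real.rpow_le_rpow _ _ hA2.le
      · nlinarith
      · nlinarith
    have h5 : QQ (Real.log (M / ‖DirichletCharacter.LFunction χ₁ ⟨2, τ⟩‖)) ≤
        QQ (K * Real.log τ) := QQ_mono hL0 hLle
    have h6 : c * Real.exp (-QQ (K * Real.log τ)) ≤
        ‖DirichletCharacter.LFunction χ₁ (1 / 2 + w)‖ := by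
      refine le_trans ?_ h1
      apply mul_le_mul hcl _ (Real.exp_pos _).le (norm_nonneg _)
      apply Real.exp_le_exp.mpr
      linarith
    have h7 : ‖D w‖ * ‖DirichletCharacter.LFunction χ₁ (1 / 2 + w)‖ ≤ C2 * (3 * τ) ^ A2 := by
      rw [← norm_mul, ← h2]
      exact h3.trans (mul_le_mul_of_nonneg_left h4 hC2.le)
    have h8 : ‖D w‖ * (c * Real.exp (-QQ (K * Real.log τ))) ≤ C2 * (3 * τ) ^ A2 :=
      (mul_le_mul_of_nonneg_left h6 (norm_nonneg _)).trans h7
    rw [Real.exp_neg] at h8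
    have h9 := Real.exp_pos (QQ (K * Real.log τ))
    have h10 : ‖D w‖ = ‖D w‖ * (c * (Real.exp (QQ (K * Real.log τ)))⁻¹) *
        (Real.exp (QQ (K * Real.log τ)) / c) := by
      field_simp
    rw [h10]
    calc _ ≤ C2 * (3 * τ) ^ A2 * (Real.exp (QQ (K * Real.log τ)) / c) := by gcongr
      _ = _ := by ring
  have hz : ‖D ⟨x, τ⟩‖ ≤ C2 * (3 * τ) ^ A2 / c * Real.exp (QQ (K * Real.log τ)) := by
    refine Complex.norm_le_of_forall_mem_frontier_norm_le (U := ball ctr r) isBounded_ball ?_ ?_ ?_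
    · apply DifferentiableOn.diffContOnCl
      rw [closure_ball ctr hr0.ne']
      intro w hw
      have hwn : ‖w - ctr‖ ≤ r := by rwa [mem_closedBall, dist_eq_norm] at hw
      have hwim : |w.im - τ| ≤ 2 := by
        have := abs_im_le_norm (w - ctr)
        rw [sub_im] at this
        exact this.trans (hwn.trans (hr2.trans (by norm_num)))
      exact (hD w hwim).differentiableAt.differentiableWithinAt
    · intro w hw
      rw [frontier_ball ctr hr0.ne'] at hw
      exact hsph w hw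
    · rw [closure_ball ctr hr0.ne', mem_closedBall, dist_eq_norm]
      have e1 : (⟨x, τ⟩ : ℂ) - ctr = ((x - 3 / 2 : ℝ) : ℂ) := by
        rw [hctr]
        apply Complex.ext <;> simp
      rw [e1, Complex.norm_real, Real.norm_eq_abs]
      refine le_trans ?_ hr1
      rw [abs_le]
      norm_num
      constructor <;> linarith
  refine hz.trans ?_
  have hT0 : 0 < T := by linarith
  have hlog3 : Real.log τ ≤ 2 * Real.log T := by
    have e1 : Real.log τ ≤ Real.log (T ^ 2) := by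
      apply Real.log_le_log hτ0
      calc τ ≤ 3 * T := hτ2
        _ ≤ T * T := mul_le_mul_of_nonneg_right (by linarith) hT0.le
        _ = T ^ 2 := by ring
    rwa [Real.log_pow, Nat.cast_ofNat] at e1
  have e2 : C2 * (3 * τ) ^ A2 / c = Real.exp (Real.log (C2 / c * 3 ^ A2) + A2 * Real.log τ) := by
    rw [Real.exp_add, Real.exp_log (by positivity), Real.mul_rpow (by norm_num) hτ0.le,
      mul_comm A2, ← Real.rpow_def_of_pos hτ0]
    ring
  rw [e2, ← Real.exp_add]
  apply Real.exp_le_exp.mpr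
  have e3 : QQ (K * Real.log τ) ≤ QQ (2 * K * Real.log T) := by
    apply QQ_mono (by positivity)
    calc K * Real.log τ ≤ K * (2 * Real.log T) := mul_le_mul_of_nonneg_left hlog3 hK.le
      _ = 2 * K * Real.log T := by ring
  have e4 : A2 * Real.log τ ≤ 2 * A2 * Real.log T := by
    calc A2 * Real.log τ ≤ A2 * (2 * Real.log T) := mul_le_mul_of_nonneg_left hlog3 hA2.le
      _ = 2 * A2 * Real.log T := by ring
  have e5 := le_abs_self (Real.log (C2 / c * 3 ^ A2))
  linarith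

end Pool.Agent.T9h53.SZ
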