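import Mathlib

/-! # A spacing lemma for two multiplicative variables -/

set_option autoImplicit false

open Finset

namespace Pool.Agent.T9h53.SZ

lemma log_nat_gap {a b : ℕ} (ha : 0 < a) (hb : 0 < b) (hab : a ≠ b) {M : ℝ} (haM : (a : ℝ) ≤ M)
    (hbM : (b : ℝ) ≤ M) : 1 / M ≤ |Real.log a - Real.log b| := by
  wlog h : a < b generalizing a b with H
  · have := H hb ha hab.symm hbM haM (by omega)
    rwa [abs_sub_comm] at this
  · have ha0 : (0 : ℝ) < a := by exact_mod_cast ha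
    have hb0 : (0 : ℝ) < b := by exact_mod_cast hb
    have h1 : (a : ℝ) + 1 ≤ b := by exact_mod_cast h
    have h2 := Real.log_le_sub_one_of_pos (show 0 < (a : ℝ) / b by positivity)
    rw [Real.log_div ha0.ne' hb0.ne'] at h2
    have h3 : (a : ℝ) / b - 1 ≤ -(1 / M) := by
      have h4 : (a : ℝ) / b - 1 = -((b - a) / b) := by field_simp; ring
      rw [h4]
      apply neg_le_neg
      rw [div_le_div_iff₀ (by linarith) hb0]
      nlinarith
    have h5 : Real.log a - Real.log b ≤ -(1 / M) := h2.trans h3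
    rw [abs_sub_comm]
    exact le_trans (by linarith) (le_abs_self _)

/-- distinct reduced fractions are spaced -/
lemma frac_gap {r s r' s' : ℕ} (hr : 0 < r) (hs : 0 < s) (hr' : 0 < r') (hs' : 0 < s')
    (h1 : Nat.Coprime r s) (h2 : Nat.Coprime r' s') (hne : (r, s) ≠ (r', s')) {R S : ℝ}
    (hrR : (r : ℝ) ≤ R) (hsS : (s : ℝ) ≤ S) (hrR' : (r' : ℝ) ≤ R) (hsS' : (s' : ℝ) ≤ S) :
    1 / (R * S) ≤ |(Real.log r - Real.log s) - (Real.log r' - Real.log s')| := by
  have hne2 : r * s' ≠ r' * s := by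
    intro h
    apply hne
    have e1 : r ∣ r' := by
      have : r ∣ r' * s := ⟨s', h.symm⟩
      exact h1.dvd_of_dvd_mul_right this
    have e2 : r' ∣ r := by
      have : r' ∣ r * s' := ⟨s, h⟩
      exact h2.dvd_of_dvd_mul_right this
    have e3 : r = r' := Nat.dvd_antisymm e1 e2
    subst e3
    have e4 : s' = s := Nat.eq_of_mul_eq_mul_left hr h
    rw [e4]
  have hr0 : (0 : ℝ) < r := by exact_mod_cast hr
  have hs0 : (0 : ℝ) < s := by exact_mod_cast hs
  have hr0' : (0 : ℝ) < r' := by exact_mod_cast hr'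
  have hs0' : (0 : ℝ) < s' := by exact_mod_cast hs'
  have h3 := log_nat_gap (a := r * s') (b := r' * s) (by positivity) (by positivity) hne2
    (M := R * S) (by push_cast; gcongr; linarith) (by push_cast; gcongr; linarith)
  have h4 : Real.log ((r * s' : ℕ) : ℝ) - Real.log ((r' * s : ℕ) : ℝ) =
      (Real.log r - Real.log s) - (Real.log r' - Real.log s') := by
    push_cast
    rw [Real.log_mul hr0.ne' hs0'.ne', Real.log_mul hr0'.ne' hs0.ne']
    ring
  rwa [h4] at h3

/-- points of a spaced set in an interval -/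
lemma count_spaced {ι : Type} [DecidableEq ι] (F : Finset ι) (f : ι → ℝ) {c Δ : ℝ} (hc : 0 < c)
    (hΔ : 0 ≤ Δ) (hf : ∀ x ∈ F, ∀ y ∈ F, x ≠ y → 1 / c ≤ |f x - f y|) (u : ℝ) :
    ((F.filter (fun x => |f x - u| ≤ Δ)).card : ℝ) ≤ 2 * Δ * c + 1 := by
  classical
  set G := F.filter (fun x => |f x - u| ≤ Δ) with hG
  have hmap : ∀ x ∈ G, ⌊(f x - (u - Δ)) * c⌋₊ ∈ Finset.range (⌊2 * Δ * c⌋₊ + 1) := by
    intro x hx
    rw [hG, Finset.mem_filter] at hx
    have h1 := (abs_le.mp hx.2)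
    rw [Finset.mem_range, Nat.lt_succ_iff]
    apply Nat.floor_le_floor
    apply mul_le_mul_of_nonneg_right _ hc.le
    linarith
  have hinj : Set.InjOn (fun x => ⌊(f x - (u - Δ)) * c⌋₊) G := by
    intro x hx y hy hxy
    by_contra hne
    have hx' := (Finset.mem_filter.mp (Finset.mem_coe.mp hx))
    have hy' := (Finset.mem_filter.mp (Finset.mem_coe.mp hy))
    have h1 := hf x hx'.1 y hy'.1 hne
    have hx0 : 0 ≤ (f x - (u - Δ)) * c := by
      apply mul_nonneg _ hc.le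
      linarith [(abs_le.mp hx'.2).1]
    have hy0 : 0 ≤ (f y - (u - Δ)) * c := by
      apply mul_nonneg _ hc.le
      linarith [(abs_le.mp hy'.2).1]
    simp only at hxy
    have k1 := Nat.floor_le hx0
    have k2 := Nat.lt_floor_add_one ((f x - (u - Δ)) * c)
    have k3 := Nat.floor_le hy0
    have k4 := Nat.lt_floor_add_one ((f y - (u - Δ)) * c)
    rw [hxy] at k1 k2
    have k5 : |(f x - f y) * c| < 1 := by
      rw [abs_lt]
      constructor <;> nlinarith
    rw [abs_mul, abs_of_pos hc] at k5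
    rw [div_le_iff₀ hc] at h1
    linarith
  have hcard : G.card ≤ ⌊2 * Δ * c⌋₊ + 1 := by
    have := Finset.card_le_card_of_injOn _ hmap hinj
    rwa [Finset.card_range] at this
  have h2 : (⌊2 * Δ * c⌋₊ : ℝ) ≤ 2 * Δ * c := Nat.floor_le (by positivity)
  have h3 : (G.card : ℝ) ≤ (⌊2 * Δ * c⌋₊ : ℝ) + 1 := by exact_mod_cast hcard
  linarith

/-- pairs of close points of two spaced sets -/
lemma pairs_spaced {ι κ : Type} [DecidableEq ι] [DecidableEq κ] (F : Finset ι) (G : Finset κ)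
    (f : ι → ℝ) (g : κ → ℝ) {a b Δ : ℝ} (ha : 0 < a) (hb : 0 < b) (hΔ : 0 ≤ Δ)
    (hF : (F.card : ℝ) ≤ a) (hG : (G.card : ℝ) ≤ b)
    (hf : ∀ x ∈ F, ∀ y ∈ F, x ≠ y → 1 / a ≤ |f x - f y|)
    (hg : ∀ x ∈ G, ∀ y ∈ G, x ≠ y → 1 / b ≤ |g x - g y|) :
    (((F ×ˢ G).filter (fun z => |f z.1 - g z.2| ≤ Δ)).card : ℝ) ≤
      2 * Δ * (a * b) + Real.sqrt (a * b) := by
  classical
  have h1 : (((F ×ˢ G).filter (fun z => |f z.1 - g z.2| ≤ Δ)).card : ℝ) ≤ a * (2 * Δ * b + 1) := by
    have e1 : ((F ×ˢ G).filter (fun z => |f z.1 - g z.2| ≤ Δ)).card =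
        ∑ x ∈ F, (G.filter (fun y => |f x - g y| ≤ Δ)).card := by
      rw [Finset.card_filter, Finset.sum_product]
      exact Finset.sum_congr rfl fun x _ => (Finset.card_filter _ _).symm
    rw [e1]
    push_cast
    calc ∑ x ∈ F, ((G.filter (fun y => |f x - g y| ≤ Δ)).card : ℝ) ≤
        ∑ x ∈ F, (2 * Δ * b + 1) := by
          refine Finset.sum_le_sum fun x _ => ?_
          have := count_spaced G g hb hΔ hg (f x)
          have e2 : (G.filter (fun y => |f x - g y| ≤ Δ)) = G.filter (fun y => |g y - f x| ≤ Δ) := by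
            refine Finset.filter_congr fun y _ => ?_
            rw [abs_sub_comm]
          rw [e2]
          exact this
      _ = F.card * (2 * Δ * b + 1) := by rw [Finset.sum_const, nsmul_eq_mul]
      _ ≤ a * (2 * Δ * b + 1) := by gcongr
  have h2 : (((F ×ˢ G).filter (fun z => |f z.1 - g z.2| ≤ Δ)).card : ℝ) ≤ b * (2 * Δ * a + 1) := by
    have e1 : ((F ×ˢ G).filter (fun z => |f z.1 - g z.2| ≤ Δ)).card =
        ∑ y ∈ G, (F.filter (fun x => |f x - g y| ≤ Δ)).card := by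
      rw [Finset.card_filter, Finset.sum_product_right]
      exact Finset.sum_congr rfl fun x _ => (Finset.card_filter _ _).symm
    rw [e1]
    push_cast
    calc ∑ y ∈ G, ((F.filter (fun x => |f x - g y| ≤ Δ)).card : ℝ) ≤
        ∑ y ∈ G, (2 * Δ * a + 1) := by
          refine Finset.sum_le_sum fun y _ => ?_
          exact count_spaced F f ha hΔ hf (g y)
      _ = G.card * (2 * Δ * a + 1) := by rw [Finset.sum_const, nsmul_eq_mul]
      _ ≤ b * (2 * Δ * a + 1) := by gcongr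
  rcases le_total a b with hab | hab
  · refine h1.trans ?_
    have : a ≤ Real.sqrt (a * b) := Real.le_sqrt_of_sq_le (by nlinarith)
    linarith
  · refine h2.trans ?_
    have : b ≤ Real.sqrt (a * b) := Real.le_sqrt_of_sq_le (by nlinarith)
    linarith

/-- the reduced pairs -/
def red (A A' : ℕ) : Finset (ℕ × ℕ) :=
  (Finset.Icc 1 A ×ˢ Finset.Icc 1 A').filter (fun z => Nat.Coprime z.1 z.2)

lemma red_card (A A' : ℕ) : ((red A A').card : ℝ) ≤ (A : ℝ) * A' := by
  have h : (red A A').card ≤ A * A' := by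
    unfold red
    refine (Finset.card_filter_le _ _).trans ?_
    rw [Finset.card_product, Nat.card_Icc, Nat.card_Icc]
    simp
  exact_mod_cast h

lemma red_gap {A A' : ℕ} {x y : ℕ × ℕ} (hx : x ∈ red A A') (hy : y ∈ red A A') (hne : x ≠ y)
    {R S : ℝ} (hR : (A : ℝ) ≤ R) (hS : (A' : ℝ) ≤ S) :
    1 / (R * S) ≤ |(Real.log x.1 - Real.log x.2) - (Real.log y.1 - Real.log y.2)| := by
  unfold red at hx hy
  rw [Finset.mem_filter, Finset.mem_product, Finset.mem_Icc, Finset.mem_Icc] at hx hy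
  obtain ⟨⟨⟨x1, x2⟩, x3, x4⟩, x5⟩ := hx
  obtain ⟨⟨⟨y1, y2⟩, y3, y4⟩, y5⟩ := hy
  have c1 : (x.1 : ℝ) ≤ A := by exact_mod_cast x2
  have c2 : (x.2 : ℝ) ≤ A' := by exact_mod_cast x4
  have c3 : (y.1 : ℝ) ≤ A := by exact_mod_cast y2
  have c4 : (y.2 : ℝ) ≤ A' := by exact_mod_cast y4
  refine frac_gap (by omega) (by omega) (by omega) (by omega) x5 y5 ?_ (c1.trans hR) (c2.trans hS)
    (c3.trans hR) (c4.trans hS)
  exact hne

/-- the near quadruples in a dyadic box; the first two variables run over `[1, 2M)`, `[1, 2M')` -/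
noncomputable def quad (α Δ : ℝ) (M M' N N' : ℕ) : Finset ((ℕ × ℕ) × (ℕ × ℕ)) :=
  ((Finset.Ico 1 (2 * M) ×ˢ Finset.Ico 1 (2 * M')) ×ˢ
    (Finset.Ico 1 (2 * N) ×ˢ Finset.Ico 1 (2 * N'))).filter (fun z =>
      |α * (Real.log z.1.1 - Real.log z.1.2) + (Real.log z.2.1 - Real.log z.2.2)| ≤ Δ)

lemma sum_inv_le (n : ℕ) : ∑ d ∈ Finset.Icc 1 n, 1 / (d : ℝ) ≤ 1 + Real.log n := by
  have h := harmonic_le_one_add_log n
  rw [harmonic_eq_sum_Icc] at h
  push_cast at h
  simpa [one_div] using h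

lemma sum_inv_sq_le (n : ℕ) : ∑ d ∈ Finset.Icc 1 n, 1 / (d : ℝ) ^ 2 ≤ 2 := by
  have h : ∀ m : ℕ, ∑ d ∈ Finset.Icc 1 (m + 1), 1 / (d : ℝ) ^ 2 ≤ 2 - 1 / ((m : ℝ) + 1) := by
    intro m
    induction m with
    | zero => norm_num
    | succ m ih =>
      rw [Finset.sum_Icc_succ_top (by omega)]
      push_cast
      have h1 : 1 / ((m : ℝ) + 1 + 1) ^ 2 ≤ 1 / ((m : ℝ) + 1) - 1 / ((m : ℝ) + 1 + 1) := by
        rw [div_sub_div _ _ (by positivity) (by positivity), div_le_div_iff₀ (by positivity)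
          (by positivity)]
        nlinarith [show (0 : ℝ) ≤ m from Nat.cast_nonneg m]
      linarith
  rcases Nat.eq_zero_or_pos n with rfl | hn
  · simp
  · obtain ⟨m, rfl⟩ : ∃ m, n = m + 1 := ⟨n - 1, by omega⟩
    have := h m
    have h2 : 0 ≤ 1 / ((m : ℝ) + 1) := by positivity
    linarith

set_option maxHeartbeats 1000000 in
/-- **the spacing lemma** (Fouvry - Iwaniec) -/
theorem quad_card {α Δ : ℝ} (hα : 1 ≤ α) (hΔ : 0 ≤ Δ) {M M' N N' : ℕ} (hM : 1 ≤ M) (hM' : 1 ≤ M')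
    (hN : 1 ≤ N) (hN' : 1 ≤ N') :
    ((quad α Δ M M' N N').card : ℝ) ≤ 128 * Δ * ((M : ℝ) * M' * (N * N')) +
      4 * Real.sqrt ((M : ℝ) * M' * (N * N')) *
        ((1 + Real.log (2 * M)) * (1 + Real.log (2 * N))) := by
  classical
  have hM0 : (0 : ℝ) < M := by exact_mod_cast hM
  have hM0' : (0 : ℝ) < M' := by exact_mod_cast hM'
  have hN0 : (0 : ℝ) < N := by exact_mod_cast hN
  have hN0' : (0 : ℝ) < N' := by exact_mod_cast hN'
  set P : ℝ := (M : ℝ) * M' * (N * N') with hP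
  have hP0 : 0 < P := by positivity
  -- fibers
  have hmaps : ∀ z ∈ quad α Δ M M' N N', (Nat.gcd z.1.1 z.1.2, Nat.gcd z.2.1 z.2.2) ∈
      Finset.Icc 1 (2 * M) ×ˢ Finset.Icc 1 (2 * N) := by
    intro z hz
    unfold quad at hz
    simp only [Finset.mem_filter, Finset.mem_product, Finset.mem_Ico] at hz
    obtain ⟨⟨⟨⟨z1, z2⟩, z3, z4⟩, ⟨z5, z6⟩, z7, z8⟩, -⟩ := hz
    rw [Finset.mem_product, Finset.mem_Icc, Finset.mem_Icc]
    refine ⟨⟨Nat.gcd_pos_of_pos_left _ z1, ?_⟩, Nat.gcd_pos_of_pos_left _ z5, ?_⟩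
    · exact (Nat.gcd_le_left _ z1).trans z2.le
    · exact (Nat.gcd_le_left _ z5).trans z6.le
  have hfib : ((quad α Δ M M' N N').card : ℝ) =
      ∑ de ∈ Finset.Icc 1 (2 * M) ×ˢ Finset.Icc 1 (2 * N),
        (((quad α Δ M M' N N').filter (fun z =>
          (Nat.gcd z.1.1 z.1.2, Nat.gcd z.2.1 z.2.2) = de)).card : ℝ) := by
    rw [Finset.card_eq_sum_card_fiberwise hmaps]
    push_cast
    rfl
  have hone : ∀ de ∈ Finset.Icc 1 (2 * M) ×ˢ Finset.Icc 1 (2 * N),
      (((quad α Δ M M' N N').filter (fun z =>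
          (Nat.gcd z.1.1 z.1.2, Nat.gcd z.2.1 z.2.2) = de)).card : ℝ) ≤
      32 * Δ * P * (1 / (de.1 : ℝ) ^ 2 * (1 / (de.2 : ℝ) ^ 2)) +
        4 * Real.sqrt P * (1 / (de.1 : ℝ) * (1 / (de.2 : ℝ))) := by
    rintro ⟨d, e⟩ hde
    rw [Finset.mem_product, Finset.mem_Icc, Finset.mem_Icc] at hde
    obtain ⟨⟨d1, d2⟩, e1, e2⟩ := hde
    simp only at d1 d2 e1 e2 ⊢
    have hd0 : (0 : ℝ) < d := by exact_mod_cast d1
    have he0 : (0 : ℝ) < e := by exact_mod_cast e1
    set a : ℝ := (2 * M / d) * (2 * M' / d) with ha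
    set b : ℝ := (2 * N / e) * (2 * N' / e) with hb
    have ha0 : 0 < a := by positivity
    have hb0 : 0 < b := by positivity
    have hdiv : ∀ A k : ℕ, ((A / k : ℕ) : ℝ) ≤ (A : ℝ) / k := fun A k => Nat.cast_div_le
    have hpairs := pairs_spaced (red (2 * M / d) (2 * M' / d)) (red (2 * N / e) (2 * N' / e))
      (fun x => α * (Real.log x.1 - Real.log x.2)) (fun y => -(Real.log y.1 - Real.log y.2))
      ha0 hb0 hΔ (by
        refine (red_card _ _).trans ?_
        rw [ha]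
        have k1 := hdiv (2 * M) d
        have k2 := hdiv (2 * M') d
        push_cast at k1 k2
        gcongr) (by
        refine (red_card _ _).trans ?_
        rw [hb]
        have k1 := hdiv (2 * N) e
        have k2 := hdiv (2 * N') e
        push_cast at k1 k2
        gcongr) (by
        intro x hx y hy hxy
        have k1 := hdiv (2 * M) d
        have k2 := hdiv (2 * M') d
        push_cast at k1 k2
        have k3 := red_gap hx hy hxy k1 k2
        rw [← mul_sub, abs_mul, abs_of_pos (by linarith : 0 < α)]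
        have k4 : 0 ≤ |Real.log x.1 - Real.log x.2 - (Real.log y.1 - Real.log y.2)| :=
          abs_nonneg _
        nlinarith) (by
        intro x hx y hy hxy
        have k1 := hdiv (2 * N) e
        have k2 := hdiv (2 * N') e
        push_cast at k1 k2
        have k3 := red_gap hx hy hxy k1 k2
        rw [neg_sub_neg, abs_sub_comm]
        exact k3)
    have hinj : (((quad α Δ M M' N N').filter (fun z =>
          (Nat.gcd z.1.1 z.1.2, Nat.gcd z.2.1 z.2.2) = (d, e))).card : ℝ) ≤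
        (((red (2 * M / d) (2 * M' / d)) ×ˢ (red (2 * N / e) (2 * N' / e))).filter (fun z =>
          |α * (Real.log z.1.1 - Real.log z.1.2) - -(Real.log z.2.1 - Real.log z.2.2)| ≤
            Δ)).card := by
      have hle : ((quad α Δ M M' N N').filter (fun z =>
          (Nat.gcd z.1.1 z.1.2, Nat.gcd z.2.1 z.2.2) = (d, e))).card ≤
        (((red (2 * M / d) (2 * M' / d)) ×ˢ (red (2 * N / e) (2 * N' / e))).filter (fun z =>
          |α * (Real.log z.1.1 - Real.log z.1.2) - -(Real.log z.2.1 - Real.log z.2.2)| ≤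
            Δ)).card := by
        refine Finset.card_le_card_of_injOn
          (fun z => ((z.1.1 / d, z.1.2 / d), (z.2.1 / e, z.2.2 / e))) ?_ ?_
        · intro z hz
          simp only [Finset.coe_filter, Set.mem_ofPred_eq] at hz
          obtain ⟨hz1, hz2⟩ := hz
          unfold quad at hz1
          simp only [Finset.mem_filter, Finset.mem_product, Finset.mem_Ico] at hz1
          obtain ⟨⟨⟨⟨z1, z2⟩, z3, z4⟩, ⟨z5, z6⟩, z7, z8⟩, z9⟩ := hz1
          rw [Prod.mk.injEq] at hz2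
          obtain ⟨g1, g2⟩ := hz2
          have v1 : d ∣ z.1.1 := g1 ▸ Nat.gcd_dvd_left _ _
          have v2 : d ∣ z.1.2 := g1 ▸ Nat.gcd_dvd_right _ _
          have v3 : e ∣ z.2.1 := g2 ▸ Nat.gcd_dvd_left _ _
          have v4 : e ∣ z.2.2 := g2 ▸ Nat.gcd_dvd_right _ _
          have logd : ∀ k u : ℕ, 0 < k → 0 < u → k ∣ u →
              Real.log ((u / k : ℕ) : ℝ) = Real.log u - Real.log k := by
            intro k u hk hu hku
            rw [Nat.cast_div hku (by exact_mod_cast hk.ne'), Real.log_div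
              (by exact_mod_cast hu.ne') (by exact_mod_cast hk.ne')]
          simp only [Finset.coe_filter, Set.mem_ofPred_eq, Finset.mem_product]
          refine ⟨⟨?_, ?_⟩, ?_⟩
          · unfold red
            rw [Finset.mem_filter, Finset.mem_product, Finset.mem_Icc, Finset.mem_Icc]
            refine ⟨⟨⟨Nat.div_pos (Nat.le_of_dvd z1 v1) d1, Nat.div_le_div_right z2.le⟩,
              Nat.div_pos (Nat.le_of_dvd z3 v2) d1, Nat.div_le_div_right z4.le⟩, ?_⟩
            have := Nat.coprime_div_gcd_div_gcd (m := z.1.1) (n := z.1.2) (by rw [g1]; exact d1)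
            rwa [g1] at this
          · unfold red
            rw [Finset.mem_filter, Finset.mem_product, Finset.mem_Icc, Finset.mem_Icc]
            refine ⟨⟨⟨Nat.div_pos (Nat.le_of_dvd z5 v3) e1, Nat.div_le_div_right z6.le⟩,
              Nat.div_pos (Nat.le_of_dvd z7 v4) e1, Nat.div_le_div_right z8.le⟩, ?_⟩
            have := Nat.coprime_div_gcd_div_gcd (m := z.2.1) (n := z.2.2) (by rw [g2]; exact e1)
            rwa [g2] at this
          · rw [logd d z.1.1 d1 z1 v1, logd d z.1.2 d1 z3 v2, logd e z.2.1 e1 z5 v3,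
              logd e z.2.2 e1 z7 v4]
            refine le_trans (le_of_eq ?_) z9
            congr 1
            ring
        · intro z hz w hw hzw
          simp only [Finset.coe_filter, Set.mem_ofPred_eq, Prod.mk.injEq] at hz hw
          obtain ⟨-, g1, g2⟩ := hz
          obtain ⟨-, g3, g4⟩ := hw
          simp only [Prod.mk.injEq] at hzw
          obtain ⟨⟨k1, k2⟩, k3, k4⟩ := hzw
          have v1 : d ∣ z.1.1 := g1 ▸ Nat.gcd_dvd_left _ _
          have v2 : d ∣ z.1.2 := g1 ▸ Nat.gcd_dvd_right _ _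
          have v3 : e ∣ z.2.1 := g2 ▸ Nat.gcd_dvd_left _ _
          have v4 : e ∣ z.2.2 := g2 ▸ Nat.gcd_dvd_right _ _
          have w1 : d ∣ w.1.1 := g3 ▸ Nat.gcd_dvd_left _ _
          have w2 : d ∣ w.1.2 := g3 ▸ Nat.gcd_dvd_right _ _
          have w3 : e ∣ w.2.1 := g4 ▸ Nat.gcd_dvd_left _ _
          have w4 : e ∣ w.2.2 := g4 ▸ Nat.gcd_dvd_right _ _
          have m1 := Nat.div_mul_cancel v1
          have m2 := Nat.div_mul_cancel v2
          have m3 := Nat.div_mul_cancel v3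
          have m4 := Nat.div_mul_cancel v4
          rw [k1, Nat.div_mul_cancel w1] at m1
          rw [k2, Nat.div_mul_cancel w2] at m2
          rw [k3, Nat.div_mul_cancel w3] at m3
          rw [k4, Nat.div_mul_cancel w4] at m4
          exact Prod.ext (Prod.ext m1.symm m2.symm) (Prod.ext m3.symm m4.symm)
      exact_mod_cast hle
    refine hinj.trans (hpairs.trans (le_of_eq ?_))
    have hab : a * b = 16 * P / ((d : ℝ) * e) ^ 2 := by
      rw [ha, hb, hP]
      field_simp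
      ring
    have hsq : Real.sqrt (a * b) = 4 * Real.sqrt P / (d * e) := by
      rw [hab, Real.sqrt_div (by positivity), Real.sqrt_sq (by positivity),
        Real.sqrt_mul (by norm_num), show (16 : ℝ) = 4 ^ 2 by norm_num,
        Real.sqrt_sq (by norm_num)]
    rw [hsq, hab]
    field_simp
    ring
  rw [hfib]
  refine (Finset.sum_le_sum hone).trans ?_
  rw [Finset.sum_add_distrib, ← Finset.mul_sum, ← Finset.mul_sum, Finset.sum_product,
    Finset.sum_product]
  simp only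
  simp_rw [← Finset.mul_sum]
  rw [← Finset.sum_mul, ← Finset.sum_mul]
  have s1 := sum_inv_sq_le (2 * M)
  have s2 := sum_inv_sq_le (2 * N)
  have s3 := sum_inv_le (2 * M)
  have s4 := sum_inv_le (2 * N)
  push_cast at s3 s4
  have p1 : 0 ≤ ∑ d ∈ Finset.Icc 1 (2 * M), 1 / (d : ℝ) ^ 2 :=
    Finset.sum_nonneg fun d _ => by positivity
  have p2 : 0 ≤ ∑ d ∈ Finset.Icc 1 (2 * N), 1 / (d : ℝ) ^ 2 :=
    Finset.sum_nonneg fun d _ => by positivity
  have p3 : 0 ≤ ∑ d ∈ Finset.Icc 1 (2 * M), 1 / (d : ℝ) :=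
    Finset.sum_nonneg fun d _ => by positivity
  have p4 : 0 ≤ ∑ d ∈ Finset.Icc 1 (2 * N), 1 / (d : ℝ) :=
    Finset.sum_nonneg fun d _ => by positivity
  have f1 : (∑ d ∈ Finset.Icc 1 (2 * M), 1 / (d : ℝ) ^ 2) *
      ∑ d ∈ Finset.Icc 1 (2 * N), 1 / (d : ℝ) ^ 2 ≤ 2 * 2 := by gcongr
  have f2 : (∑ d ∈ Finset.Icc 1 (2 * M), 1 / (d : ℝ)) *
      ∑ d ∈ Finset.Icc 1 (2 * N), 1 / (d : ℝ) ≤
      (1 + Real.log (2 * M)) * (1 + Real.log (2 * N)) := by
    apply mul_le_mul s3 s4 p4 (p3.trans s3)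
  calc 32 * Δ * P * ((∑ d ∈ Finset.Icc 1 (2 * M), 1 / (d : ℝ) ^ 2) *
        ∑ d ∈ Finset.Icc 1 (2 * N), 1 / (d : ℝ) ^ 2) +
      4 * Real.sqrt P * ((∑ d ∈ Finset.Icc 1 (2 * M), 1 / (d : ℝ)) *
        ∑ d ∈ Finset.Icc 1 (2 * N), 1 / (d : ℝ)) ≤
      32 * Δ * P * (2 * 2) +
        4 * Real.sqrt P * ((1 + Real.log (2 * M)) * (1 + Real.log (2 * N))) := by gcongr
    _ = _ := by ring

end Pool.Agent.T9h53.SZ
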