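import Mathlib

/-! # Division of analytic functions -/

set_option autoImplicit false

open Complex Filter Topology Set

namespace Pool.Agent.T9h53.SZ

lemma local_quot {f h : ℂ → ℂ} {z₀ : ℂ} (hf : AnalyticAt ℂ f z₀) (hh : AnalyticAt ℂ h z₀)
    (hnt : analyticOrderAt h z₀ ≠ ⊤) (hord : analyticOrderAt h z₀ ≤ analyticOrderAt f z₀) :
    ∃ φ : ℂ → ℂ, AnalyticAt ℂ φ z₀ ∧ (∀ᶠ z in 𝓝 z₀, f z = φ z * h z) ∧
      (∀ᶠ z in 𝓝 z₀, z ≠ z₀ → h z ≠ 0) := by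
  obtain ⟨h1, hh1, hh10, hh1e⟩ := (hh.analyticOrderAt_ne_top).mp hnt
  set n := analyticOrderNatAt h z₀ with hn
  have hn2 : (n : ℕ∞) ≤ analyticOrderAt f z₀ := by
    rw [hn, Nat.cast_analyticOrderNatAt hnt]
    exact hord
  obtain ⟨f1, hf1, hf1e⟩ := (natCast_le_analyticOrderAt hf).mp hn2
  have hne : ∀ᶠ z in 𝓝 z₀, h1 z ≠ 0 := hh1.continuousAt.eventually_ne hh10
  refine ⟨fun z => f1 z / h1 z, hf1.div hh1 hh10, ?_, ?_⟩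
  · filter_upwards [hh1e, hf1e, hne] with z e1 e2 e3
    rw [e1, e2]
    simp only [smul_eq_mul]
    field_simp
  · filter_upwards [hh1e, hne] with z e1 e3 hz
    rw [e1, smul_eq_mul]
    exact mul_ne_zero (pow_ne_zero _ (sub_ne_zero.mpr hz)) e3

theorem exists_quot {f h : ℂ → ℂ} {U : Set ℂ} (hU : IsOpen U) (hf : AnalyticOnNhd ℂ f U)
    (hh : AnalyticOnNhd ℂ h U) (hnt : ∀ z ∈ U, analyticOrderAt h z ≠ ⊤)
    (hord : ∀ z ∈ U, analyticOrderAt h z ≤ analyticOrderAt f z) :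
    ∃ g : ℂ → ℂ, AnalyticOnNhd ℂ g U ∧ ∀ z ∈ U, f z = g z * h z := by
  classical
  have hloc : ∀ z₀ : ℂ, ∃ φ : ℂ → ℂ, z₀ ∈ U → AnalyticAt ℂ φ z₀ ∧
      (∀ᶠ z in 𝓝 z₀, f z = φ z * h z) ∧ (∀ᶠ z in 𝓝 z₀, z ≠ z₀ → h z ≠ 0) := by
    intro z₀
    by_cases hz : z₀ ∈ U
    · obtain ⟨φ, h1, h2, h3⟩ := local_quot (hf z₀ hz) (hh z₀ hz) (hnt z₀ hz) (hord z₀ hz)
      exact ⟨φ, fun _ => ⟨h1, h2, h3⟩⟩
    · exact ⟨0, fun h => absurd h hz⟩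
  choose φ hφ using hloc
  refine ⟨fun z => φ z z, ?_, fun z hz => ((hφ z hz).2.1).self_of_nhds⟩
  intro z₀ hz₀
  obtain ⟨h1, h2, h3⟩ := hφ z₀ hz₀
  refine h1.congr ?_
  filter_upwards [h2, h3, hU.mem_nhds hz₀] with z e2 e3 hz
  by_cases hzz : z = z₀
  · rw [hzz]
  · have e4 := ((hφ z hz).2.1).self_of_nhds
    have e5 := e3 hzz
    rw [e2] at e4
    exact mul_right_cancel₀ e5 e4

end Pool.Agent.T9h53.SZ
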