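import Pool.Agent.T9h53.SZ.Sum

/-! # A mean value theorem for generalised Dirichlet polynomials -/

set_option autoImplicit false

open Complex Filter Topology Set MeasureTheory

namespace Pool.Agent.T9h53.SZ

lemma gauss_int (θ a : ℝ) {B : ℝ} (hB : 0 < B) :
    ∫ u : ℝ, cexp ((θ : ℂ) * ⟨0, u⟩) * ((Real.exp (-((u - a) / B) ^ 2) : ℝ) : ℂ) =
      ((Real.sqrt Real.pi * B : ℝ) : ℂ) * cexp ((θ : ℂ) * ⟨0, a⟩) *
        ((Real.exp (-(B ^ 2 * θ ^ 2 / 4)) : ℝ) : ℂ) := by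
  have h0 := integral_sub_right_eq_self
    (fun x : ℝ => cexp ((θ : ℂ) * ⟨0, x + a⟩) * ((Real.exp (-(x / B) ^ 2) : ℝ) : ℂ)) a
    (μ := (volume : Measure ℝ))
  simp only [sub_add_cancel] at h0
  rw [h0]
  have hb : 0 < ((1 / B ^ 2 : ℝ) : ℂ).re := by
    rw [ofReal_re]
    positivity
  have h1 := fourierIntegral_gaussian hb (θ : ℂ)
  have h2 : ∀ x : ℝ, cexp ((θ : ℂ) * ⟨0, x + a⟩) * ((Real.exp (-(x / B) ^ 2) : ℝ) : ℂ) =
      cexp ((θ : ℂ) * ⟨0, a⟩) *
        (cexp (I * θ * x) * cexp (-((1 / B ^ 2 : ℝ) : ℂ) * x ^ 2)) := by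
    intro x
    rw [Complex.ofReal_exp, ← Complex.exp_add, ← Complex.exp_add, ← Complex.exp_add]
    congr 1
    simp only [mk_eq]
    push_cast
    field_simp
    ring
  simp_rw [h2]
  rw [integral_const_mul, h1]
  have h3 : ((Real.pi : ℂ) / ((1 / B ^ 2 : ℝ) : ℂ)) ^ (1 / 2 : ℂ) =
      ((Real.sqrt Real.pi * B : ℝ) : ℂ) := by
    have e1 : (Real.pi : ℂ) / ((1 / B ^ 2 : ℝ) : ℂ) = ((Real.pi * B ^ 2 : ℝ) : ℂ) := by
      push_cast
      field_simp
    rw [e1, show (1 / 2 : ℂ) = ((1 / 2 : ℝ) : ℂ) by push_cast; ring, ← Complex.ofReal_cpow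
      (by positivity), ← Real.sqrt_eq_rpow, Real.sqrt_mul Real.pi_pos.le, Real.sqrt_sq hB.le]
  have h4 : -(θ : ℂ) ^ 2 / (4 * ((1 / B ^ 2 : ℝ) : ℂ)) = ((-(B ^ 2 * θ ^ 2 / 4) : ℝ) : ℂ) := by
    push_cast
    field_simp
  rw [h3, h4, Complex.ofReal_exp]
  ring

lemma gauss_integrable (θ a : ℝ) {B : ℝ} (hB : 0 < B) :
    Integrable fun u : ℝ => cexp ((θ : ℂ) * ⟨0, u⟩) * ((Real.exp (-((u - a) / B) ^ 2) : ℝ) : ℂ) := by
  have h1 : Integrable fun u : ℝ => Real.exp (-(1 / B ^ 2) * u ^ 2) :=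
    integrable_exp_neg_mul_sq (by positivity)
  have h2 := h1.comp_sub_right a
  have h3 : Integrable fun u : ℝ => ((Real.exp (-((u - a) / B) ^ 2) : ℝ) : ℂ) := by
    refine (h2.congr ?_).ofReal
    refine Filter.Eventually.of_forall fun u => ?_
    simp only
    congr 1
    field_simp
  refine h3.bdd_mul (c := 1) ?_ ?_
  · apply Continuous.aestronglyMeasurable
    simp only [mk_eq]
    fun_prop
  · refine Filter.Eventually.of_forall fun u => ?_
    rw [exp_norm, zero_mul, Real.exp_zero]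

/-- **mean value theorem** -/
theorem mean_value {ι : Type} [DecidableEq ι] (S : Finset ι) (b : ι → ℂ) (ν : ι → ℝ) (a : ℝ)
    {B : ℝ} (hB : 0 < B) :
    ∫ u in a..(a + B), ‖∑ p ∈ S, b p * cexp ((ν p : ℂ) * ⟨0, u⟩)‖ ^ 2 ≤
      5 * B * ∑ z ∈ S ×ˢ S, ‖b z.1‖ * ‖b z.2‖ *
        Real.exp (-(B ^ 2 * (ν z.1 - ν z.2) ^ 2 / 4)) := by
  set h : ℝ → ℝ := fun u => ‖∑ p ∈ S, b p * cexp ((ν p : ℂ) * ⟨0, u⟩)‖ ^ 2 with hh
  have hcont : Continuous h := by
    rw [hh]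
    simp only [mk_eq]
    fun_prop
  -- expansion
  have hexp : ∀ u : ℝ, ((h u * Real.exp (-((u - a) / B) ^ 2) : ℝ) : ℂ) =
      ∑ z ∈ S ×ˢ S, b z.1 * (starRingEnd ℂ) (b z.2) *
        (cexp (((ν z.1 - ν z.2 : ℝ) : ℂ) * ⟨0, u⟩) *
          ((Real.exp (-((u - a) / B) ^ 2) : ℝ) : ℂ)) := by
    intro u
    rw [Complex.ofReal_mul, hh]
    simp only
    rw [Complex.ofReal_pow, ← Complex.mul_conj', map_sum, Finset.sum_mul_sum, ← Finset.sum_product',
      Finset.sum_mul]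
    refine Finset.sum_congr rfl fun z _ => ?_
    rw [map_mul, ← Complex.exp_conj, map_mul, conj_ofReal]
    have e1 : (starRingEnd ℂ) (⟨0, u⟩ : ℂ) = -⟨0, u⟩ := by
      apply Complex.ext <;> simp
    rw [e1]
    have e2 : cexp (((ν z.1 - ν z.2 : ℝ) : ℂ) * ⟨0, u⟩) =
        cexp ((ν z.1 : ℂ) * ⟨0, u⟩) * cexp ((ν z.2 : ℂ) * -⟨0, u⟩) := by
      rw [← Complex.exp_add]
      congr 1
      push_cast
      ring
    rw [e2]
    ring
  have hint : Integrable fun u : ℝ => ((h u * Real.exp (-((u - a) / B) ^ 2) : ℝ) : ℂ) := by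
    simp_rw [hexp]
    exact integrable_finsetSum _ fun z _ => (gauss_integrable _ _ hB).const_mul _
  have hintR : Integrable fun u : ℝ => h u * Real.exp (-((u - a) / B) ^ 2) := by
    refine hint.re.congr (Filter.Eventually.of_forall fun u => ?_)
    exact Complex.ofReal_re _
  have hval : ∫ u : ℝ, h u * Real.exp (-((u - a) / B) ^ 2) ≤
      Real.sqrt Real.pi * B * ∑ z ∈ S ×ˢ S, ‖b z.1‖ * ‖b z.2‖ *
        Real.exp (-(B ^ 2 * (ν z.1 - ν z.2) ^ 2 / 4)) := by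
    have e1 : ((∫ u : ℝ, h u * Real.exp (-((u - a) / B) ^ 2) : ℝ) : ℂ) =
        ∑ z ∈ S ×ˢ S, b z.1 * (starRingEnd ℂ) (b z.2) *
          (((Real.sqrt Real.pi * B : ℝ) : ℂ) * cexp (((ν z.1 - ν z.2 : ℝ) : ℂ) * ⟨0, a⟩) *
            ((Real.exp (-(B ^ 2 * (ν z.1 - ν z.2) ^ 2 / 4)) : ℝ) : ℂ)) := by
      rw [← integral_complex_ofReal]
      simp_rw [hexp]
      rw [integral_finsetSum _ fun z _ => (gauss_integrable _ _ hB).const_mul _]
      refine Finset.sum_congr rfl fun z _ => ?_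
      rw [integral_const_mul, gauss_int _ _ hB]
    have e2 : ∫ u : ℝ, h u * Real.exp (-((u - a) / B) ^ 2) ≤
        ‖((∫ u : ℝ, h u * Real.exp (-((u - a) / B) ^ 2) : ℝ) : ℂ)‖ := by
      rw [Complex.norm_real, Real.norm_eq_abs]
      exact le_abs_self _
    refine e2.trans ?_
    rw [e1]
    refine (norm_sum_le _ _).trans ?_
    rw [Finset.mul_sum]
    refine Finset.sum_le_sum fun z _ => le_of_eq ?_
    rw [norm_mul, norm_mul, norm_mul, norm_mul, Complex.norm_conj, exp_norm, zero_mul,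
      Real.exp_zero, Complex.norm_real, Complex.norm_real, Real.norm_of_nonneg (by positivity),
      Real.norm_of_nonneg (Real.exp_pos _).le]
    ring
  have hle : ∫ u in a..(a + B), h u ≤
      ∫ u in a..(a + B), Real.exp 1 * (h u * Real.exp (-((u - a) / B) ^ 2)) := by
    apply intervalIntegral.integral_mono_on (by linarith) (hcont.intervalIntegrable _ _)
    · apply Continuous.intervalIntegrable
      fun_prop
    · intro u hu
      have hu0 : 0 ≤ h u := by rw [hh]; positivity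
      have e1 : ((u - a) / B) ^ 2 ≤ 1 := by
        have f1 : 0 ≤ (u - a) / B := div_nonneg (by linarith [hu.1]) hB.le
        have f2 : (u - a) / B ≤ 1 := by
          rw [div_le_one hB]
          linarith [hu.2]
        nlinarith
      have e2 : 1 ≤ Real.exp 1 * Real.exp (-((u - a) / B) ^ 2) := by
        rw [← Real.exp_add]
        apply Real.one_le_exp
        linarith
      calc h u = h u * 1 := (mul_one _).symm
        _ ≤ h u * (Real.exp 1 * Real.exp (-((u - a) / B) ^ 2)) := by gcongr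
        _ = _ := by ring
  have hfull : ∫ u in a..(a + B), Real.exp 1 * (h u * Real.exp (-((u - a) / B) ^ 2)) ≤
      Real.exp 1 * ∫ u : ℝ, h u * Real.exp (-((u - a) / B) ^ 2) := by
    rw [intervalIntegral.integral_const_mul]
    apply mul_le_mul_of_nonneg_left _ (Real.exp_pos _).le
    rw [intervalIntegral.integral_of_le (by linarith)]
    apply setIntegral_le_integral hintR
    refine Filter.Eventually.of_forall fun u => ?_
    simp only [Pi.zero_apply]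
    rw [hh]
    positivity
  have hpi : Real.exp 1 * Real.sqrt Real.pi ≤ 5 := by
    have f1 : Real.exp 1 ≤ 2.72 := by
      have := Real.exp_one_lt_d9
      linarith
    have f2 : Real.sqrt Real.pi ≤ 1.78 := by
      rw [Real.sqrt_le_left (by norm_num)]
      have := Real.pi_lt_d2
      linarith
    calc Real.exp 1 * Real.sqrt Real.pi ≤ 2.72 * 1.78 := by gcongr
      _ ≤ 5 := by norm_num
  have hZ0 : 0 ≤ ∑ z ∈ S ×ˢ S, ‖b z.1‖ * ‖b z.2‖ *
      Real.exp (-(B ^ 2 * (ν z.1 - ν z.2) ^ 2 / 4)) :=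
    Finset.sum_nonneg fun z _ => by positivity
  calc ∫ u in a..(a + B), h u ≤ Real.exp 1 * ∫ u : ℝ, h u * Real.exp (-((u - a) / B) ^ 2) :=
        hle.trans hfull
    _ ≤ Real.exp 1 * (Real.sqrt Real.pi * B * ∑ z ∈ S ×ˢ S, ‖b z.1‖ * ‖b z.2‖ *
        Real.exp (-(B ^ 2 * (ν z.1 - ν z.2) ^ 2 / 4))) := by gcongr
    _ = (Real.exp 1 * Real.sqrt Real.pi) * (B * ∑ z ∈ S ×ˢ S, ‖b z.1‖ * ‖b z.2‖ *
        Real.exp (-(B ^ 2 * (ν z.1 - ν z.2) ^ 2 / 4))) := by ring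
    _ ≤ 5 * (B * ∑ z ∈ S ×ˢ S, ‖b z.1‖ * ‖b z.2‖ *
        Real.exp (-(B ^ 2 * (ν z.1 - ν z.2) ^ 2 / 4))) := by gcongr
    _ = _ := by ring

end Pool.Agent.T9h53.SZ
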