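import Pool.Agent.T9h53.SZ.Core3
import Pool.Agent.T9h53.SZ.MV

/-! # One block of heights -/

set_option autoImplicit false

open Complex Filter Topology Set MeasureTheory

namespace Pool.Agent.T9h53.SZ

lemma gauss_le_two {H Y : ℝ} (hH : 0 < H) (hY : 0 ≤ Y) :
    ∫ v in (-Y)..Y, Real.exp (-(v ^ 2 / H ^ 2)) ≤ 2 * H := by
  have h1 : Integrable fun u : ℝ => Real.exp (-(1 / H ^ 2) * u ^ 2) :=
    integrable_exp_neg_mul_sq (by positivity)
  have h2 : (fun v : ℝ => Real.exp (-(v ^ 2 / H ^ 2))) =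
      fun u : ℝ => Real.exp (-(1 / H ^ 2) * u ^ 2) := by
    funext v
    congr 1
    ring
  rw [h2, intervalIntegral.integral_of_le (by linarith)]
  refine (setIntegral_le_integral h1 (Filter.Eventually.of_forall fun u =>
    (Real.exp_pos _).le)).trans ?_
  rw [integral_gaussian, show Real.pi / (1 / H ^ 2) = Real.pi * H ^ 2 by field_simp,
    Real.sqrt_mul Real.pi_pos.le, Real.sqrt_sq hH.le]
  have f2 : Real.sqrt Real.pi ≤ 2 := by
    rw [Real.sqrt_le_left (by norm_num)]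
    have := Real.pi_lt_d2
    linarith
  exact mul_le_mul_of_nonneg_right f2 hH.le

variable {N₁ N₂ : ℕ} (χ₁ : DirichletCharacter ℂ N₁) (χ₂ : DirichletCharacter ℂ N₂) (α δ : ℝ)

/-- the pair sum of a set of frequencies -/
noncomputable def ZZ (B : ℝ) (S : Finset (ℕ × ℕ)) : ℝ :=
  ∑ z ∈ S ×ˢ S, ‖cc χ₁ χ₂ δ z.1‖ * ‖cc χ₁ χ₂ δ z.2‖ *
    Real.exp (-(B ^ 2 * (nu α z.1 - nu α z.2) ^ 2 / 4))

lemma ZZ_nonneg (B : ℝ) (S : Finset (ℕ × ℕ)) : 0 ≤ ZZ χ₁ χ₂ α δ B S :=
  Finset.sum_nonneg fun z _ => by positivity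

lemma PP_mv (q : ℕ) (S : Finset (ℕ × ℕ)) (a v : ℝ) {B : ℝ} (hB : 0 < B) :
    ∫ t in a..(a + B), ‖PP χ₁ χ₂ α δ q S (t + v)‖ ^ 2 ≤ 5 * B * ZZ χ₁ χ₂ α δ B S := by
  have h1 : ∫ t in a..(a + B), ‖PP χ₁ χ₂ α δ q S (t + v)‖ ^ 2 =
      ∫ u in (a + v)..(a + v + B), ‖PP χ₁ χ₂ α δ q S u‖ ^ 2 := by
    rw [intervalIntegral.integral_comp_add_right (fun u => ‖PP χ₁ χ₂ α δ q S u‖ ^ 2)]
    congr 1
    ring
  rw [h1]
  unfold PP
  refine (mean_value S (fun p => (starRingEnd ℂ) (cc χ₁ χ₂ δ p))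
    (fun p => nu α p + α * Real.log q) (a + v) hB).trans (le_of_eq ?_)
  unfold ZZ
  congr 1
  refine Finset.sum_congr rfl fun z _ => ?_
  rw [Complex.norm_conj, Complex.norm_conj, add_sub_add_right_eq_sub]

theorem block {C H Y B a : ℝ} {q : ℕ} (hC : 0 < C) (hH : 0 < H) (hY : 0 ≤ Y) (hq : 1 ≤ q)
    (hB : 0 < B) (S : Finset (ℕ × ℕ)) (G : Set ℝ) (hG : G ⊆ Ioc a (a + B))
    (hcore : ∀ t ∈ G, (q : ℝ) ^ (-(1 / 2) : ℝ) * H / 2 ≤
      C * ∫ v in (-Y)..Y, ‖PP χ₁ χ₂ α δ q S (t + v)‖ * Real.exp (-(v ^ 2 / H ^ 2))) :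
    volume.real G ≤ 80 * C ^ 2 * q * B * ZZ χ₁ χ₂ α δ B S := by
  have hPc := PP_cont χ₁ χ₂ α δ q S
  have hq0 : (0 : ℝ) < q := by exact_mod_cast hq
  set r : ℝ := (q : ℝ) ^ (-(1 / 2) : ℝ) with hr
  have hr0 : 0 < r := Real.rpow_pos_of_pos hq0 _
  have hr2 : r ^ 2 * q = 1 := by
    rw [hr, ← Real.rpow_natCast, ← Real.rpow_mul hq0.le]
    norm_num
    rw [Real.rpow_neg_one]
    field_simp
  set f : ℝ → ℝ := fun t => ∫ v in (-Y)..Y, ‖PP χ₁ χ₂ α δ q S (t + v)‖ ^ 2 *
    Real.exp (-(v ^ 2 / H ^ 2)) with hf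
  have hfc : Continuous f := by
    rw [hf]
    apply intervalIntegral.continuous_parametric_intervalIntegral_of_continuous'
    rw [Function.uncurry_def]
    fun_prop
  -- lower bound for f on G
  have hlow : ∀ t ∈ G, H / (8 * C ^ 2 * q) ≤ f t := by
    intro t ht
    have h1 := hcore t ht
    set lam : ℝ := r / (4 * C) with hlam
    have hlam0 : 0 < lam := by positivity
    have h2 : ∫ v in (-Y)..Y, ‖PP χ₁ χ₂ α δ q S (t + v)‖ * Real.exp (-(v ^ 2 / H ^ 2)) ≤
        ∫ v in (-Y)..Y, (lam / 2 * Real.exp (-(v ^ 2 / H ^ 2)) +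
          1 / (2 * lam) * (‖PP χ₁ χ₂ α δ q S (t + v)‖ ^ 2 * Real.exp (-(v ^ 2 / H ^ 2)))) := by
      apply intervalIntegral.integral_mono_on (by linarith)
      · apply Continuous.intervalIntegrable
        fun_prop
      · apply Continuous.intervalIntegrable
        fun_prop
      · intro v _
        have h3 : ‖PP χ₁ χ₂ α δ q S (t + v)‖ ≤ lam / 2 +
            1 / (2 * lam) * ‖PP χ₁ χ₂ α δ q S (t + v)‖ ^ 2 := by
          have h4 := sq_nonneg (‖PP χ₁ χ₂ α δ q S (t + v)‖ - lam)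
          rw [div_mul_eq_mul_div, one_mul, div_add_div _ _ (by norm_num) (by positivity),
            le_div_iff₀ (by positivity)]
          nlinarith
        have h5 := mul_le_mul_of_nonneg_right h3 (Real.exp_pos (-(v ^ 2 / H ^ 2))).le
        calc _ ≤ _ := h5
          _ = _ := by ring
    rw [intervalIntegral.integral_add, intervalIntegral.integral_const_mul,
      intervalIntegral.integral_const_mul] at h2
    · have h6 := gauss_le_two hH hY
      have h7 : ∫ v in (-Y)..Y, ‖PP χ₁ χ₂ α δ q S (t + v)‖ * Real.exp (-(v ^ 2 / H ^ 2)) ≤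
          lam / 2 * (2 * H) + 1 / (2 * lam) * f t := by
        refine h2.trans ?_
        gcongr
      have h8 : r * H / 2 ≤ C * (lam / 2 * (2 * H) + 1 / (2 * lam) * f t) :=
        h1.trans (mul_le_mul_of_nonneg_left h7 hC.le)
      have h9 : C * (lam / 2 * (2 * H) + 1 / (2 * lam) * f t) = r * H / 4 +
          2 * C ^ 2 / r * f t := by
        rw [hlam]
        field_simp
        ring
      rw [h9] at h8
      have h10 : r * H / 4 ≤ 2 * C ^ 2 / r * f t := by linarith
      rw [div_mul_eq_mul_div, le_div_iff₀ hr0] at h10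
      rw [div_le_iff₀ (by positivity)]
      have h11 : H = (r ^ 2 * q) * H := by rw [hr2, one_mul]
      rw [h11]
      nlinarith
    · apply Continuous.intervalIntegrable
      fun_prop
    · apply Continuous.intervalIntegrable
      fun_prop
  -- upper bound for the integral
  have hup : ∫ t in a..(a + B), f t ≤ 10 * H * B * ZZ χ₁ χ₂ α δ B S := by
    rw [hf]
    rw [intervalIntegral_intervalIntegral_swap]
    · have h1 : ∀ v : ℝ, ∫ t in a..(a + B), ‖PP χ₁ χ₂ α δ q S (t + v)‖ ^ 2 *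
          Real.exp (-(v ^ 2 / H ^ 2)) ≤ 5 * B * ZZ χ₁ χ₂ α δ B S *
            Real.exp (-(v ^ 2 / H ^ 2)) := by
        intro v
        rw [intervalIntegral.integral_mul_const]
        exact mul_le_mul_of_nonneg_right (PP_mv χ₁ χ₂ α δ q S a v hB) (Real.exp_pos _).le
      have h2 : ∫ v in (-Y)..Y, ∫ t in a..(a + B), ‖PP χ₁ χ₂ α δ q S (t + v)‖ ^ 2 *
          Real.exp (-(v ^ 2 / H ^ 2)) ≤ ∫ v in (-Y)..Y, 5 * B * ZZ χ₁ χ₂ α δ B S *
            Real.exp (-(v ^ 2 / H ^ 2)) := by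
        apply intervalIntegral.integral_mono_on (by linarith)
        · apply Continuous.intervalIntegrable
          apply intervalIntegral.continuous_parametric_intervalIntegral_of_continuous'
          rw [Function.uncurry_def]
          fun_prop
        · apply Continuous.intervalIntegrable
          fun_prop
        · intro v _
          exact h1 v
      refine h2.trans ?_
      rw [intervalIntegral.integral_const_mul]
      have h3 := gauss_le_two hH hY
      have h4 := ZZ_nonneg χ₁ χ₂ α δ B S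
      calc 5 * B * ZZ χ₁ χ₂ α δ B S * ∫ v in (-Y)..Y, Real.exp (-(v ^ 2 / H ^ 2)) ≤
          5 * B * ZZ χ₁ χ₂ α δ B S * (2 * H) := by gcongr
        _ = _ := by ring
    · have hc : Continuous (Function.uncurry fun t v : ℝ => ‖PP χ₁ χ₂ α δ q S (t + v)‖ ^ 2 *
          Real.exp (-(v ^ 2 / H ^ 2))) := by
        rw [Function.uncurry_def]
        fun_prop
      have hK : IsCompact (Set.uIcc a (a + B) ×ˢ Set.uIcc (-Y) Y) :=
        isCompact_uIcc.prod isCompact_uIcc
      exact (hc.continuousOn.integrableOn_compact hK).mono_set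
        (Set.prod_mono uIoc_subset_uIcc uIoc_subset_uIcc)
  -- Markov
  have hf0 : ∀ t, 0 ≤ f t := by
    intro t
    rw [hf]
    apply intervalIntegral.integral_nonneg (by linarith)
    intro v _
    positivity
  set ε : ℝ := H / (8 * C ^ 2 * q) with hε
  have hε0 : 0 < ε := by positivity
  have hM := mul_meas_ge_le_integral_of_nonneg (μ := volume.restrict (Ioc a (a + B))) (f := f)
    (Filter.Eventually.of_forall hf0)
    ((hfc.intervalIntegrable a (a + B)).1) ε
  rw [← intervalIntegral.integral_of_le (by linarith)] at hM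
  have hsub : volume.real G ≤ (volume.restrict (Ioc a (a + B))).real {x | ε ≤ f x} := by
    have hms : MeasurableSet {x | ε ≤ f x} := measurableSet_le measurable_const hfc.measurable
    rw [measureReal_restrict_apply hms]
    apply measureReal_mono
    · intro t ht
      exact ⟨hlow t ht, hG ht⟩
    · exact ((measure_mono inter_subset_right).trans_lt measure_Ioc_lt_top).ne
  have h1 : ε * volume.real G ≤ 10 * H * B * ZZ χ₁ χ₂ α δ B S :=
    (mul_le_mul_of_nonneg_left hsub hε0.le).trans (hM.trans hup)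
  rw [hε, div_mul_eq_mul_div, div_le_iff₀ (by positivity)] at h1
  have h2 : H * volume.real G ≤ H * (80 * C ^ 2 * q * B * ZZ χ₁ χ₂ α δ B S) := by
    refine h1.trans (le_of_eq ?_)
    ring
  exact le_of_mul_le_mul_left h2 hH

end Pool.Agent.T9h53.SZ
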