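import Pool.Agent.T9h53.SZ.Params

/-! # Almost all windows contain an exceptional zero -/

set_option autoImplicit false

open Complex Filter Topology Set MeasureTheory

namespace Pool.Agent.T9h53.SZ

/-- the arithmetic of the pair sum -/
lemma zz_arith {X T ℓ B M L R : ℝ} (hℓ : 1 ≤ ℓ) (hB : 0 < B) (hX : 1 ≤ X)
    (hL0 : 0 ≤ L) (hL : L ≤ 3 * ℓ) (hl0 : 0 ≤ 1 + Real.log (2 * X))
    (hl : 1 + Real.log (2 * X) ≤ 3 * ℓ) (hR : R ≤ M ^ 4) (hM : M ^ 4 ≤ ℓ ^ 6) (_ : 0 < T) :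
    L ^ 4 * (128 * (4 * ℓ / B) * X + 4 * (1 + Real.log (2 * X)) ^ 2) + R ≤
      41472 * ℓ ^ 5 * X / B + 2917 * ℓ ^ 6 := by
  have hX0 : 0 < X := by linarith
  have h1 : L ^ 4 ≤ (3 * ℓ) ^ 4 := pow_le_pow_left₀ hL0 hL 4
  have h2 : (1 + Real.log (2 * X)) ^ 2 ≤ (3 * ℓ) ^ 2 := pow_le_pow_left₀ hl0 hl 2
  calc L ^ 4 * (128 * (4 * ℓ / B) * X + 4 * (1 + Real.log (2 * X)) ^ 2) + R ≤
      (3 * ℓ) ^ 4 * (128 * (4 * ℓ / B) * X + 4 * (3 * ℓ) ^ 2) + ℓ ^ 6 := by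
        have h3 : R ≤ ℓ ^ 6 := hR.trans hM
        gcongr
    _ = 41472 * ℓ ^ 5 * X / B + 2917 * ℓ ^ 6 := by
        field_simp
        ring

lemma meas_qB {q T ℓ H N : ℝ} {K : ℕ} (hℓ : 1 ≤ ℓ) (hT : 0 < T) (hH : H = ℓ ^ (2 * K + 3))
    (hq : q ≤ N * ℓ ^ K) : q * (2 * T * ℓ ^ 2 / H) ≤ 2 * N * T / ℓ ^ (K + 1) := by
  have hℓ0 : 0 < ℓ := by linarith
  have hH0 : 0 < H := by
    rw [hH]
    positivity
  have hpos : 0 ≤ (2 * T * ℓ ^ 2) * ℓ ^ (K + 1) := by positivity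
  rw [← mul_div_assoc, div_le_div_iff₀ hH0 (by positivity)]
  calc q * (2 * T * ℓ ^ 2) * ℓ ^ (K + 1) = q * ((2 * T * ℓ ^ 2) * ℓ ^ (K + 1)) := by ring
    _ ≤ (N * ℓ ^ K) * ((2 * T * ℓ ^ 2) * ℓ ^ (K + 1)) := mul_le_mul_of_nonneg_right hq hpos
    _ = 2 * N * T * H := by
        rw [hH]
        ring

lemma meas_final {K0 q B X M1 N T ℓ M4 Z : ℝ} {A : ℕ} (hℓ : 1 ≤ ℓ) (hK0 : 0 < K0)
    (hq : 0 < q) (hB : 0 < B) (hT : 0 < T)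
    (hqX : q * X ≤ M1 * T / ℓ ^ (A + 6)) (hqB : q * B ≤ 2 * N * T / ℓ ^ (A + 6 + 1))
    (hM4 : M4 = K0 * (41472 * M1 + 2917 * (2 * N))) (hM4ℓ : M4 ≤ ℓ)
    (hZ : Z ≤ 41472 * ℓ ^ 5 * X / B + 2917 * ℓ ^ 6) :
    K0 * q * B * Z ≤ T / ℓ ^ A := by
  have hℓ0 : 0 < ℓ := by linarith
  have e1 : K0 * q * B * Z ≤ K0 * q * B * (41472 * ℓ ^ 5 * X / B + 2917 * ℓ ^ 6) :=
    mul_le_mul_of_nonneg_left hZ (by positivity)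
  have e2 : K0 * q * B * (41472 * ℓ ^ 5 * X / B + 2917 * ℓ ^ 6) =
      K0 * (41472 * ℓ ^ 5 * (q * X) + 2917 * ℓ ^ 6 * (q * B)) := by
    field_simp
  have e3 : K0 * (41472 * ℓ ^ 5 * (q * X) + 2917 * ℓ ^ 6 * (q * B)) ≤
      K0 * (41472 * ℓ ^ 5 * (M1 * T / ℓ ^ (A + 6)) +
        2917 * ℓ ^ 6 * (2 * N * T / ℓ ^ (A + 6 + 1))) := by
    apply mul_le_mul_of_nonneg_left _ hK0.le
    apply add_le_add
    · exact mul_le_mul_of_nonneg_left hqX (by positivity)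
    · exact mul_le_mul_of_nonneg_left hqB (by positivity)
  have e4 : K0 * (41472 * ℓ ^ 5 * (M1 * T / ℓ ^ (A + 6)) +
        2917 * ℓ ^ 6 * (2 * N * T / ℓ ^ (A + 6 + 1))) = M4 * (T * ℓ ^ 5 / ℓ ^ (A + 6)) := by
    rw [hM4, pow_succ ℓ (A + 6)]
    have : ℓ ^ (A + 6) ≠ 0 := by positivity
    field_simp
  have e5 : M4 * (T * ℓ ^ 5 / ℓ ^ (A + 6)) ≤ ℓ * (T * ℓ ^ 5 / ℓ ^ (A + 6)) :=
    mul_le_mul_of_nonneg_right hM4ℓ (by positivity)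
  have e6 : ℓ * (T * ℓ ^ 5 / ℓ ^ (A + 6)) = T / ℓ ^ A := by
    rw [pow_add]
    have : ℓ ^ A ≠ 0 := by positivity
    field_simp
  linarith

lemma meas_win {ℓ H : ℝ} {K : ℕ} (hℓ : 6 ≤ ℓ) (hH : H = ℓ ^ (2 * K + 3)) :
    2 * H * ℓ + 3 ≤ ℓ ^ (2 * K + 5) := by
  have h1 : 1 ≤ H := by
    rw [hH]
    exact one_le_pow₀ (by linarith)
  have e1 : ℓ ^ (2 * K + 5) = H * ℓ * ℓ := by
    rw [hH]
    ring
  rw [e1]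
  have e2 : 1 ≤ H * ℓ := by nlinarith
  nlinarith

lemma meas_R {X B T ℓ M1 : ℝ} (hX : 0 ≤ X) (hB : 0 < B) (hT0 : 0 < T) (hℓ : 1 ≤ ℓ)
    (hℓT : ℓ = Real.log T) (hM1 : 1 ≤ M1) (hXT : X ≤ M1 * T) :
    X ^ 4 * Real.exp (-(B ^ 2 * (4 * ℓ / B) ^ 2 / 4)) ≤ M1 ^ 4 := by
  have e1 : B ^ 2 * (4 * ℓ / B) ^ 2 / 4 = 4 * ℓ ^ 2 := by
    have hB' : B ≠ 0 := hB.ne'
    calc B ^ 2 * (4 * ℓ / B) ^ 2 / 4 = (B / B) ^ 2 * (4 * ℓ ^ 2) := by ring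
      _ = 4 * ℓ ^ 2 := by rw [div_self hB', one_pow, one_mul]
  have e2 : T ^ 4 = Real.exp (4 * ℓ) := by
    rw [show (4 : ℝ) * ℓ = ℓ + ℓ + ℓ + ℓ by ring, Real.exp_add, Real.exp_add, Real.exp_add,
      hℓT, Real.exp_log hT0]
    ring
  rw [e1]
  calc X ^ 4 * Real.exp (-(4 * ℓ ^ 2)) ≤ (M1 * T) ^ 4 * Real.exp (-(4 * ℓ ^ 2)) := by gcongr
    _ = M1 ^ 4 * (T ^ 4 * Real.exp (-(4 * ℓ ^ 2))) := by ring
    _ = M1 ^ 4 * Real.exp (4 * ℓ + -(4 * ℓ ^ 2)) := by rw [e2, ← Real.exp_add]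
    _ ≤ M1 ^ 4 * 1 := by
        apply mul_le_mul_of_nonneg_left _ (by positivity)
        rw [Real.exp_le_one_iff]
        nlinarith
    _ = M1 ^ 4 := mul_one _

lemma meas_kappa {q ℓ H N : ℝ} {K : ℕ} (hq : 0 < q) (hℓ : 1 ≤ ℓ)
    (hH : H = ℓ ^ (2 * K + 3)) (hH2 : 2 ≤ H) (hq2 : q ≤ N * ℓ ^ K) (hNℓ : 8 * N ^ 2 ≤ ℓ) :
    ℓ ^ 2 ≤ (H - 1) * (1 / (2 * q ^ 2)) := by
  have hℓ0 : 0 < ℓ := by linarith
  rw [mul_one_div, le_div_iff₀ (by positivity)]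
  have e1 : q ^ 2 ≤ N ^ 2 * ℓ ^ (2 * K) := by
    calc q ^ 2 ≤ (N * ℓ ^ K) ^ 2 := by gcongr
      _ = _ := by ring
  have e2 : H = ℓ ^ 2 * ℓ ^ (2 * K) * ℓ := by
    rw [hH]
    ring
  have e3 : ℓ ^ 2 * (2 * q ^ 2) ≤ H / 4 := by
    calc ℓ ^ 2 * (2 * q ^ 2) ≤ ℓ ^ 2 * (2 * (N ^ 2 * ℓ ^ (2 * K))) := by gcongr
      _ = ℓ ^ 2 * ℓ ^ (2 * K) * (8 * N ^ 2) / 4 := by ring
      _ ≤ ℓ ^ 2 * ℓ ^ (2 * K) * ℓ / 4 := by gcongr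
      _ = H / 4 := by rw [e2]
  linarith

lemma meas_logX {X ℓ M1 : ℝ} (hX1 : 1 ≤ X) (hlogX : Real.log X ≤ Real.log M1 + ℓ)
    (hℓlM : 2 * Real.log M1 + 6 ≤ ℓ) :
    ((Nat.log 2 ⌊X⌋₊ + 1 : ℕ) : ℝ) ≤ 3 * ℓ ∧ 1 + Real.log (2 * X) ≤ 3 * ℓ ∧
      0 ≤ 1 + Real.log (2 * X) := by
  have hX0 : 0 < X := by linarith
  have hlX0 : 0 ≤ Real.log X := Real.log_nonneg hX1
  refine ⟨?_, ?_, ?_⟩
  · push_cast
    have e1 : (Nat.log 2 ⌊X⌋₊ : ℝ) ≤ Real.logb 2 ⌊X⌋₊ := Real.natLog_le_logb _ _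
    have e2 : Real.logb 2 ⌊X⌋₊ ≤ 2 * Real.log X := by
      unfold Real.logb
      have e3 : Real.log ((⌊X⌋₊ : ℕ) : ℝ) ≤ Real.log X := by
        apply Real.log_le_log
        · exact_mod_cast Nat.floor_pos.mpr hX1
        · exact Nat.floor_le hX0.le
      have e4 := log_two_half
      rw [div_le_iff₀ (by linarith)]
      nlinarith
    linarith
  · rw [Real.log_mul (by norm_num) hX0.ne']
    have := Real.log_two_lt_d9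
    linarith
  · have : 0 ≤ Real.log (2 * X) := Real.log_nonneg (by linarith)
    linarith

variable {N₁ N₂ : ℕ} [NeZero N₁] [NeZero N₂] (χ₁ : DirichletCharacter ℂ N₁)
  (χ₂ : DirichletCharacter ℂ N₂) (α δ : ℝ)

lemma badS_mono {T W W' : ℝ} (h : W ≤ W') :
    volume.real (BadS χ₁ χ₂ α δ T W') ≤ volume.real (BadS χ₁ χ₂ α δ T W) := by
  have hsub : BadS χ₁ χ₂ α δ T W' ⊆ BadS χ₁ χ₂ α δ T W := by
    rintro t ⟨g1, g2, g3⟩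
    exact ⟨g1, g2, fun ρ hρ => lt_of_le_of_lt h (g3 ρ hρ)⟩
  have hfin : volume (BadS χ₁ χ₂ α δ T W) ≠ ⊤ := by
    refine (lt_of_le_of_lt (measure_mono (t := Ioc T (2 * T)) ?_) measure_Ioc_lt_top).ne
    rintro t ⟨g1, g2, -⟩
    exact ⟨g1, g2⟩
  exact measureReal_mono hsub hfin

/-- one value of `T` -/
lemma meas_one {K0 T1 M T : ℝ} {q A : ℕ} (hα : 1 < α) (hK0 : 0 < K0) (hM : 0 < M)
    (hbad : ∀ (T H κ X : ℝ) (q : ℕ), T1 ≤ T → 2 ≤ H →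
      4 * H * (2 * H * Real.log T) ≤ T → 2 * H ^ 2 ≤ T → 6 * (Real.log T) ^ 2 ≤ H → 1 ≤ q →
      (q : ℝ) ≤ T →
      ‖χ₂ (q : ZMod N₂)‖ = 1 → 0 ≤ κ → (Real.log T) ^ 2 ≤ (H - 1) * κ → 1 ≤ X →
      EE N₁ N₂ α (2 * T) + 1 - α * Real.log q ≤ Real.log X →
      (∀ p : ℕ × ℕ, cc χ₁ χ₂ δ p ≠ 0 → p ≠ (q, 1) → κ ≤ |α * Real.log q - nu α p|) →
      volume.real (BadS χ₁ χ₂ α δ T (2 * H * Real.log T + 3)) ≤
        K0 * q * (2 * T * (Real.log T) ^ 2 / H) *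
          ZZ χ₁ χ₂ α δ (2 * T * (Real.log T) ^ 2 / H) (UU α X))
    (hTT1 : T1 ≤ T) (hTe : Real.exp 1 ≤ T)
    (hℓbig : K0 * (41472 * (M + 1) + 2917 * (2 * (1 + 2 * N₂))) + 8 * (1 + 2 * N₂) ^ 2 +
      2 * Real.log (M + 1) + (M + 1) ^ 4 + 6 ≤ Real.log T)
    (hc1 : 8 * Real.log T ^ (4 * (A + 6) + 7) ≤ T) (hc2 : 2 * Real.log T ^ (4 * (A + 6) + 6) ≤ T)
    (hc3 : (1 + 2 * N₂) * Real.log T ^ (2 * (A + 6)) ≤ T)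
    (hq1 : 1 ≤ q) (hq2 : (q : ℝ) ≤ (1 + 2 * N₂) * (Real.log T) ^ (A + 6))
    (hq3 : ‖χ₂ (q : ZMod N₂)‖ = 1)
    (hgap : ∀ p : ℕ × ℕ, cc χ₁ χ₂ δ p ≠ 0 → p ≠ (q, 1) →
        1 / (2 * (q : ℝ) ^ 2) ≤ |α * Real.log q - nu α p|)
    (hq4 : q * Real.exp (EE N₁ N₂ α (2 * T) + 1 - α * Real.log q) ≤
      M * T / (Real.log T) ^ (A + 6)) :
    volume.real (BadS χ₁ χ₂ α δ T ((Real.log T) ^ (2 * (A + 6) + 5))) ≤ T / (Real.log T) ^ A := by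
  have hN2 : (1 : ℝ) ≤ N₂ := by exact_mod_cast Nat.pos_of_ne_zero (NeZero.ne N₂)
  have hT0 : 0 < T := (Real.exp_pos 1).trans_le hTe
  have hM11 : 1 ≤ M + 1 := by linarith
  have hlM1 : 0 ≤ Real.log (M + 1) := Real.log_nonneg hM11
  have hM14 : 0 < (M + 1) ^ 4 := by positivity
  have hM40 : 0 < K0 * (41472 * (M + 1) + 2917 * (2 * (1 + 2 * (N₂ : ℝ)))) := by positivity
  have hN22 : 0 < 8 * (1 + 2 * (N₂ : ℝ)) ^ 2 := by positivity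
  have hℓ6 : 6 ≤ Real.log T := by linarith
  have hℓM4 : K0 * (41472 * (M + 1) + 2917 * (2 * (1 + 2 * (N₂ : ℝ)))) ≤ Real.log T := by linarith
  have hℓN : 8 * (1 + 2 * (N₂ : ℝ)) ^ 2 ≤ Real.log T := by linarith
  have hℓlM : 2 * Real.log (M + 1) + 6 ≤ Real.log T := by linarith
  have hℓM14 : (M + 1) ^ 4 ≤ Real.log T := by linarith
  have hℓ1 : 1 ≤ Real.log T := by linarith
  have hℓ0 : 0 < Real.log T := by linarith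
  clear hℓbig
  generalize hℓdef : Real.log T = ℓ at *
  have hpow : ∀ n : ℕ, 1 ≤ ℓ ^ n := fun n => one_le_pow₀ hℓ1
  have hpowm : ∀ m n : ℕ, m ≤ n → ℓ ^ m ≤ ℓ ^ n := fun m n h => pow_le_pow_right₀ hℓ1 h
  obtain ⟨K, hK⟩ : ∃ K : ℕ, K = A + 6 := ⟨_, rfl⟩
  obtain ⟨H, hH⟩ : ∃ H : ℝ, H = ℓ ^ (2 * K + 3) := ⟨_, rfl⟩
  rw [← hK] at hc1 hc2 hc3 hq2 hq4 ⊢
  have hH1 : 1 ≤ H := by
    rw [hH]
    exact hpow _
  have hHℓ3 : ℓ ^ 3 ≤ H := by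
    rw [hH]
    exact hpowm 3 (2 * K + 3) (by omega)
  have hℓ2 : 36 ≤ ℓ ^ 2 := by nlinarith
  have hℓ3 : 6 * ℓ ^ 2 ≤ ℓ ^ 3 := by nlinarith [sq_nonneg ℓ]
  have hH2 : 2 ≤ H := by linarith
  have hH0 : 0 < H := by linarith
  have hq0 : (0 : ℝ) < q := by exact_mod_cast hq1
  have hq1r : (1 : ℝ) ≤ q := by exact_mod_cast hq1
  -- conditions
  have hcond1 : 4 * H * (2 * H * ℓ) ≤ T := by
    calc 4 * H * (2 * H * ℓ) = 8 * ℓ ^ (4 * K + 7) := by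
          rw [hH]
          ring
      _ ≤ T := hc1
  have hcond2 : 2 * H ^ 2 ≤ T := by
    calc 2 * H ^ 2 = 2 * ℓ ^ (4 * K + 6) := by
          rw [hH]
          ring
      _ ≤ T := hc2
  have hqT : (q : ℝ) ≤ T / ℓ ^ K := by
    rw [le_div_iff₀ (by positivity)]
    calc (q : ℝ) * ℓ ^ K ≤ (1 + 2 * N₂) * ℓ ^ K * ℓ ^ K :=
          mul_le_mul_of_nonneg_right hq2 (by positivity)
      _ = (1 + 2 * N₂) * ℓ ^ (2 * K) := by ring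
      _ ≤ T := hc3
  have hTdiv : T / ℓ ^ K ≤ T := div_le_self hT0.le (hpow K)
  have hκ2 : ℓ ^ 2 ≤ (H - 1) * (1 / (2 * (q : ℝ) ^ 2)) :=
    meas_kappa hq0 hℓ1 hH hH2 hq2 hℓN
  obtain ⟨X, hX⟩ : ∃ X : ℝ, X = max 1 (Real.exp (EE N₁ N₂ α (2 * T) + 1 - α * Real.log q)) :=
    ⟨_, rfl⟩
  have hX1 : 1 ≤ X := by
    rw [hX]
    exact le_max_left _ _
  have hX0 : 0 < X := by linarith
  have hXE : EE N₁ N₂ α (2 * T) + 1 - α * Real.log q ≤ Real.log X := by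
    rw [Real.le_log_iff_exp_le hX0, hX]
    exact le_max_right _ _
  have hqX : q * X ≤ (M + 1) * T / ℓ ^ K := by
    rw [hX, mul_max_of_nonneg _ _ hq0.le, mul_one]
    have h0 : 0 ≤ T / ℓ ^ K := by positivity
    have h5 : (M + 1) * T / ℓ ^ K = M * (T / ℓ ^ K) + T / ℓ ^ K := by ring
    have h6 : 0 ≤ M * (T / ℓ ^ K) := by positivity
    have h7 : M * T / ℓ ^ K = M * (T / ℓ ^ K) := by ring
    apply max_le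
    · refine hqT.trans ?_
      rw [h5]
      linarith
    · refine hq4.trans ?_
      rw [h5, h7]
      linarith
  have hXT : X ≤ (M + 1) * T := by
    calc X ≤ q * X := by nlinarith
      _ ≤ (M + 1) * T / ℓ ^ K := hqX
      _ ≤ (M + 1) * T := div_le_self (by positivity) (hpow K)
  have hlogX : Real.log X ≤ Real.log (M + 1) + ℓ := by
    rw [← hℓdef, ← Real.log_mul (by positivity) hT0.ne']
    exact Real.log_le_log hX0 hXT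
  obtain ⟨B, hB⟩ : ∃ B : ℝ, B = 2 * T * ℓ ^ 2 / H := ⟨_, rfl⟩
  have hB0 : 0 < B := by
    rw [hB]
    positivity
  have hmain := hbad T H (1 / (2 * (q : ℝ) ^ 2)) X q hTT1 hH2 (by rw [hℓdef]; exact hcond1) hcond2
    (by rw [hℓdef]; linarith) hq1 (hqT.trans hTdiv) hq3 (by positivity)
    (by rw [hℓdef]; exact hκ2) hX1 hXE hgap
  rw [hℓdef, ← hB] at hmain
  have hZ := ZZ_UU χ₁ χ₂ α δ (B := B) (X := X) (Δ := 4 * ℓ / B) hα.le hX1 (by positivity)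
  obtain ⟨hL, hl, hl0⟩ := meas_logX hX1 hlogX hℓlM
  have hR := meas_R (B := B) hX0.le hB0 hT0 hℓ1 hℓdef.symm hM11 hXT
  have hM6 : (M + 1) ^ 4 ≤ ℓ ^ 6 := by
    refine hℓM14.trans ?_
    calc ℓ = ℓ ^ 1 := (pow_one _).symm
      _ ≤ ℓ ^ 6 := hpowm 1 6 (by norm_num)
  have hZ2 := hZ.trans (zz_arith (T := T) hℓ1 hB0 hX1 (by positivity) hL hl0 hl hR hM6 hT0)
  -- the window
  have hWin : 2 * H * ℓ + 3 ≤ ℓ ^ (2 * K + 5) := meas_win hℓ6 hH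
  refine (badS_mono χ₁ χ₂ α δ hWin).trans (hmain.trans ?_)
  have hqB : q * B ≤ 2 * (1 + 2 * N₂) * T / ℓ ^ (K + 1) := by
    rw [hB]
    exact meas_qB hℓ1 hT0 hH hq2
  rw [hK] at hqX hqB
  exact meas_final hℓ1 hK0 hq0 hB0 hT0 hqX hqB rfl hℓM4 hZ2

theorem bad_measure (h₁ : χ₁.IsPrimitive) (h₂ : χ₂.IsPrimitive) (hα : 1 < α) (hα2 : α ≤ 2)
    (A : ℕ) : ∃ P : ℕ, ∀ᶠ T : ℝ in atTop,
      volume.real (BadS χ₁ χ₂ α δ T ((Real.log T) ^ P)) ≤ T / (Real.log T) ^ A := by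
  obtain ⟨K0, T1, hK0, hT1, hbad⟩ := bad_le χ₁ χ₂ α δ h₁ h₂ hα hα2
  obtain ⟨M, hM, hpar⟩ := params (N₁ := N₁) (N₂ := N₂) χ₁ χ₂ α δ hα hα2 (A + 6)
  refine ⟨2 * (A + 6) + 5, ?_⟩
  filter_upwards [hpar, eventually_ge_atTop T1, eventually_ge_atTop (Real.exp 1),
    Real.tendsto_log_atTop.eventually_ge_atTop
      (K0 * (41472 * (M + 1) + 2917 * (2 * (1 + 2 * N₂))) + 8 * (1 + 2 * N₂) ^ 2 +
      2 * Real.log (M + 1) + (M + 1) ^ 4 + 6),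
    ev_pow_log (4 * (A + 6) + 7) 8 (s := 1) one_pos, ev_pow_log (4 * (A + 6) + 6) 2 (s := 1) one_pos,
    ev_pow_log (2 * (A + 6)) (1 + 2 * N₂) (s := 1) one_pos] with T hparT hTT1 hTe hℓbig hc1 hc2 hc3
  rw [Real.rpow_one] at hc1 hc2 hc3
  obtain ⟨q, hq1, hq2, hq3, hgap, hq4⟩ := hparT
  exact meas_one χ₁ χ₂ α δ hα hK0 hM hbad hTT1 hTe hℓbig hc1 hc2 hc3 hq1 hq2 hq3 hgap hq4

end Pool.Agent.T9h53.SZ
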