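import Pool.Agent.T9h53.SZ.ZBound

/-! # The measure of the bad heights -/

set_option autoImplicit false

open Complex Filter Topology Set MeasureTheory

namespace Pool.Agent.T9h53.SZ

open H370.DL

variable {N₁ N₂ : ℕ} [NeZero N₁] [NeZero N₂] (χ₁ : DirichletCharacter ℂ N₁)
  (χ₂ : DirichletCharacter ℂ N₂) (α δ : ℝ)

/-- the exceptional zeros -/
def Exc : Set ℂ := {ρ : ℂ | DirichletCharacter.LFunction χ₁ ρ = 0 ∧
  analyticOrderAt (DirichletCharacter.LFunction χ₂) (1 / 2 + α * (ρ - 1 / 2) + δ * I) <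
    analyticOrderAt (DirichletCharacter.LFunction χ₁) ρ}

/-- the heights far from all exceptional zeros -/
def BadS (T W : ℝ) : Set ℝ := {t : ℝ | T < t ∧ t ≤ 2 * T ∧ ∀ ρ ∈ Exc χ₁ χ₂ α δ, W < |ρ.im - t|}

theorem exists_D (hα : 1 < α) {t W : ℝ} (hW : W ≤ t / 2) (hδ : 2 * |δ| < t)
    (ht : 0 < t) (hbad : ∀ ρ ∈ Exc χ₁ χ₂ α δ, W < |ρ.im - t|) :
    ∃ D : ℂ → ℂ, (∀ z : ℂ, |z.im - t| < W → AnalyticAt ℂ D z) ∧
      (∀ z : ℂ, |z.im - t| < W → DirichletCharacter.LFunction χ₂ (1 / 2 + δ * I + α * z) =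
        D z * DirichletCharacter.LFunction χ₁ (1 / 2 + z)) := by
  set U : Set ℂ := {z : ℂ | |z.im - t| < W} with hU
  have hUo : IsOpen U := by
    have : Continuous fun z : ℂ => |z.im - t| := by fun_prop
    exact isOpen_lt this continuous_const
  have hd := neg_abs_le δ
  have hpos : ∀ z ∈ U, 0 < z.im ∧ 0 < δ + α * z.im := by
    intro z hz
    have h1 := (abs_lt.mp (show |z.im - t| < W from hz)).1
    have h2 : t / 2 < z.im := by linarith
    constructor
    · linarith
    · nlinarith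
  obtain ⟨g, hg1, hg2⟩ := exists_quot (U := U)
    (f := fun w => DirichletCharacter.LFunction χ₂ (1 / 2 + δ * I + α * w))
    (h := fun w => DirichletCharacter.LFunction χ₁ (1 / 2 + w)) hUo
    (fun z hz => L2_analytic χ₂ α δ (hpos z hz).2) (fun z hz => L1_analytic χ₁ (hpos z hz).1)
    (fun z hz => L1_order_ne_top χ₁ (hpos z hz).1) (by
      intro z hz
      by_contra hcon
      push Not at hcon
      have e1 : analyticOrderAt (fun w => DirichletCharacter.LFunction χ₁ (1 / 2 + w)) z =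
          analyticOrderAt (DirichletCharacter.LFunction χ₁) (1 / 2 + z) := by
        have := analyticOrderAt_comp_of_deriv_ne_zero (f := DirichletCharacter.LFunction χ₁)
          (g := fun w : ℂ => 1 / 2 + w) (z₀ := z) (by fun_prop) (by simp)
        exact this
      have e2 : analyticOrderAt (fun w => DirichletCharacter.LFunction χ₂ (1 / 2 + δ * I + α * w))
          z = analyticOrderAt (DirichletCharacter.LFunction χ₂) (1 / 2 + δ * I + α * z) := by
        have hder : deriv (fun w : ℂ => 1 / 2 + δ * I + α * w) z = α := by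
          have : HasDerivAt (fun w : ℂ => 1 / 2 + δ * I + α * w) (α * 1) z :=
            ((hasDerivAt_id z).const_mul (α : ℂ)).const_add _
          rw [this.deriv, mul_one]
        have := analyticOrderAt_comp_of_deriv_ne_zero (f := DirichletCharacter.LFunction χ₂)
          (g := fun w : ℂ => 1 / 2 + δ * I + α * w) (z₀ := z) (by fun_prop) (by
            rw [hder]
            exact_mod_cast (by linarith : (α : ℝ) ≠ 0))
        exact this
      rw [e1, e2] at hcon
      have h1 := hbad (1 / 2 + z) (by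
        refine ⟨?_, ?_⟩
        · by_contra hne
          have han : AnalyticAt ℂ (DirichletCharacter.LFunction χ₁) (1 / 2 + z) :=
            analyticAt_L (ne_one_of_im (by simpa using (hpos z hz).1.ne'))
          rw [(han.analyticOrderAt_eq_zero).mpr hne] at hcon
          simp at hcon
        · have e3 : (1 / 2 : ℂ) + α * (1 / 2 + z - 1 / 2) + δ * I = 1 / 2 + δ * I + α * z := by ring
          rw [e3]
          exact hcon)
      have h2 : (1 / 2 + z : ℂ).im = z.im := by simp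
      rw [h2] at h1
      exact absurd (show |z.im - t| < W from hz) (not_lt.mpr h1.le))
  exact ⟨g, fun z hz => hg1 z hz, fun z hz => hg2 z hz⟩

omit [NeZero N₁] [NeZero N₂] in
lemma EE_near {a t B T : ℝ} (hα : 1 < α) (hα2 : α ≤ 2) (hT : 0 < T) (ha : T ≤ a) (h1 : a ≤ t)
    (h2 : t ≤ a + B) : |EE N₁ N₂ α t - EE N₁ N₂ α a| ≤ B / T := by
  have ha0 : 0 < a := by linarith
  have ht0 : 0 < t := by linarith
  rw [EE_diff α ha0 ht0]
  have h3 : 0 ≤ Real.log (t / a) := Real.log_nonneg (by rw [le_div_iff₀ ha0]; linarith)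
  rw [abs_of_nonneg (mul_nonneg (by linarith) h3)]
  have h4 := Real.log_le_sub_one_of_pos (show 0 < t / a by positivity)
  have h5 : t / a - 1 ≤ B / T := by
    have : t / a - 1 = (t - a) / a := by field_simp
    rw [this]
    apply div_le_div₀ (by linarith) (by linarith) hT ha
  nlinarith

omit [NeZero N₁] [NeZero N₂] in
lemma EE_mono {a b : ℝ} (hα : 1 < α) (ha : 0 < a) (hab : a ≤ b) :
    EE N₁ N₂ α a ≤ EE N₁ N₂ α b := by
  have h := EE_diff (N₁ := N₁) (N₂ := N₂) α ha (by linarith : 0 < b)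
  have h3 : 0 ≤ Real.log (b / a) := Real.log_nonneg (by rw [le_div_iff₀ ha]; linarith)
  have : 0 ≤ (α - 1) * Real.log (b / a) := mul_nonneg (by linarith) h3
  linarith

set_option maxHeartbeats 1000000 in
theorem bad_le (h₁ : χ₁.IsPrimitive) (h₂ : χ₂.IsPrimitive) (hα : 1 < α) (hα2 : α ≤ 2) :
    ∃ K T₀ : ℝ, 0 < K ∧ 1 ≤ T₀ ∧ ∀ (T H κ X : ℝ) (q : ℕ), T₀ ≤ T → 2 ≤ H →
      4 * H * (2 * H * Real.log T) ≤ T → 2 * H ^ 2 ≤ T → 6 * (Real.log T) ^ 2 ≤ H → 1 ≤ q →
      (q : ℝ) ≤ T →
      ‖χ₂ (q : ZMod N₂)‖ = 1 → 0 ≤ κ → (Real.log T) ^ 2 ≤ (H - 1) * κ → 1 ≤ X →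
      EE N₁ N₂ α (2 * T) + 1 - α * Real.log q ≤ Real.log X →
      (∀ p : ℕ × ℕ, cc χ₁ χ₂ δ p ≠ 0 → p ≠ (q, 1) → κ ≤ |α * Real.log q - nu α p|) →
      volume.real (BadS χ₁ χ₂ α δ T (2 * H * Real.log T + 3)) ≤
        K * q * (2 * T * (Real.log T) ^ 2 / H) *
          ZZ χ₁ χ₂ α δ (2 * T * (Real.log T) ^ 2 / H) (UU α X) := by
  classical
  obtain ⟨C, T1, hC, hT1, hcore⟩ := core χ₁ χ₂ α δ h₁ h₂ hα hα2
  have hα0 : 0 < α - 1 := by linarith
  refine ⟨80 * C ^ 2 * (8 / (α - 1) + 1), max T1 (max 100 (2 * |δ| + 1)), by positivity,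
    hT1.trans (le_max_left _ _), ?_⟩
  intro T H κ X q hT hH hHY hHT hH6 hq hqT hχq hκ hκ2 hX hXE hgap
  have hTT1 : T1 ≤ T := (le_max_left _ _).trans hT
  have hT100 : 100 ≤ T := (le_max_left _ _).trans ((le_max_right _ _).trans hT)
  have hTδ : 2 * |δ| + 1 ≤ T := (le_max_right _ _).trans ((le_max_right _ _).trans hT)
  have hT0 : 0 < T := by linarith
  set ℓ := Real.log T with hℓdef
  have hℓ : 1 ≤ ℓ := by
    rw [hℓdef, Real.le_log_iff_exp_le hT0]
    have := Real.exp_one_lt_three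
    linarith
  have hH0 : 0 < H := by linarith
  set B := 2 * T * ℓ ^ 2 / H with hB
  have hB0 : 0 < B := by positivity
  have hη : B / T = 2 * ℓ ^ 2 / H := by
    rw [hB]
    field_simp
  have hη0 : 0 ≤ B / T := by positivity
  have hη3 : 3 * (B / T) ≤ 1 := by
    rw [hη, mul_div_assoc', div_le_one hH0]
    linarith
  have hη2 : ℓ ^ 2 ≤ (H - 1) * (B / T) := by
    rw [hη, mul_div_assoc', le_div_iff₀ hH0]
    nlinarith [sq_nonneg ℓ]
  set Y := 2 * H * ℓ with hY
  have hY0 : 0 ≤ Y := by positivity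
  have hY8 : 8 * Y ≤ T := by nlinarith
  set J := ⌈T / B⌉₊ with hJdef
  have hJ : ((J : ℝ) - 1) * B ≤ T := by
    have h1 : (J : ℝ) < T / B + 1 := Nat.ceil_lt_add_one (by positivity)
    have h2 : ((J : ℝ) - 1) ≤ T / B := by linarith
    calc ((J : ℝ) - 1) * B ≤ T / B * B := mul_le_mul_of_nonneg_right h2 hB0.le
      _ = T := by field_simp
  -- each block
  have hblock : ∀ j ∈ Finset.range J,
      volume.real (BadS χ₁ χ₂ α δ T (Y + 3) ∩ Ioc (T + j * B) (T + j * B + B)) ≤
      80 * C ^ 2 * q * B * ZZ χ₁ χ₂ α δ B (SS α X q B T (EE N₁ N₂ α (T + j * B))) := by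
    intro j _
    apply block χ₁ χ₂ α δ hC hH0 hY0 hq hB0 _ _ inter_subset_right
    rintro t ⟨⟨ht1, ht2, ht3⟩, ht4, ht5⟩
    obtain ⟨D, hD1, hD2⟩ := exists_D χ₁ χ₂ α δ hα (t := t) (W := Y + 3) (by linarith) (by linarith)
      (by linarith) ht3
    have hnear : |EE N₁ N₂ α t - EE N₁ N₂ α (T + j * B)| ≤ B / T :=
      EE_near α hα hα2 hT0 (by
        have : (0 : ℝ) ≤ j * B := by positivity
        linarith) ht4.le ht5
    have hEt : EE N₁ N₂ α t ≤ EE N₁ N₂ α (2 * T) := EE_mono α hα (by linarith) ht2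
    refine hcore T H κ (B / T) q hTT1 hH hHY hHT hq hqT hχq hκ hη0 hκ2 hη2 hgap t ht1.le ht2 D
      hD1 hD2 _ ?_ ?_
    · intro p hp hc
      have hp1 : 1 ≤ p.1 ∧ 1 ≤ p.2 := by
        constructor
        · by_contra h0
          apply hc
          have : p.1 = 0 := by omega
          unfold cc a2
          rw [if_pos this, zero_mul]
        · by_contra h0
          apply hc
          have : p.2 = 0 := by omega
          unfold cc a1
          rw [if_pos this, mul_zero]
      unfold SS at hp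
      rw [Finset.mem_filter, not_and_or] at hp
      rcases hp with hp | hp
      · have hnu : Real.log X < nu α p := by
          by_contra h0
          push Not at h0
          apply hp
          unfold UU
          have hprod := prod_le_of_nu hα.le (by linarith : 0 < X) hp1.1 hp1.2 h0
          have g1 : (1 : ℝ) ≤ p.1 := by exact_mod_cast hp1.1
          have g2 : (1 : ℝ) ≤ p.2 := by exact_mod_cast hp1.2
          rw [Finset.mem_filter, Finset.mem_product, Finset.mem_Icc, Finset.mem_Icc]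
          refine ⟨⟨⟨hp1.1, Nat.le_floor ?_⟩, hp1.2, Nat.le_floor ?_⟩, h0⟩
          · nlinarith
          · nlinarith
        have h6 : 1 ≤ nu α p + α * Real.log q - EE N₁ N₂ α t := by linarith
        have h7 := le_abs_self (nu α p + α * Real.log q - EE N₁ N₂ α t)
        linarith
      · push Not at hp
        have h6 : |nu α p + α * Real.log q - EE N₁ N₂ α (T + j * B)| ≤
            |nu α p + α * Real.log q - EE N₁ N₂ α t| +
              |EE N₁ N₂ α t - EE N₁ N₂ α (T + j * B)| := abs_sub_le _ _ _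
        linarith
    · intro p hp
      unfold SS at hp
      rw [Finset.mem_filter] at hp
      have h6 : |nu α p + α * Real.log q - EE N₁ N₂ α t| ≤
          |nu α p + α * Real.log q - EE N₁ N₂ α (T + j * B)| +
            |EE N₁ N₂ α (T + j * B) - EE N₁ N₂ α t| := abs_sub_le _ _ _
      rw [abs_sub_comm (EE N₁ N₂ α (T + j * B))] at h6
      linarith [hp.2]
  -- the cover
  have hcover : BadS χ₁ χ₂ α δ T (Y + 3) ⊆
      ⋃ j ∈ Finset.range J, (BadS χ₁ χ₂ α δ T (Y + 3) ∩ Ioc (T + j * B) (T + j * B + B)) := by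
    intro t ht
    obtain ⟨ht1, ht2, ht3⟩ := ht
    have hpos : 0 < (t - T) / B := div_pos (by linarith) hB0
    set m := ⌈(t - T) / B⌉₊ with hm
    have hm1 : 0 < m := Nat.ceil_pos.mpr hpos
    obtain ⟨j, hj⟩ : ∃ j, m = j + 1 := ⟨m - 1, by omega⟩
    have hle : (t - T) / B ≤ m := Nat.le_ceil _
    have hlt : (m : ℝ) < (t - T) / B + 1 := Nat.ceil_lt_add_one hpos.le
    have hmJ : m ≤ J := by
      apply Nat.ceil_le_ceil
      apply div_le_div_of_nonneg_right _ hB0.le
      linarith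
    rw [hj] at hle hlt
    push_cast at hle hlt
    rw [mem_iUnion₂]
    refine ⟨j, Finset.mem_range.mpr (by omega), ⟨ht1, ht2, ht3⟩, ?_, ?_⟩
    · have h5 : (j : ℝ) < (t - T) / B := by linarith
      rw [lt_div_iff₀ hB0] at h5
      linarith
    · rw [div_le_iff₀ hB0] at hle
      linarith
  have hvol : volume.real (BadS χ₁ χ₂ α δ T (Y + 3)) ≤
      ∑ j ∈ Finset.range J,
        volume.real (BadS χ₁ χ₂ α δ T (Y + 3) ∩ Ioc (T + j * B) (T + j * B + B)) := by
    refine le_trans (measureReal_mono hcover ?_) (measureReal_biUnion_finset_le _ _)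
    refine (lt_of_le_of_lt (measure_biUnion_finset_le _ _) ?_).ne
    rw [ENNReal.sum_lt_top]
    intro j _
    exact (measure_mono inter_subset_right).trans_lt measure_Ioc_lt_top
  refine hvol.trans ((Finset.sum_le_sum hblock).trans ?_)
  rw [← Finset.mul_sum]
  have hs := sum_ZZ χ₁ χ₂ α δ (X := X) (q := q) hα hT0 hB0 hJ
  calc 80 * C ^ 2 * q * B * ∑ j ∈ Finset.range J,
        ZZ χ₁ χ₂ α δ B (SS α X q B T (EE N₁ N₂ α (T + j * B))) ≤
      80 * C ^ 2 * q * B * ((8 / (α - 1) + 1) * ZZ χ₁ χ₂ α δ B (UU α X)) := by gcongr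
    _ = _ := by ring

end Pool.Agent.T9h53.SZ
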