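import Pool.Agent.H370R2.Local

/-! # A lower bound on a circle -/

set_option autoImplicit false

open Complex Filter Topology Set Metric

namespace Pool.Agent.T9h53.SZ

open H370.Loc

/-- a lower bound for non-vanishing functions on a disc -/
theorem lower_of_nonvanishing {f : ℂ → ℂ} {R M : ℝ} (hR : 0 < R) (hM : 1 < M)
    (hf : DifferentiableOn ℂ f (ball 0 R)) (h0 : ∀ z ∈ ball (0 : ℂ) R, f z ≠ 0)
    (hb : ∀ z ∈ ball (0 : ℂ) R, ‖f z‖ ≤ M * ‖f 0‖) {z : ℂ} (hz : z ∈ ball (0 : ℂ) R) :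
    ‖f 0‖ * Real.exp (-(2 * Real.log M * ‖z‖ / (R - ‖z‖))) ≤ ‖f z‖ := by
  have hopen : IsOpen (ball (0 : ℂ) R) := isOpen_ball
  have hz0 : (0 : ℂ) ∈ ball (0 : ℂ) R := mem_ball_self hR
  have hfd : DifferentiableOn ℂ (fun z => deriv f z / f z) (ball 0 R) :=
    (hf.deriv hopen).div hf h0
  obtain ⟨g, hg0, hg⟩ := (hfd.isExactOn_ball).with_val_at 0 0
  have hgd : DifferentiableOn ℂ g (ball 0 R) := fun z hz =>
    (hg z hz).differentiableAt.differentiableWithinAt
  have hconst : ∀ z ∈ ball (0 : ℂ) R, f z * exp (-g z) = f 0 := by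
    intro z hz
    have hd : ∀ w ∈ ball (0 : ℂ) R, HasDerivWithinAt (fun w => f w * exp (-g w)) 0 (ball 0 R) w := by
      intro w hw
      have h1 : HasDerivAt f (deriv f w) w :=
        (hf.differentiableAt (hopen.mem_nhds hw)).hasDerivAt
      have h2 : HasDerivAt (fun w => exp (-g w)) (exp (-g w) * -(deriv f w / f w)) w :=
        ((hg w hw).neg).cexp
      have h3 := h1.mul h2
      have e : deriv f w * exp (-g w) + f w * (exp (-g w) * -(deriv f w / f w)) = 0 := by
        have := h0 w hw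
        field_simp
        ring
      rw [e] at h3
      exact h3.hasDerivWithinAt
    have := (convex_ball (0 : ℂ) R).norm_image_sub_le_of_norm_hasDerivWithin_le
      (C := 0) hd (by simp) hz0 hz
    rw [zero_mul] at this
    have h4 := norm_le_zero_iff.1 this
    rw [sub_eq_zero] at h4
    simpa [hg0] using h4
  have hfe : ∀ z ∈ ball (0 : ℂ) R, f z = f 0 * exp (g z) := by
    intro z hz
    rw [← hconst z hz, mul_assoc, ← exp_add, neg_add_cancel, exp_zero, mul_one]
  have hf0 : 0 < ‖f 0‖ := norm_pos_iff.2 (h0 0 hz0)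
  have hlogM : 0 < Real.log M := Real.log_pos hM
  have hmaps : MapsTo g (ball 0 R) {z | z.re ≤ Real.log M} := by
    intro w hw
    have h1 := hb w hw
    rw [hfe w hw, norm_mul, Complex.norm_exp, mul_comm] at h1
    have h2 : Real.exp (g w).re ≤ M := le_of_mul_le_mul_right h1 hf0
    exact (Real.le_log_iff_exp_le (by linarith)).2 h2
  have hBC := Complex.borelCaratheodory_zero hlogM hgd hmaps hR hz hg0
  rw [hfe z hz, norm_mul, Complex.norm_exp]
  apply mul_le_mul_of_nonneg_left _ hf0.le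
  apply Real.exp_le_exp.2
  have := (abs_re_le_norm (g z)).trans hBC
  exact (abs_le.1 this).1

/-- the constant `1 / log (1.9 / 1.85)` -/
noncomputable def K1 : ℝ := 1 / Real.log (1.9 / 1.85)

lemma K1_pos : 0 < K1 := by
  unfold K1
  have : 0 < Real.log (1.9 / 1.85) := Real.log_pos (by norm_num)
  positivity

/-- the exponent in the lower bound -/
noncomputable def QQ (L : ℝ) : ℝ :=
  K1 * L * Real.log 1.85 + 40 * (L + K1 * L * Real.log 37 + 1) +
    K1 * L * Real.log (20 * (K1 * L + 1))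

theorem circle_lower {f : ℂ → ℂ} {c : ℂ} {M : ℝ} (hM : 1 ≤ M)
    (hf : AnalyticOnNhd ℂ f (closedBall c 1.9)) (hc : f c ≠ 0) (hMf : ‖f c‖ ≤ M)
    (hb : ∀ z ∈ closedBall c 1.9, ‖f z‖ ≤ M) :
    ∃ r : ℝ, 1.5 ≤ r ∧ r ≤ 1.6 ∧ ∀ z ∈ sphere c r,
      ‖f c‖ * Real.exp (-QQ (Real.log (M / ‖f c‖))) ≤ ‖f z‖ := by
  classical
  have hr : (0 : ℝ) < 1.85 := by norm_num
  have hrR : (1.85 : ℝ) < 1.9 := by norm_num
  have hR : (0 : ℝ) < 1.9 := by norm_num
  obtain ⟨s, g, hs, hg, hfg, hg0, hcard⟩ := extract hr hrR hM hf hc hb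
  have hfc : 0 < ‖f c‖ := norm_pos_iff.2 hc
  set n := Multiset.card s with hn
  set L := Real.log (M / ‖f c‖) with hL
  have hlogM : 0 ≤ L := Real.log_nonneg (by rw [le_div_iff₀ hfc]; linarith)
  have hcard' : (n : ℝ) ≤ K1 * L := by
    refine hcard.trans (le_of_eq ?_)
    unfold K1
    ring
  have hRr0 : (0 : ℝ) < 1.9 - 1.85 := by norm_num
  have hgsphere : ∀ w ∈ sphere c 1.9, ‖g w‖ ≤ M / (1.9 - 1.85) ^ n := by
    intro w hw
    have hwR := sphere_subset_closedBall hw
    have h1 : ((1.9 : ℝ) - 1.85) ^ n ≤ ‖Pf s w‖ := Pf_norm_ge hRr0.le fun ρ hρ => by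
      have h2 := (hs ρ hρ).1
      rw [mem_closedBall, dist_eq_norm] at h2
      rw [mem_sphere, dist_eq_norm] at hw
      have h3 : ‖w - c‖ ≤ ‖w - ρ‖ + ‖ρ - c‖ := by
        calc ‖w - c‖ = ‖(w - ρ) + (ρ - c)‖ := by congr 1; ring
          _ ≤ _ := norm_add_le _ _
      linarith
    rw [le_div_iff₀ (by positivity)]
    calc ‖g w‖ * (1.9 - 1.85) ^ n ≤ ‖g w‖ * ‖Pf s w‖ :=
          mul_le_mul_of_nonneg_left h1 (norm_nonneg _)
      _ = ‖f w‖ := by rw [hfg w, norm_mul, mul_comm]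
      _ ≤ M := hb w hwR
  have hgball : ∀ w ∈ closedBall c 1.9, ‖g w‖ ≤ M / (1.9 - 1.85) ^ n := by
    intro w hw
    refine Complex.norm_le_of_forall_mem_frontier_norm_le (U := ball c 1.9) isBounded_ball ?_ ?_ ?_
    · apply DifferentiableOn.diffContOnCl
      rw [closure_ball c hR.ne']
      exact fun x hx => (hg x hx).differentiableAt.differentiableWithinAt
    · intro x hx
      rw [frontier_ball c hR.ne'] at hx
      exact hgsphere x hx
    · rwa [closure_ball c hR.ne']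
  have hgc : ‖f c‖ / 1.85 ^ n ≤ ‖g c‖ := by
    rw [div_le_iff₀ (by positivity)]
    have h1 : ‖Pf s c‖ ≤ 1.85 ^ n := Pf_norm_le fun ρ hρ => by
      have h2 := (hs ρ hρ).1
      rw [mem_closedBall, dist_eq_norm, norm_sub_rev] at h2
      exact h2
    calc ‖f c‖ = ‖g c‖ * ‖Pf s c‖ := by rw [hfg c, norm_mul, mul_comm]
      _ ≤ ‖g c‖ * 1.85 ^ n := mul_le_mul_of_nonneg_left h1 (norm_nonneg _)
  have hl37 : 0 < Real.log 37 := Real.log_pos (by norm_num)
  have hl185 : 0 < Real.log 1.85 := Real.log_pos (by norm_num)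
  set B : ℝ := L + n * Real.log 37 + 1 with hB
  have hB0 : 0 < B := by positivity
  have hexpB : M / ‖f c‖ * (37 : ℝ) ^ n ≤ Real.exp B := by
    rw [hB, Real.exp_add, Real.exp_add, hL, Real.exp_log (by positivity), Real.exp_nat_mul,
      Real.exp_log (by norm_num)]
    have : 1 ≤ Real.exp 1 := Real.one_le_exp (by norm_num)
    have h2 : 0 ≤ M / ‖f c‖ * (37 : ℝ) ^ n := by positivity
    nlinarith
  have hgb : ∀ w ∈ closedBall c 1.85, ‖g w‖ ≤ Real.exp B * ‖g c‖ := by
    intro w hw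
    refine (hgball w (closedBall_subset_closedBall hrR.le hw)).trans ?_
    calc M / (1.9 - 1.85) ^ n = M / ‖f c‖ * (37 : ℝ) ^ n * (‖f c‖ / 1.85 ^ n) := by
          have : (37 : ℝ) = 1.85 / (1.9 - 1.85) := by norm_num
          rw [this, div_pow]; field_simp
      _ ≤ Real.exp B * ‖g c‖ := mul_le_mul hexpB hgc (by positivity) (Real.exp_pos _).le
  -- the radius
  obtain ⟨U, ⟨hU1, hU2⟩, hU⟩ := H370.Loc.pigeon
    ((s.map (fun ρ => 10 * ‖ρ - c‖)).toFinset) 15
  have hcardΓ : (((s.map (fun ρ => 10 * ‖ρ - c‖)).toFinset.card : ℕ) : ℝ) ≤ n := by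
    have h1 := Multiset.toFinset_card_le (s.map (fun ρ => 10 * ‖ρ - c‖))
    rw [Multiset.card_map] at h1
    exact_mod_cast h1
  refine ⟨U / 10, by norm_num at hU1 ⊢; linarith, by norm_num at hU2 ⊢; linarith, fun z hz => ?_⟩
  rw [mem_sphere, dist_eq_norm] at hz
  set a : ℝ := 1 / (20 * ((n : ℝ) + 1)) with ha
  have ha0 : 0 < a := by positivity
  have hP : a ^ n ≤ ‖Pf s z‖ := Pf_norm_ge ha0.le fun ρ hρ => by
    have h1 := hU (10 * ‖ρ - c‖) (by
      rw [Multiset.mem_toFinset]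
      exact Multiset.mem_map_of_mem _ hρ)
    have h2 : 1 / (2 * ((n : ℝ) + 1)) ≤ |U - 10 * ‖ρ - c‖| := by
      refine le_trans ?_ h1
      apply one_div_le_one_div_of_le (by positivity)
      linarith
    have h3 : |U - 10 * ‖ρ - c‖| = 10 * |‖z - c‖ - ‖ρ - c‖| := by
      rw [hz, show U - 10 * ‖ρ - c‖ = 10 * (U / 10 - ‖ρ - c‖) by ring, abs_mul]
      norm_num
    have h4 : |‖z - c‖ - ‖ρ - c‖| ≤ ‖z - ρ‖ := by
      have := abs_norm_sub_norm_le (z - c) (ρ - c)
      rwa [show z - c - (ρ - c) = z - ρ by ring] at this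
    have h5 : a = 1 / (2 * ((n : ℝ) + 1)) / 10 := by
      rw [ha]; field_simp; norm_num
    rw [h5]
    linarith
  have hzball : ‖z - c‖ ≤ 1.6 := by
    rw [hz]
    norm_num at hU2 ⊢
    linarith
  -- lower bound for g
  have hglow : ‖g c‖ * Real.exp (-(40 * B)) ≤ ‖g z‖ := by
    have hsub : ∀ w ∈ ball (0 : ℂ) 1.85, c + w ∈ closedBall c 1.85 := by
      intro w hw
      rw [mem_ball_zero_iff] at hw
      rw [mem_closedBall, dist_eq_norm, add_sub_cancel_left]
      exact hw.le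
    have h1 := lower_of_nonvanishing (f := fun w => g (c + w)) (R := 1.85) (M := Real.exp B)
      hr (Real.one_lt_exp_iff.mpr hB0) (by
        intro w hw
        have h2 := (hg (c + w) (closedBall_subset_closedBall hrR.le (hsub w hw))).differentiableAt
        have h3 : DifferentiableAt ℂ (fun w => g (c + w)) w :=
          DifferentiableAt.comp w h2 (by fun_prop)
        exact h3.differentiableWithinAt)
      (fun w hw => hg0 _ (hsub w hw)) (fun w hw => by
        simpa using hgb _ (hsub w hw)) (z := z - c) (by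
        rw [mem_ball_zero_iff]
        linarith)
    simp only [add_zero, add_sub_cancel, Real.log_exp] at h1
    refine le_trans ?_ h1
    apply mul_le_mul_of_nonneg_left _ (norm_nonneg _)
    apply Real.exp_le_exp.mpr
    apply neg_le_neg
    rw [div_le_iff₀ (by linarith)]
    nlinarith [norm_nonneg (z - c)]
  rw [hfg z, norm_mul]
  have e1 : Real.exp (-QQ L) ≤ a ^ n * ((1 / 1.85 ^ n) * Real.exp (-(40 * B))) := by
    have h1 : a ^ n = Real.exp (-(n * Real.log (20 * ((n : ℝ) + 1)))) := by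
      rw [Real.exp_neg, Real.exp_nat_mul, Real.exp_log (by positivity), ha, one_div, inv_pow]
    have h2 : (1 / 1.85 ^ n : ℝ) = Real.exp (-(n * Real.log 1.85)) := by
      rw [Real.exp_neg, Real.exp_nat_mul, Real.exp_log (by norm_num), one_div]
    rw [h1, h2, ← Real.exp_add, ← Real.exp_add]
    apply Real.exp_le_exp.mpr
    unfold QQ
    have h3 : (n : ℝ) * Real.log (20 * ((n : ℝ) + 1)) ≤
        K1 * L * Real.log (20 * (K1 * L + 1)) := by
      apply mul_le_mul hcard'
      · apply Real.log_le_log (by positivity)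
        linarith
      · apply Real.log_nonneg
        have : (0 : ℝ) ≤ n := Nat.cast_nonneg n
        linarith
      · exact mul_nonneg K1_pos.le hlogM
    have h4 : (n : ℝ) * Real.log 1.85 ≤ K1 * L * Real.log 1.85 :=
      mul_le_mul_of_nonneg_right hcard' hl185.le
    have h5 : (n : ℝ) * Real.log 37 ≤ K1 * L * Real.log 37 :=
      mul_le_mul_of_nonneg_right hcard' hl37.le
    rw [hB]
    linarith
  calc ‖f c‖ * Real.exp (-QQ L) ≤ ‖f c‖ * (a ^ n * ((1 / 1.85 ^ n) * Real.exp (-(40 * B)))) :=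
        mul_le_mul_of_nonneg_left e1 hfc.le
    _ = a ^ n * ((‖f c‖ / 1.85 ^ n) * Real.exp (-(40 * B))) := by ring
    _ ≤ a ^ n * (‖g c‖ * Real.exp (-(40 * B))) := by gcongr
    _ ≤ ‖Pf s z‖ * ‖g z‖ := mul_le_mul hP hglow (by positivity) (norm_nonneg _)

end Pool.Agent.T9h53.SZ
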