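import Mathlib

/-! # The Dirichlet series of the quotient -/

set_option autoImplicit false

open Complex Filter Topology Set
open scoped ArithmeticFunction.Moebius

namespace Pool.Agent.T9h53.SZ

section one

variable {N : ℕ}

/-- the coefficients of `1 / L(1/2 + z, χ)` -/
noncomputable def a1 (χ : DirichletCharacter ℂ N) (n : ℕ) : ℂ :=
  if n = 0 then 0 else χ (n : ZMod N) * ((ArithmeticFunction.moebius n : ℤ) : ℂ) *
    (n : ℂ) ^ (-(1 / 2 : ℂ))

/-- the coefficients of `L(1/2 + iθ + z, χ)` -/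
noncomputable def a2 (χ : DirichletCharacter ℂ N) (θ : ℝ) (n : ℕ) : ℂ :=
  if n = 0 then 0 else χ (n : ZMod N) * (n : ℂ) ^ (-(1 / 2 + θ * I : ℂ))

lemma a1_norm (χ : DirichletCharacter ℂ N) (n : ℕ) : ‖a1 χ n‖ ≤ (n : ℝ) ^ (-(1 / 2) : ℝ) := by
  unfold a1
  split_ifs with h
  · rw [norm_zero]
    positivity
  · have hn : 0 < n := Nat.pos_of_ne_zero h
    rw [norm_mul, norm_mul, Complex.norm_natCast_cpow_of_pos hn]
    have h1 := DirichletCharacter.norm_le_one χ (n : ZMod N)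
    have h2 : ‖((ArithmeticFunction.moebius n : ℤ) : ℂ)‖ ≤ 1 := by
      rw [Complex.norm_intCast]
      exact_mod_cast ArithmeticFunction.abs_moebius_le_one
    have h3 : (-(1 / 2 : ℂ)).re = (-(1 / 2) : ℝ) := by simp
    rw [h3]
    calc ‖χ (n : ZMod N)‖ * ‖((ArithmeticFunction.moebius n : ℤ) : ℂ)‖ * (n : ℝ) ^ (-(1 / 2) : ℝ) ≤
        1 * 1 * (n : ℝ) ^ (-(1 / 2) : ℝ) := by gcongr
      _ = _ := by ring

lemma a2_norm (χ : DirichletCharacter ℂ N) (θ : ℝ) (n : ℕ) :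
    ‖a2 χ θ n‖ ≤ (n : ℝ) ^ (-(1 / 2) : ℝ) := by
  unfold a2
  split_ifs with h
  · rw [norm_zero]
    positivity
  · have hn : 0 < n := Nat.pos_of_ne_zero h
    rw [norm_mul, Complex.norm_natCast_cpow_of_pos hn]
    have h1 := DirichletCharacter.norm_le_one χ (n : ZMod N)
    have h3 : (-(1 / 2 + θ * I : ℂ)).re = (-(1 / 2) : ℝ) := by simp
    rw [h3]
    calc ‖χ (n : ZMod N)‖ * (n : ℝ) ^ (-(1 / 2) : ℝ) ≤ 1 * (n : ℝ) ^ (-(1 / 2) : ℝ) := by gcongr
      _ = _ := by ring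

lemma cpow_log {n : ℕ} (hn : n ≠ 0) (w : ℂ) : (n : ℂ) ^ w = cexp (((Real.log n : ℝ) : ℂ) * w) := by
  rw [Complex.cpow_def_of_ne_zero (by exact_mod_cast hn), Complex.natCast_log]

lemma term1 (χ : DirichletCharacter ℂ N) (w : ℂ) (n : ℕ) :
    LSeries.term ((fun n : ℕ => (χ n : ℂ)) * (fun n : ℕ => (μ n : ℂ))) (1 / 2 + w) n = a1 χ n * cexp (-(((Real.log n : ℝ) : ℂ) * w)) := by
  unfold a1
  rcases Nat.eq_zero_or_pos n with rfl | hn
  · simp
  · rw [LSeries.term_of_ne_zero hn.ne', if_neg hn.ne', Pi.mul_apply, div_eq_mul_inv,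
      ← Complex.cpow_neg, neg_add, Complex.cpow_add _ _ (by exact_mod_cast hn.ne'),
      cpow_log hn.ne' (-w)]
    simp only [mul_neg]
    ring

lemma term2 (χ : DirichletCharacter ℂ N) (α θ : ℝ) (w : ℂ) (n : ℕ) :
    LSeries.term (fun n : ℕ => (χ n : ℂ)) (1 / 2 + θ * I + α * w) n =
      a2 χ θ n * cexp (-((α * Real.log n : ℝ) : ℂ) * w) := by
  unfold a2
  rcases Nat.eq_zero_or_pos n with rfl | hn
  · simp
  · rw [LSeries.term_of_ne_zero hn.ne', if_neg hn.ne', div_eq_mul_inv,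
      ← Complex.cpow_neg, neg_add, Complex.cpow_add _ _ (by exact_mod_cast hn.ne'),
      cpow_log hn.ne' (-(α * w))]
    have : ((Real.log n : ℝ) : ℂ) * -(α * w) = -((α * Real.log n : ℝ) : ℂ) * w := by
      push_cast
      ring
    rw [this]
    ring

lemma rpow_exp {n : ℕ} (hn : n ≠ 0) (x : ℝ) : (n : ℝ) ^ x = Real.exp (x * Real.log n) := by
  rw [Real.rpow_def_of_pos (by exact_mod_cast Nat.pos_of_ne_zero hn), mul_comm]

/-- weighted norms, real power form -/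
lemma wt_le {a : ℝ} {n : ℕ} {x : ℝ} (_ : 0 ≤ a) (h : a ≤ (n : ℝ) ^ (-(1 / 2) : ℝ))
    (hx : x ≤ -1) : a * Real.exp (x * Real.log n) ≤ (n : ℝ) ^ (-(3 / 2) : ℝ) := by
  rcases Nat.eq_zero_or_pos n with rfl | hn
  · simp only [Nat.cast_zero, Real.log_zero, mul_zero, Real.exp_zero, mul_one] at h ⊢
    rw [Real.zero_rpow (by norm_num)] at h ⊢
    exact h
  · rw [← rpow_exp hn.ne']
    have hn1 : (1 : ℝ) ≤ n := by exact_mod_cast hn
    calc a * (n : ℝ) ^ x ≤ (n : ℝ) ^ (-(1 / 2) : ℝ) * (n : ℝ) ^ (-1 : ℝ) := by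
          apply mul_le_mul h (Real.rpow_le_rpow_of_exponent_le hn1 hx) (by positivity)
            (by positivity)
      _ = (n : ℝ) ^ (-(3 / 2) : ℝ) := by
          rw [← Real.rpow_add (by linarith)]
          norm_num

lemma summable_three_half : Summable fun n : ℕ => (n : ℝ) ^ (-(3 / 2) : ℝ) :=
  Real.summable_nat_rpow.mpr (by norm_num)

end one

variable {N₁ N₂ : ℕ} (χ₁ : DirichletCharacter ℂ N₁) (χ₂ : DirichletCharacter ℂ N₂) (α θ : ℝ)

/-- the coefficients of the quotient -/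
noncomputable def cc (p : ℕ × ℕ) : ℂ := a2 χ₂ θ p.1 * a1 χ₁ p.2

/-- the logarithms of the frequencies of the quotient -/
noncomputable def nu (p : ℕ × ℕ) : ℝ := α * Real.log p.1 + Real.log p.2

/-- the constant `ζ(3/2)²` -/
noncomputable def S0 : ℝ := ∑' p : ℕ × ℕ, (p.1 : ℝ) ^ (-(3 / 2) : ℝ) * (p.2 : ℝ) ^ (-(3 / 2) : ℝ)

lemma S0_summable : Summable fun p : ℕ × ℕ =>
    (p.1 : ℝ) ^ (-(3 / 2) : ℝ) * (p.2 : ℝ) ^ (-(3 / 2) : ℝ) :=
  Summable.mul_of_nonneg summable_three_half summable_three_half (fun n => by positivity)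
    (fun n => by positivity)

lemma cc_le (hα : 1 ≤ α) (p : ℕ × ℕ) : ‖cc χ₁ χ₂ θ p‖ * Real.exp (-nu α p) ≤
    (p.1 : ℝ) ^ (-(3 / 2) : ℝ) * (p.2 : ℝ) ^ (-(3 / 2) : ℝ) := by
  have h1 := wt_le (x := -α) (norm_nonneg _) (a2_norm χ₂ θ p.1) (by linarith)
  have h2 := wt_le (x := -1) (norm_nonneg _) (a1_norm χ₁ p.2) le_rfl
  have h3 : Real.exp (-nu α p) = Real.exp (-α * Real.log p.1) * Real.exp (-1 * Real.log p.2) := by
    rw [← Real.exp_add]
    unfold nu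
    congr 1
    ring
  unfold cc
  rw [norm_mul, h3]
  calc ‖a2 χ₂ θ p.1‖ * ‖a1 χ₁ p.2‖ * (Real.exp (-α * Real.log p.1) * Real.exp (-1 * Real.log p.2)) =
      (‖a2 χ₂ θ p.1‖ * Real.exp (-α * Real.log p.1)) *
        (‖a1 χ₁ p.2‖ * Real.exp (-1 * Real.log p.2)) := by ring
    _ ≤ _ := by gcongr

lemma cc_summable (hα : 1 ≤ α) : Summable fun p => ‖cc χ₁ χ₂ θ p‖ * Real.exp (-nu α p) :=
  Summable.of_nonneg_of_le (fun p => by positivity) (cc_le χ₁ χ₂ α θ hα) S0_summable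

lemma cc_tsum_le (hα : 1 ≤ α) : ∑' p, ‖cc χ₁ χ₂ θ p‖ * Real.exp (-nu α p) ≤ S0 :=
  (cc_summable χ₁ χ₂ α θ hα).tsum_le_tsum (cc_le χ₁ χ₂ α θ hα) S0_summable

variable [NeZero N₁] [NeZero N₂]

/-- **the quotient as a generalised Dirichlet series** -/
theorem quot_series (hα : 1 ≤ α) {w : ℂ} (hw : w.re = 1) :
    DirichletCharacter.LFunction χ₂ (1 / 2 + θ * I + α * w) /
      DirichletCharacter.LFunction χ₁ (1 / 2 + w) =
      ∑' p, cc χ₁ χ₂ θ p * cexp (-(nu α p : ℂ) * w) := by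
  have hre1 : 1 < ((1 / 2 : ℂ) + w).re := by simp [hw]
  have hre2 : 1 < ((1 / 2 : ℂ) + θ * I + α * w).re := by
    simp [hw]
    linarith
  rw [DirichletCharacter.LFunction_eq_LSeries χ₂ hre2,
    DirichletCharacter.LFunction_eq_LSeries χ₁ hre1]
  have h1 := DirichletCharacter.LSeries.mul_mu_eq_one χ₁ hre1
  have hne : LSeries (fun n : ℕ => (χ₁ n : ℂ)) (1 / 2 + w) ≠ 0 := left_ne_zero_of_mul_eq_one h1
  rw [div_eq_iff hne]
  have h2 : LSeries (fun n : ℕ => (χ₂ n : ℂ)) (1 / 2 + θ * I + α * w) * LSeries ((fun n : ℕ => (χ₁ n : ℂ)) * (fun n : ℕ => (μ n : ℂ))) (1 / 2 + w) =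
      ∑' p, cc χ₁ χ₂ θ p * cexp (-(nu α p : ℂ) * w) := by
    unfold LSeries
    have e1 : ∀ n : ℕ, ‖LSeries.term (fun n : ℕ => (χ₂ n : ℂ)) (1 / 2 + θ * I + α * w) n‖ =
        ‖a2 χ₂ θ n‖ * Real.exp (-α * Real.log n) := by
      intro n
      rw [term2, norm_mul, Complex.norm_exp]
      congr 2
      rw [mul_re, neg_re, neg_im, ofReal_re, ofReal_im, hw]
      ring
    have e2 : ∀ n : ℕ, ‖LSeries.term ((fun n : ℕ => (χ₁ n : ℂ)) * (fun n : ℕ => (μ n : ℂ))) (1 / 2 + w) n‖ =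
        ‖a1 χ₁ n‖ * Real.exp (-1 * Real.log n) := by
      intro n
      rw [term1, norm_mul, Complex.norm_exp]
      congr 2
      rw [neg_re, mul_re, ofReal_re, ofReal_im, hw]
      ring
    have s1 : Summable fun n : ℕ => ‖LSeries.term (fun n : ℕ => (χ₂ n : ℂ)) (1 / 2 + θ * I + α * w) n‖ := by
      refine Summable.of_nonneg_of_le (fun n => norm_nonneg _) (fun n => ?_) summable_three_half
      rw [e1]
      exact wt_le (norm_nonneg _) (a2_norm χ₂ θ n) (by linarith)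
    have s2 : Summable fun n : ℕ => ‖LSeries.term ((fun n : ℕ => (χ₁ n : ℂ)) * (fun n : ℕ => (μ n : ℂ))) (1 / 2 + w) n‖ := by
      refine Summable.of_nonneg_of_le (fun n => norm_nonneg _) (fun n => ?_) summable_three_half
      rw [e2]
      exact wt_le (norm_nonneg _) (a1_norm χ₁ n) le_rfl
    rw [tsum_mul_tsum_of_summable_norm s1 s2]
    refine tsum_congr fun p => ?_
    rw [term1, term2]
    unfold cc nu
    have : cexp (-((α * Real.log p.1 + Real.log p.2 : ℝ) : ℂ) * w) =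
        cexp (-((α * Real.log p.1 : ℝ) : ℂ) * w) * cexp (-(((Real.log p.2 : ℝ) : ℂ) * w)) := by
      rw [← Complex.exp_add]
      congr 1
      push_cast
      ring
    rw [this]
    ring
  rw [← h2, mul_assoc, mul_comm (LSeries ((fun n : ℕ => (χ₁ n : ℂ)) * (fun n : ℕ => (μ n : ℂ))) _), h1, mul_one]

end Pool.Agent.T9h53.SZ
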