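import Pool.Agent.T9h53.SZ.Sum
import Pool.Agent.T9h53.SZ.Ser
import Pool.Agent.T9h53.SZ.Quot
import Pool.Agent.T9h53.SZ.Box

/-! # The amplitude and the functional equation of the continued quotient -/

set_option autoImplicit false

open Complex Filter Topology Set MeasureTheory

namespace Pool.Agent.T9h53.SZ

open H370.DL

variable {N₁ N₂ : ℕ} [NeZero N₁] [NeZero N₂] (χ₁ : DirichletCharacter ℂ N₁)
  (χ₂ : DirichletCharacter ℂ N₂) (α δ : ℝ)

lemma GG_analytic (h₁ : χ₁.IsPrimitive) {z : ℂ} (hz : z.im ≠ 0) (hz2 : δ + α * z.im ≠ 0) :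
    AnalyticAt ℂ (GG χ₁ χ₂ α δ) z := by
  have e1 : AnalyticAt ℂ (fun z : ℂ => XX χ₂ (1 / 2 + δ * I + α * z)) z :=
    AnalyticAt.fun_comp (f := fun z : ℂ => 1 / 2 + δ * I + α * z) (g := XX χ₂)
      (analyticAt_XX (by simpa using hz2)) (by fun_prop)
  have e2 : AnalyticAt ℂ (fun z : ℂ => XX χ₁ (1 / 2 + z)) z :=
    AnalyticAt.fun_comp (f := fun z : ℂ => 1 / 2 + z) (g := XX χ₁)
      (analyticAt_XX (by simpa using hz)) (by fun_prop)
  exact e1.div e2 (XX_ne_zero h₁ (by simpa using hz))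

theorem amp_GG (h₁ : χ₁.IsPrimitive) (h₂ : χ₂.IsPrimitive) (hα : 1 < α) (hα2 : α ≤ 2) :
    ∃ C T₀ : ℝ, 0 < C ∧ 1 ≤ T₀ ∧ ∀ T H Y : ℝ, T₀ ≤ T → 2 ≤ H → 0 ≤ Y → 4 * H * Y ≤ T →
      2 * H ^ 2 ≤ T → ∀ t : ℝ, T ≤ t → t ≤ 2 * T →
      Amp (GG χ₁ χ₂ α δ) C (EE N₁ N₂ α t) H Y t := by
  obtain ⟨C, t₀, hC, ht₀, h⟩ := GG_size χ₁ χ₂ α δ h₁ h₂ hα hα2
  refine ⟨Real.exp (C + 1), max (2 * t₀) (2 * |δ| + 2), Real.exp_pos _, by
    refine le_trans ?_ (le_max_left _ _); linarith, ?_⟩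
  intro T H Y hT hH hY hHY hHT t ht1 ht2
  have hT1 : 2 * t₀ ≤ T := (le_max_left _ _).trans hT
  have hT2 : 2 * |δ| + 2 ≤ T := (le_max_right _ _).trans hT
  have hδ := neg_abs_le δ
  have hY8 : 8 * Y ≤ T := by nlinarith
  have hT0 : 0 < T := by linarith
  have ht0 : 0 < t := by linarith
  constructor
  · intro z hz1 hz2
    obtain ⟨h3, h4⟩ := abs_le.mp hz2
    have h5 : 0 < z.im := by linarith
    have h6 : 0 < δ + α * z.im := by nlinarith
    exact (GG_analytic χ₁ χ₂ α δ h₁ h5.ne' h6.ne').differentiableAt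
  · intro σ v hσ hv
    obtain ⟨h3, h4⟩ := abs_le.mp hv
    have h5 : T / 2 ≤ t + v := by linarith
    have h6 := h (t + v) H (by linarith) hH (by linarith) σ hσ
    have h7 : Real.log ‖GG χ₁ χ₂ α δ ⟨σ, t + v⟩‖ ≤ C - σ * EE N₁ N₂ α (t + v) := by
      have := (abs_le.mp h6).2
      linarith
    have h8 : |σ * (EE N₁ N₂ α (t + v) - EE N₁ N₂ α t)| ≤ 1 := by
      have e1 : EE N₁ N₂ α (t + v) - EE N₁ N₂ α t = (α - 1) * Real.log (1 + v / t) := by
        unfold EE
        have : Real.log (t + v) = Real.log t + Real.log (1 + v / t) := by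
          rw [← Real.log_mul ht0.ne']
          · congr 1
            field_simp
          · have : t * (1 + v / t) = t + v := by field_simp
            intro h0
            rw [h0, mul_zero] at this
            linarith
        rw [this]
        ring
      have hvt : |v / t| ≤ Y / T := by
        rw [abs_div, abs_of_pos ht0]
        exact div_le_div₀ hY hv hT0 ht1
      have hYT : Y / T ≤ 1 / 8 := by
        rw [div_le_iff₀ hT0]
        linarith
      have e2 := log_one_add_abs (u := v / t) (by linarith)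
      rw [e1, abs_mul, abs_mul, abs_of_pos (by linarith : 0 < α - 1)]
      calc |σ| * ((α - 1) * |Real.log (1 + v / t)|) ≤ H * (1 * (2 * (Y / T))) := by
            gcongr
            · linarith
            · linarith
        _ = (2 * H * Y) / T := by ring
        _ ≤ 1 := by
            rw [div_le_one hT0]
            nlinarith
    have h9 := (abs_le.mp h8).1
    have hG : 0 < ‖GG χ₁ χ₂ α δ ⟨σ, t + v⟩‖ := by
      apply norm_pos_iff.mpr
      unfold GG
      have e3 : 0 < δ + α * (t + v) := by nlinarith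
      apply div_ne_zero
      · exact XX_ne_zero h₂ (by simpa using e3.ne')
      · exact XX_ne_zero h₁ (by
          have : t + v ≠ 0 := by linarith
          simpa using this)
    rw [← Real.exp_log hG, ← Real.exp_add]
    apply Real.exp_le_exp.mpr
    have e4 : σ * (EE N₁ N₂ α (t + v) - EE N₁ N₂ α t) = σ * EE N₁ N₂ α (t + v) -
        σ * EE N₁ N₂ α t := by ring
    rw [e4] at h9
    linarith

/-- the functional equation of the continued quotient -/
theorem D_fe (h₁ : χ₁.IsPrimitive) (h₂ : χ₂.IsPrimitive) (D : ℂ → ℂ) {U : Set ℂ} (hU : IsOpen U)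
    (hpos : ∀ z ∈ U, 0 < z.im ∧ 0 < δ + α * z.im)
    (hsym : ∀ z ∈ U, -(starRingEnd ℂ) z ∈ U)
    (hD : ∀ z ∈ U, AnalyticAt ℂ D z)
    (hDL : ∀ z ∈ U, DirichletCharacter.LFunction χ₂ (1 / 2 + δ * I + α * z) =
        D z * DirichletCharacter.LFunction χ₁ (1 / 2 + z))
    (hne : ∀ z ∈ U, ∀ᶠ w in 𝓝 z, w ≠ z → DirichletCharacter.LFunction χ₁ (1 / 2 + w) ≠ 0) :
    ∀ z ∈ U, D z = GG χ₁ χ₂ α δ z * (starRingEnd ℂ) (D (-(starRingEnd ℂ) z)) := by
  have key : ∀ z ∈ U, DirichletCharacter.LFunction χ₁ (1 / 2 + z) ≠ 0 →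
      D z = GG χ₁ χ₂ α δ z * (starRingEnd ℂ) (D (-(starRingEnd ℂ) z)) := by
    intro z hz hnz
    obtain ⟨p1, p2⟩ := hpos z hz
    have e1 : D z = DirichletCharacter.LFunction χ₂ (1 / 2 + δ * I + α * z) /
        DirichletCharacter.LFunction χ₁ (1 / 2 + z) := by
      rw [hDL z hz, mul_div_cancel_right₀ _ hnz]
    have hnz' : DirichletCharacter.LFunction χ₁ (1 / 2 + (-(starRingEnd ℂ) z)) ≠ 0 := by
      intro h0
      apply hnz
      have e2 : (1 : ℂ) - (starRingEnd ℂ) (1 / 2 + z) = 1 / 2 + (-(starRingEnd ℂ) z) := by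
        simp only [map_add, map_div₀, map_one, map_ofNat]
        ring
      rw [func_eq h₁ (s := 1 / 2 + z) (by simpa using p1.ne')]
      unfold H370.DL.refl
      rw [e2, h0]
      simp
    have e3 : D (-(starRingEnd ℂ) z) =
        DirichletCharacter.LFunction χ₂ (1 / 2 + δ * I + α * (-(starRingEnd ℂ) z)) /
        DirichletCharacter.LFunction χ₁ (1 / 2 + (-(starRingEnd ℂ) z)) := by
      rw [hDL _ (hsym z hz), mul_div_cancel_right₀ _ hnz']
    rw [e1, e3]
    exact quot_fe χ₁ χ₂ α δ h₁ h₂ p1.ne' p2.ne'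
  intro z hz
  obtain ⟨p1, p2⟩ := hpos z hz
  have hc1 : ContinuousAt D z := (hD z hz).continuousAt
  have hc2 : ContinuousAt (fun w => GG χ₁ χ₂ α δ w * (starRingEnd ℂ) (D (-(starRingEnd ℂ) w))) z := by
    have e1 : ContinuousAt (GG χ₁ χ₂ α δ) z :=
      (GG_analytic χ₁ χ₂ α δ h₁ p1.ne' p2.ne').continuousAt
    have e2 : ContinuousAt (fun w : ℂ => -(starRingEnd ℂ) w) z := by fun_prop
    have e3 : ContinuousAt D (-(starRingEnd ℂ) z) := (hD _ (hsym z hz)).continuousAt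
    have e4 : ContinuousAt (fun w : ℂ => D (-(starRingEnd ℂ) w)) z :=
      ContinuousAt.comp (f := fun w : ℂ => -(starRingEnd ℂ) w) (g := D) e3 e2
    have e5 : ContinuousAt (fun w : ℂ => (starRingEnd ℂ) (D (-(starRingEnd ℂ) w))) z :=
      (Complex.continuous_conj.continuousAt).comp e4
    exact e1.mul e5
  have hev : ∀ᶠ w in 𝓝[≠] z, D w = GG χ₁ χ₂ α δ w * (starRingEnd ℂ) (D (-(starRingEnd ℂ) w)) := by
    rw [eventually_nhdsWithin_iff]
    filter_upwards [hne z hz, hU.mem_nhds hz] with w h1 h2 h3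
    exact key w h2 (h1 h3)
  have t1 : Tendsto D (𝓝[≠] z) (𝓝 (D z)) := hc1.tendsto.mono_left nhdsWithin_le_nhds
  have t2 := hc2.tendsto.mono_left (nhdsWithin_le_nhds (a := z) (s := {z}ᶜ))
  exact tendsto_nhds_unique_of_eventuallyEq t1 t2 hev

end Pool.Agent.T9h53.SZ
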