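import Pool.Agent.T9h53.SZ.Core1

/-! # Both sides of the window identity -/

set_option autoImplicit false

open Complex Filter Topology Set MeasureTheory

namespace Pool.Agent.T9h53.SZ

variable {N₁ N₂ : ℕ} [NeZero N₁] [NeZero N₂] (χ₁ : DirichletCharacter ℂ N₁)
  (χ₂ : DirichletCharacter ℂ N₂) (α δ : ℝ)

/-- the error factor -/
noncomputable def tau (H Y η : ℝ) : ℝ :=
  2 * (H + 1) * Real.exp (1 - Y ^ 2 / H ^ 2) + 2 * Real.exp 1 * Y * Real.exp (-((H - 1) * η))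

lemma VV_congr {F G : ℂ → ℂ} {H Y t c : ℝ} (hY : 0 ≤ Y)
    (h : ∀ v : ℝ, -Y ≤ v → v ≤ Y → F ⟨c, t + v⟩ = G ⟨c, t + v⟩) : VV F H Y t c = VV G H Y t c := by
  unfold VV
  apply intervalIntegral.integral_congr
  intro v hv
  rw [uIcc_of_le (by linarith)] at hv
  simp only
  rw [h v hv.1 hv.2]

omit [NeZero N₁] [NeZero N₂] in
lemma cc_main {q : ℕ} (hq : 1 ≤ q) (hχq : ‖χ₂ (q : ZMod N₂)‖ = 1) :
    ‖cc χ₁ χ₂ δ (q, 1)‖ = (q : ℝ) ^ (-(1 / 2) : ℝ) := by
  unfold cc a1 a2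
  simp only [Nat.cast_one, map_one, one_ne_zero, if_false, ArithmeticFunction.moebius_apply_one,
    Int.cast_one, one_cpow, mul_one]
  rw [if_neg (by omega), norm_mul, hχq, one_mul, Complex.norm_natCast_cpow_of_pos (by omega)]
  congr 1
  simp

omit [NeZero N₁] [NeZero N₂] in
theorem right_ge (hα : 1 < α) {H Y t κ : ℝ} {q : ℕ} (hH : 2 ≤ H) (hY : H ≤ Y) (hq : 1 ≤ q)
    (hχq : ‖χ₂ (q : ZMod N₂)‖ = 1) (hκ : 0 ≤ κ)
    (hgap : ∀ p : ℕ × ℕ, cc χ₁ χ₂ δ p ≠ 0 → p ≠ (q, 1) → κ ≤ |α * Real.log q - nu α p|)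
    (F : ℂ → ℂ)
    (hF : ∀ v : ℝ, -Y ≤ v → v ≤ Y → F ⟨1, t + v⟩ =
      ∑' p, cc χ₁ χ₂ δ p * cexp (((α * Real.log q - nu α p : ℝ) : ℂ) * ⟨1, t + v⟩)) :
    (q : ℝ) ^ (-(1 / 2) : ℝ) * (2 * H * Real.exp (-1) - 2 * Real.exp (1 - Y ^ 2 / H ^ 2)) -
      S0 * (Real.exp (α * Real.log q) * tau H Y κ) ≤ ‖VV F H Y t 1‖ := by
  classical
  have hH0 : 0 < H := by linarith
  have hY0 : 0 ≤ Y := by linarith
  have hA : Amp (fun _ => (1 : ℂ)) 1 0 H Y t :=
    ⟨fun z _ _ => differentiableAt_const _, fun σ v _ _ => by simp⟩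
  have hsum : Summable fun p => ‖cc χ₁ χ₂ δ p‖ *
      Real.exp (1 * (α * Real.log q - nu α p)) := by
    have := (cc_summable χ₁ χ₂ α δ hα.le).mul_right (Real.exp (α * Real.log q))
    refine this.congr fun p => ?_
    rw [mul_assoc, ← Real.exp_add]
    congr 2
    ring
  have h1 := VV_hasSum (cc χ₁ χ₂ δ) (fun p => α * Real.log q - nu α p) hA hY0 (x := 1)
    (by rw [abs_one]; linarith) hsum
  have h2 : VV (fun z => 1 * ∑' p, cc χ₁ χ₂ δ p *
      cexp (((α * Real.log q - nu α p : ℝ) : ℂ) * z)) H Y t 1 = VV F H Y t 1 := by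
    apply VV_congr hY0
    intro v hv1 hv2
    rw [hF v hv1 hv2, one_mul]
  rw [h2] at h1
  -- subtract the main term
  set f : ℕ × ℕ → ℂ := fun p => cc χ₁ χ₂ δ p *
    VV (tm (fun _ => 1) (α * Real.log q - nu α p)) H Y t 1 with hf
  have h3 : HasSum (fun p => if p = (q, 1) then f (q, 1) else 0) (f (q, 1)) := by
    exact hasSum_ite_eq (q, 1) (f (q, 1))
  have h4 := h1.sub h3
  have h5 : HasSum (fun p => (‖cc χ₁ χ₂ δ p‖ * Real.exp (-nu α p)) *
      (Real.exp (α * Real.log q) * tau H Y κ))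
      ((∑' p, ‖cc χ₁ χ₂ δ p‖ * Real.exp (-nu α p)) * (Real.exp (α * Real.log q) * tau H Y κ)) :=
    (cc_summable χ₁ χ₂ α δ hα.le).hasSum.mul_right _
  have htau : 0 ≤ tau H Y κ := by
    unfold tau
    positivity
  have h6 : ∀ p, ‖f p - (if p = (q, 1) then f (q, 1) else 0)‖ ≤
      (‖cc χ₁ χ₂ δ p‖ * Real.exp (-nu α p)) * (Real.exp (α * Real.log q) * tau H Y κ) := by
    intro p
    by_cases hp : p = (q, 1)
    · rw [hp, if_pos rfl, sub_self, norm_zero]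
      positivity
    · rw [if_neg hp, sub_zero]
      by_cases hc : cc χ₁ χ₂ δ p = 0
      · simp [hf, hc]
      · have hg := hgap p hc hp
        have e1 := hA.far (α * Real.log q - nu α p) zero_le_one (by linarith) hY0 (s₀ := 1)
          (η := κ) (by rw [abs_one]) hκ (by rw [sub_zero]; exact hg)
        rw [hf]
        simp only [norm_mul]
        have e2 : 1 * Real.exp (1 * (α * Real.log q - nu α p - 0)) =
            Real.exp (-nu α p) * Real.exp (α * Real.log q) := by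
          rw [← Real.exp_add, one_mul]
          congr 1
          ring
        rw [e2] at e1
        calc ‖cc χ₁ χ₂ δ p‖ * ‖VV (tm (fun _ => 1) (α * Real.log q - nu α p)) H Y t 1‖ ≤
            ‖cc χ₁ χ₂ δ p‖ * (Real.exp (-nu α p) * Real.exp (α * Real.log q) * tau H Y κ) := by
              gcongr
              exact e1
          _ = _ := by ring
  have h7 := HasSum.norm_le_of_bounded h4 h5 h6
  have h8 : (∑' p, ‖cc χ₁ χ₂ δ p‖ * Real.exp (-nu α p)) *
      (Real.exp (α * Real.log q) * tau H Y κ) ≤ S0 * (Real.exp (α * Real.log q) * tau H Y κ) := by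
    apply mul_le_mul_of_nonneg_right (cc_tsum_le χ₁ χ₂ α δ hα.le)
    positivity
  have h9 : (q : ℝ) ^ (-(1 / 2) : ℝ) *
      (2 * H * Real.exp (-1) - 2 * Real.exp (1 - Y ^ 2 / H ^ 2)) ≤ ‖f (q, 1)‖ := by
    have e1 : α * Real.log q - nu α (q, 1) = 0 := by
      unfold nu
      simp
    rw [hf]
    simp only [e1]
    rw [norm_mul, cc_main χ₁ χ₂ δ hq hχq]
    have e2 := main_term (t := t) (by linarith : 1 ≤ H) hY
    have e3 : ((0 : ℝ) : ℂ) = 0 := by simp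
    apply mul_le_mul_of_nonneg_left _ (by positivity)
    exact e2
  have h10 : ‖f (q, 1)‖ ≤ ‖VV F H Y t 1‖ + ‖VV F H Y t 1 - f (q, 1)‖ := by
    calc ‖f (q, 1)‖ = ‖VV F H Y t 1 - (VV F H Y t 1 - f (q, 1))‖ := by rw [sub_sub_cancel]
      _ ≤ _ := norm_sub_le _ _
  linarith

/-- the dual Dirichlet polynomial -/
noncomputable def PP (q : ℕ) (S : Finset (ℕ × ℕ)) (u : ℝ) : ℂ :=
  ∑ p ∈ S, (starRingEnd ℂ) (cc χ₁ χ₂ δ p) *
    cexp (((nu α p + α * Real.log q : ℝ) : ℂ) * ⟨0, u⟩)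

omit [NeZero N₁] [NeZero N₂] in
lemma PP_cont (q : ℕ) (S : Finset (ℕ × ℕ)) : Continuous (PP χ₁ χ₂ α δ q S) := by
  unfold PP
  simp only [mk_eq]
  fun_prop

theorem left_le (hα : 1 < α) {H Y t η C E : ℝ} {q : ℕ} (hH : 2 ≤ H) (hY : 0 ≤ Y) (hC : 0 ≤ C)
    (hη : 0 ≤ η) (hA : Amp (GG χ₁ χ₂ α δ) C E H Y t) (S : Finset (ℕ × ℕ))
    (hS1 : ∀ p ∉ S, cc χ₁ χ₂ δ p ≠ 0 → η ≤ |nu α p + α * Real.log q - E|)
    (hS2 : ∀ p ∈ S, |nu α p + α * Real.log q - E| ≤ 1)
    (F : ℂ → ℂ)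
    (hF : ∀ v : ℝ, -Y ≤ v → v ≤ Y → F ⟨-1, t + v⟩ =
      GG χ₁ χ₂ α δ ⟨-1, t + v⟩ * ∑' p, (starRingEnd ℂ) (cc χ₁ χ₂ δ p) *
        cexp (((nu α p + α * Real.log q : ℝ) : ℂ) * ⟨-1, t + v⟩)) :
    ‖VV F H Y t (-1)‖ ≤ C * (∫ v in (-Y)..Y, ‖PP χ₁ χ₂ α δ q S (t + v)‖ *
      Real.exp (-(v ^ 2 / H ^ 2))) +
      S0 * (C * Real.exp E * Real.exp (-(α * Real.log q)) * tau H Y η) := by
  classical
  have hH0 : 0 < H := by linarith
  have hnorm : ∀ p, ‖(starRingEnd ℂ) (cc χ₁ χ₂ δ p)‖ = ‖cc χ₁ χ₂ δ p‖ := fun p =>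
    Complex.norm_conj _
  have hsum : Summable fun p => ‖(starRingEnd ℂ) (cc χ₁ χ₂ δ p)‖ *
      Real.exp (-1 * (nu α p + α * Real.log q)) := by
    have := (cc_summable χ₁ χ₂ α δ hα.le).mul_right (Real.exp (-(α * Real.log q)))
    refine this.congr fun p => ?_
    rw [hnorm, mul_assoc, ← Real.exp_add]
    congr 2
    ring
  have h1 := VV_hasSum (fun p => (starRingEnd ℂ) (cc χ₁ χ₂ δ p))
    (fun p => nu α p + α * Real.log q) hA hY (x := -1)
    (by rw [abs_neg, abs_one]; linarith) hsum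
  have h2 : VV (fun z => GG χ₁ χ₂ α δ z * ∑' p, (starRingEnd ℂ) (cc χ₁ χ₂ δ p) *
      cexp (((nu α p + α * Real.log q : ℝ) : ℂ) * z)) H Y t (-1) = VV F H Y t (-1) := by
    apply VV_congr hY
    intro v hv1 hv2
    rw [hF v hv1 hv2]
  rw [h2] at h1
  set g : ℕ × ℕ → ℂ := fun p => (starRingEnd ℂ) (cc χ₁ χ₂ δ p) *
    VV (tm (GG χ₁ χ₂ α δ) (nu α p + α * Real.log q)) H Y t 0 with hg
  have h3 : HasSum (fun p => if p ∈ S then g p else 0) (∑ p ∈ S, g p) := by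
    have : HasSum (fun p => if p ∈ S then g p else 0) (∑ p ∈ S, (if p ∈ S then g p else 0)) :=
      hasSum_sum_of_ne_finset_zero (fun p hp => if_neg hp)
    have e1 : ∑ p ∈ S, (if p ∈ S then g p else 0) = ∑ p ∈ S, g p :=
      Finset.sum_congr rfl fun p hp => if_pos hp
    rwa [e1] at this
  have h4 := h1.sub h3
  have htau : 0 ≤ tau H Y η := by
    unfold tau
    positivity
  have h5 : HasSum (fun p => (‖cc χ₁ χ₂ δ p‖ * Real.exp (-nu α p)) *
      (C * Real.exp E * Real.exp (-(α * Real.log q)) * tau H Y η))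
      ((∑' p, ‖cc χ₁ χ₂ δ p‖ * Real.exp (-nu α p)) *
        (C * Real.exp E * Real.exp (-(α * Real.log q)) * tau H Y η)) :=
    (cc_summable χ₁ χ₂ α δ hα.le).hasSum.mul_right _
  have e2 : ∀ p, C * Real.exp (-1 * (nu α p + α * Real.log q - E)) =
      C * Real.exp E * Real.exp (-(α * Real.log q)) * Real.exp (-nu α p) := by
    intro p
    rw [mul_assoc, mul_assoc, ← Real.exp_add, ← Real.exp_add]
    congr 2
    ring
  have hneartau : 2 * Real.exp 1 * Real.exp (1 - Y ^ 2 / H ^ 2) ≤ tau H Y η := by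
    unfold tau
    have h10 : Real.exp 1 ≤ 3 := Real.exp_one_lt_three.le
    have h11 : 2 * Real.exp 1 * Real.exp (1 - Y ^ 2 / H ^ 2) ≤
        2 * (H + 1) * Real.exp (1 - Y ^ 2 / H ^ 2) := by
      gcongr
      linarith
    have h12 : 0 ≤ 2 * Real.exp 1 * Y * Real.exp (-((H - 1) * η)) := by positivity
    linarith
  have h6 : ∀ p, ‖(starRingEnd ℂ) (cc χ₁ χ₂ δ p) *
      VV (tm (GG χ₁ χ₂ α δ) (nu α p + α * Real.log q)) H Y t (-1) -
      (if p ∈ S then g p else 0)‖ ≤ (‖cc χ₁ χ₂ δ p‖ * Real.exp (-nu α p)) *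
        (C * Real.exp E * Real.exp (-(α * Real.log q)) * tau H Y η) := by
    intro p
    by_cases hp : p ∈ S
    · rw [if_pos hp, hg]
      simp only
      rw [← mul_sub, norm_mul, hnorm]
      have e1 := hA.near (nu α p + α * Real.log q) hC (by linarith) hY (hS2 p hp)
      rw [e2] at e1
      calc ‖cc χ₁ χ₂ δ p‖ * ‖VV (tm (GG χ₁ χ₂ α δ) (nu α p + α * Real.log q)) H Y t (-1) -
            VV (tm (GG χ₁ χ₂ α δ) (nu α p + α * Real.log q)) H Y t 0‖ ≤
          ‖cc χ₁ χ₂ δ p‖ * (C * Real.exp E * Real.exp (-(α * Real.log q)) * Real.exp (-nu α p) *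
            tau H Y η) := by
            gcongr
            refine e1.trans ?_
            gcongr
        _ = _ := by ring
    · rw [if_neg hp, sub_zero, norm_mul, hnorm]
      rcases eq_or_ne (cc χ₁ χ₂ δ p) 0 with hc | hc
      · rw [hc, norm_zero, zero_mul, zero_mul, zero_mul]
      have e1 := hA.far (nu α p + α * Real.log q) hC (by linarith) hY (s₀ := -1)
          (η := η) (by rw [abs_neg, abs_one]) hη (hS1 p hp hc)
      rw [e2] at e1
      calc ‖cc χ₁ χ₂ δ p‖ * ‖VV (tm (GG χ₁ χ₂ α δ) (nu α p + α * Real.log q)) H Y t (-1)‖ ≤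
          ‖cc χ₁ χ₂ δ p‖ * (C * Real.exp E * Real.exp (-(α * Real.log q)) * Real.exp (-nu α p) *
            tau H Y η) := by
            gcongr
            exact e1
        _ = _ := by ring
  have h7 := HasSum.norm_le_of_bounded h4 h5 h6
  have h8 : (∑' p, ‖cc χ₁ χ₂ δ p‖ * Real.exp (-nu α p)) *
      (C * Real.exp E * Real.exp (-(α * Real.log q)) * tau H Y η) ≤
      S0 * (C * Real.exp E * Real.exp (-(α * Real.log q)) * tau H Y η) := by
    apply mul_le_mul_of_nonneg_right (cc_tsum_le χ₁ χ₂ α δ hα.le)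
    positivity
  have h9 : ∑ p ∈ S, g p = ∫ v in (-Y)..Y, GG χ₁ χ₂ α δ ⟨0, t + v⟩ *
      PP χ₁ χ₂ α δ q S (t + v) * ker H 0 v := by
    rw [hg]
    unfold VV PP tm
    rw [← Finset.sum_congr rfl (fun p _ => intervalIntegral.integral_const_mul _ _),
      ← intervalIntegral.integral_finsetSum]
    · apply intervalIntegral.integral_congr
      intro v _
      simp only
      rw [Finset.mul_sum, Finset.sum_mul]
      refine Finset.sum_congr rfl fun p _ => ?_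
      ring
    · intro p _
      apply ContinuousOn.intervalIntegrable
      rw [uIcc_of_le (by linarith)]
      refine continuousOn_const.mul (ContinuousOn.mul (ContinuousOn.mul
        (hA.contOn (by rw [abs_zero]; linarith)) ?_) (ker_cont H 0).continuousOn)
      simp only [mk_eq]
      fun_prop
  have h10 : ‖∑ p ∈ S, g p‖ ≤ C * (∫ v in (-Y)..Y, ‖PP χ₁ χ₂ α δ q S (t + v)‖ *
      Real.exp (-(v ^ 2 / H ^ 2))) := by
    rw [h9, ← intervalIntegral.integral_const_mul]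
    apply intervalIntegral.norm_integral_le_of_norm_le (by linarith)
    · refine Filter.Eventually.of_forall fun v hv => ?_
      have hv2 : |v| ≤ Y := abs_le.mpr ⟨hv.1.le, hv.2⟩
      have e1 := hA.bd 0 v (by rw [abs_zero]; linarith) hv2
      rw [zero_mul, neg_zero, Real.exp_zero, mul_one] at e1
      rw [norm_mul, norm_mul, ker_norm]
      have e3 : ((0 : ℝ) ^ 2 - v ^ 2) / H ^ 2 = -(v ^ 2 / H ^ 2) := by ring
      rw [e3, mul_assoc]
      apply mul_le_mul_of_nonneg_right e1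
      positivity
    · apply Continuous.intervalIntegrable
      have := PP_cont χ₁ χ₂ α δ q S
      fun_prop
  have h11 : ‖VV F H Y t (-1)‖ ≤ ‖∑ p ∈ S, g p‖ + ‖VV F H Y t (-1) - ∑ p ∈ S, g p‖ := by
    calc ‖VV F H Y t (-1)‖ = ‖∑ p ∈ S, g p + (VV F H Y t (-1) - ∑ p ∈ S, g p)‖ := by
          rw [add_sub_cancel]
      _ ≤ _ := norm_add_le _ _
  linarith

end Pool.Agent.T9h53.SZ
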