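import Pool.Agent.H370R2.DirGood

/-! # The size of the gamma function on a horizontal line -/

set_option autoImplicit false

open Complex Filter Topology Set

namespace Pool.Agent.T9h53.SZ

open H370.DG (lG exp_lG hasDerivAt_lG)

/-- `log |Γ(x + iy)| - x log y` -/
noncomputable def gphi (y x : ℝ) : ℝ := Real.log ‖Gamma (⟨x, y⟩ : ℂ)‖ - x * Real.log y

lemma ne_neg_nat {x y : ℝ} (hy : 0 < y) (m : ℕ) : (⟨x, y⟩ : ℂ) ≠ -(m : ℂ) := by
  intro h
  have := congrArg Complex.im h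
  simp at this
  linarith

lemma Gamma_norm_pos {x y : ℝ} (hy : 0 < y) : 0 < ‖Gamma (⟨x, y⟩ : ℂ)‖ :=
  norm_pos_iff.mpr (Gamma_ne_zero (ne_neg_nat hy))

lemma gphi_step {x y X : ℝ} (hy : 0 < y) (hx : |x| ≤ X) :
    |gphi y (x + 1) - gphi y x| ≤ X ^ 2 / (2 * y ^ 2) := by
  have h0 : (⟨x, y⟩ : ℂ) ≠ 0 := by
    intro h
    have := congrArg Complex.im h
    simp at this
    linarith
  have h1 : (⟨x + 1, y⟩ : ℂ) = ⟨x, y⟩ + 1 := by
    apply Complex.ext <;> simp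
  have h2 : Real.log ‖Gamma (⟨x + 1, y⟩ : ℂ)‖ =
      Real.log ‖(⟨x, y⟩ : ℂ)‖ + Real.log ‖Gamma (⟨x, y⟩ : ℂ)‖ := by
    rw [h1, Gamma_add_one _ h0, norm_mul, Real.log_mul (norm_ne_zero_iff.mpr h0)
      (Gamma_norm_pos hy).ne']
  have h3 : Real.log ‖(⟨x, y⟩ : ℂ)‖ = Real.log y + Real.log (1 + x ^ 2 / y ^ 2) / 2 := by
    have e1 : ‖(⟨x, y⟩ : ℂ)‖ = Real.sqrt (x ^ 2 + y ^ 2) := by
      rw [Complex.norm_def, Complex.normSq_mk]
      congr 1
      ring
    have e2 : x ^ 2 + y ^ 2 = y ^ 2 * (1 + x ^ 2 / y ^ 2) := by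
      field_simp
      ring
    rw [e1, Real.log_sqrt (by positivity), e2, Real.log_mul (by positivity) (by positivity),
      Real.log_pow]
    push_cast
    ring
  have h4 : gphi y (x + 1) - gphi y x = Real.log (1 + x ^ 2 / y ^ 2) / 2 := by
    unfold gphi
    rw [h2, h3]
    ring
  have h5 : 0 ≤ x ^ 2 / y ^ 2 := by positivity
  have h6 : Real.log (1 + x ^ 2 / y ^ 2) ≤ x ^ 2 / y ^ 2 := by
    have := Real.log_le_sub_one_of_pos (show 0 < 1 + x ^ 2 / y ^ 2 by positivity)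
    linarith
  have h7 : 0 ≤ Real.log (1 + x ^ 2 / y ^ 2) := Real.log_nonneg (by linarith)
  have h8 : x ^ 2 ≤ X ^ 2 := by
    rw [← sq_abs x]
    exact pow_le_pow_left₀ (abs_nonneg _) hx 2
  have h9 : x ^ 2 / y ^ 2 ≤ X ^ 2 / y ^ 2 := by gcongr
  rw [h4, abs_of_nonneg (by linarith)]
  have : X ^ 2 / (2 * y ^ 2) = X ^ 2 / y ^ 2 / 2 := by field_simp
  rw [this]
  linarith

lemma gphi_up {x y X : ℝ} (hy : 0 < y) (n : ℕ) (h0 : -X ≤ x) (h1 : x + n ≤ X) :
    |gphi y (x + n) - gphi y x| ≤ n * (X ^ 2 / (2 * y ^ 2)) := by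
  induction n with
  | zero => simp
  | succ n ih =>
    push_cast at h1 ⊢
    have hn : (0 : ℝ) ≤ n := Nat.cast_nonneg n
    have h2 := ih (by linarith)
    have h3 : |gphi y (x + n + 1) - gphi y (x + n)| ≤ X ^ 2 / (2 * y ^ 2) :=
      gphi_step hy (abs_le.mpr ⟨by linarith, by linarith⟩)
    have h4 : gphi y (x + (n + 1)) - gphi y x =
        (gphi y (x + n + 1) - gphi y (x + n)) + (gphi y (x + n) - gphi y x) := by
      rw [show x + (n + 1 : ℝ) = x + n + 1 by ring]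
      ring
    rw [h4]
    refine (abs_add_le _ _).trans ?_
    linarith

lemma gphi_base : ∃ C : ℝ, 0 ≤ C ∧ ∀ y : ℝ, 1 ≤ y → ∀ x : ℝ, 1 ≤ x → x ≤ 2 →
    |gphi y x - gphi y 1| ≤ C := by
  obtain ⟨C, hC⟩ := H370.digamma_bound
  have hC0 : 0 ≤ C := by
    have := hC ⟨1, 1⟩ (by norm_num) (by norm_num) (by norm_num)
    exact (norm_nonneg _).trans this
  refine ⟨C, hC0, fun y hy x h1 h2 => ?_⟩
  have hy0 : 0 < y := by linarith
  have hnorm : ∀ u : ℝ, 0 < u → Real.log ‖Gamma (⟨u, y⟩ : ℂ)‖ = (lG ⟨u, y⟩).re := by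
    intro u hu
    rw [← exp_lG (s := ⟨u, y⟩) hu, Complex.norm_exp, Real.log_exp]
  -- the function
  let f : ℝ → ℂ := fun u => lG (⟨u, y⟩ : ℂ) - (u : ℂ) * (Real.log y : ℂ)
  have hmk : ∀ u : ℝ, (⟨u, y⟩ : ℂ) = (u : ℂ) + y * I := by
    intro u
    apply Complex.ext <;> simp
  have hder : ∀ u ∈ Icc (1 : ℝ) x, HasDerivWithinAt f (logDeriv Gamma (⟨u, y⟩ : ℂ) - Real.log y)
      (Icc (1 : ℝ) x) u := by
    intro u hu
    have hu0 : 0 < (⟨u, y⟩ : ℂ).re := by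
      simp only
      linarith [hu.1]
    have e1 := hasDerivAt_lG hu0
    rw [← H370.DG.logDeriv_Gamma hu0] at e1
    have e2 : HasDerivAt (fun v : ℝ => ((v : ℂ) + y * I)) 1 u := by
      simpa using (Complex.ofRealCLM.hasDerivAt (x := u)).add_const ((y : ℂ) * I)
    have e3 : HasDerivAt (fun v : ℝ => lG (⟨v, y⟩ : ℂ)) (logDeriv Gamma (⟨u, y⟩ : ℂ)) u := by
      have e4 : HasDerivAt lG (logDeriv Gamma (⟨u, y⟩ : ℂ)) ((u : ℂ) + y * I) := by
        rw [← hmk]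
        exact e1
      have e5 := HasDerivAt.comp u e4 e2
      rw [mul_one] at e5
      refine e5.congr_of_eventuallyEq (Filter.Eventually.of_forall fun v => ?_)
      simp only [Function.comp, hmk]
    have e6 : HasDerivAt (fun v : ℝ => (v : ℂ) * (Real.log y : ℂ)) (Real.log y : ℂ) u := by
      simpa using (Complex.ofRealCLM.hasDerivAt (x := u)).mul_const (Real.log y : ℂ)
    exact (e3.sub e6).hasDerivWithinAt
  have hb : ∀ u ∈ Icc (1 : ℝ) x, ‖logDeriv Gamma (⟨u, y⟩ : ℂ) - Real.log y‖ ≤ C := by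
    intro u hu
    have := hC (⟨u, y⟩ : ℂ) (by simp only; linarith [hu.1]) (by simp only; linarith [hu.2])
      (by simp only; rw [abs_of_pos hy0]; linarith)
    simpa only [abs_of_pos hy0] using this
  have h3 := (convex_Icc (1 : ℝ) x).norm_image_sub_le_of_norm_hasDerivWithin_le hder hb
    (left_mem_Icc.mpr h1) (right_mem_Icc.mpr h1)
  have h4 : gphi y x - gphi y 1 = (f x - f 1).re := by
    simp only [f, gphi, hnorm x (by linarith), hnorm 1 one_pos, sub_re, mul_re, ofReal_re,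
      ofReal_im, mul_zero, sub_zero]
  rw [h4]
  refine (abs_re_le_norm _).trans (h3.trans ?_)
  rw [Real.norm_eq_abs, abs_of_nonneg (by linarith)]
  nlinarith

/-- **the size of gamma in wide regions** -/
theorem gphi_main : ∃ C : ℝ, 0 ≤ C ∧ ∀ y X : ℝ, 1 ≤ y → 2 ≤ X → X ^ 3 ≤ y ^ 2 → ∀ x : ℝ, |x| ≤ X →
    |gphi y x - gphi y 1| ≤ C := by
  obtain ⟨C, hC0, hC⟩ := gphi_base
  refine ⟨C + 1, by linarith, fun y X hy hX hXy x hx => ?_⟩
  have hy0 : 0 < y := by linarith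
  obtain ⟨hx1, hx2⟩ := abs_le.mp hx
  have hsmall : ∀ n : ℕ, (n : ℝ) ≤ X + 2 → (n : ℝ) * (X ^ 2 / (2 * y ^ 2)) ≤ 1 := by
    intro n hn
    have h1 : (n : ℝ) * (X ^ 2 / (2 * y ^ 2)) = n * X ^ 2 / (2 * y ^ 2) := by ring
    rw [h1, div_le_one (by positivity)]
    have h2 : (n : ℝ) * X ^ 2 ≤ (X + 2) * X ^ 2 := by gcongr
    have h3 : (X + 2) * X ^ 2 ≤ 2 * X ^ 3 := by nlinarith [sq_nonneg X]
    linarith
  by_cases h1 : 1 ≤ x
  · obtain ⟨n, hn1, hn2⟩ : ∃ n : ℕ, 1 ≤ x - n ∧ x - n ≤ 2 := by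
      refine ⟨⌊x - 1⌋₊, ?_, ?_⟩
      · have := Nat.floor_le (show 0 ≤ x - 1 by linarith)
        linarith
      · have := Nat.lt_floor_add_one (x - 1)
        linarith
    have h2 := gphi_up (x := x - n) (X := X) hy0 n (by linarith) (by linarith)
    rw [sub_add_cancel] at h2
    have h3 := hsmall n (by linarith)
    have h4 := hC y hy (x - n) hn1 hn2
    calc |gphi y x - gphi y 1| ≤ |gphi y x - gphi y (x - n)| + |gphi y (x - n) - gphi y 1| :=
          abs_sub_le _ _ _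
      _ ≤ _ := by linarith
  · push Not at h1
    obtain ⟨n, hn1, hn2⟩ : ∃ n : ℕ, 1 ≤ x + n ∧ x + n ≤ 2 := by
      refine ⟨⌈1 - x⌉₊, ?_, ?_⟩
      · have := Nat.le_ceil (1 - x)
        linarith
      · have := Nat.ceil_lt_add_one (show 0 ≤ 1 - x by linarith)
        linarith
    have h2 := gphi_up (x := x) (X := X) hy0 n (by linarith) (by linarith)
    have h3 := hsmall n (by linarith)
    have h4 := hC y hy (x + n) hn1 hn2
    calc |gphi y x - gphi y 1| ≤ |gphi y x - gphi y (x + n)| + |gphi y (x + n) - gphi y 1| :=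
          abs_sub_le _ _ _
      _ ≤ _ := by rw [abs_sub_comm (gphi y x)]; linarith

end Pool.Agent.T9h53.SZ
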