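import Pool.Agent.T9h53.SZ.Bad

/-! # The choice of the auxiliary integer -/

set_option autoImplicit false

open Complex Filter Topology Set MeasureTheory

namespace Pool.Agent.T9h53.SZ

variable {N₁ N₂ : ℕ} (χ₁ : DirichletCharacter ℂ N₁) (χ₂ : DirichletCharacter ℂ N₂) (α δ : ℝ)

lemma cc_ne {p : ℕ × ℕ} (hc : cc χ₁ χ₂ δ p ≠ 0) : 1 ≤ p.1 ∧ 1 ≤ p.2 ∧ Squarefree p.2 := by
  refine ⟨?_, ?_, ?_⟩
  · by_contra h0
    apply hc
    have : p.1 = 0 := by omega
    unfold cc a2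
    rw [if_pos this, zero_mul]
  · by_contra h0
    apply hc
    have : p.2 = 0 := by omega
    unfold cc a1
    rw [if_pos this, mul_zero]
  · by_contra h0
    apply hc
    unfold cc a1
    rw [ArithmeticFunction.moebius_eq_zero_of_not_squarefree h0]
    simp

lemma log_two_half : (1 : ℝ) / 2 ≤ Real.log 2 := by
  have := Real.log_two_gt_d9
  linarith

lemma gap_one (hα : 1 < α) (p : ℕ × ℕ) (hc : cc χ₁ χ₂ δ p ≠ 0) (hp : p ≠ (1, 1)) :
    1 / (2 * ((1 : ℕ) : ℝ) ^ 2) ≤ |α * Real.log ((1 : ℕ) : ℝ) - nu α p| := by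
  obtain ⟨h1, h2, -⟩ := cc_ne χ₁ χ₂ δ hc
  have l1 : 0 ≤ Real.log p.1 := Real.log_nonneg (by exact_mod_cast h1)
  have l2 : 0 ≤ Real.log p.2 := Real.log_nonneg (by exact_mod_cast h2)
  have h3 : 2 ≤ p.1 ∨ 2 ≤ p.2 := by
    by_contra h0
    push Not at h0
    apply hp
    exact Prod.ext (by omega) (by omega)
  have h4 : Real.log 2 ≤ nu α p := by
    unfold nu
    rcases h3 with h | h
    · have : Real.log 2 ≤ Real.log p.1 := Real.log_le_log (by norm_num) (by exact_mod_cast h)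
      nlinarith
    · have : Real.log 2 ≤ Real.log p.2 := Real.log_le_log (by norm_num) (by exact_mod_cast h)
      nlinarith
  have h5 := log_two_half
  rw [Nat.cast_one, Real.log_one, mul_zero, zero_sub, abs_neg]
  refine le_trans ?_ (le_abs_self _)
  norm_num
  linarith

lemma gap_two (q : ℕ) (hq : 1 ≤ q) (p : ℕ × ℕ) (hc : cc χ₁ χ₂ δ p ≠ 0) (hp : p ≠ (q, 1)) :
    1 / (2 * (q : ℝ) ^ 2) ≤ |2 * Real.log q - nu 2 p| := by
  obtain ⟨h1, h2, h3⟩ := cc_ne χ₁ χ₂ δ hc
  have hq0 : (0 : ℝ) < q := by exact_mod_cast hq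
  have hq1 : (1 : ℝ) ≤ q := by exact_mod_cast hq
  have hp10 : (0 : ℝ) < p.1 := by exact_mod_cast h1
  have hp20 : (0 : ℝ) < p.2 := by exact_mod_cast h2
  have hne : q ^ 2 ≠ p.1 ^ 2 * p.2 := by
    intro h
    apply hp
    have hd : p.1 ∣ q := by
      have : p.1 ^ 2 ∣ q ^ 2 := ⟨p.2, h⟩
      exact (Nat.pow_dvd_pow_iff two_ne_zero).mp this
    obtain ⟨k, hk⟩ := hd
    have h4 : p.2 = k ^ 2 := by
      rw [hk, mul_pow] at h
      exact (Nat.eq_of_mul_eq_mul_left (by positivity) h).symm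
    have h5 : IsUnit k := by
      rw [h4, pow_two] at h3
      exact h3 k dvd_rfl
    have h6 : k = 1 := Nat.isUnit_iff.mp h5
    subst h6
    exact Prod.ext (by simpa using hk.symm) (by simpa using h4)
  have hlog1 : 2 * Real.log q = Real.log ((q ^ 2 : ℕ) : ℝ) := by
    push_cast
    rw [Real.log_pow]
    push_cast
    ring
  have hlog2 : nu 2 p = Real.log ((p.1 ^ 2 * p.2 : ℕ) : ℝ) := by
    unfold nu
    push_cast
    rw [Real.log_mul (by positivity) (by positivity), Real.log_pow]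
    push_cast
    ring
  rw [hlog1, hlog2]
  rcases le_or_gt ((p.1 ^ 2 * p.2 : ℕ) : ℝ) (2 * (q : ℝ) ^ 2) with h | h
  · apply log_nat_gap (by positivity) (by positivity) hne
    · push_cast
      nlinarith [sq_nonneg (q : ℝ)]
    · exact h
  · have h6 : Real.log 2 ≤ Real.log ((p.1 ^ 2 * p.2 : ℕ) : ℝ) - Real.log ((q ^ 2 : ℕ) : ℝ) := by
      rw [← Real.log_div (by positivity) (by positivity)]
      apply Real.log_le_log (by norm_num)
      rw [le_div_iff₀ (by positivity)]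
      push_cast at h ⊢
      linarith
    have h7 := log_two_half
    rw [abs_sub_comm]
    refine le_trans ?_ (le_abs_self _)
    have h8 : 1 / (2 * (q : ℝ) ^ 2) ≤ 1 / 2 := by
      apply one_div_le_one_div_of_le (by norm_num)
      nlinarith
    linarith

lemma ev_pow_log (n : ℕ) (C : ℝ) {s : ℝ} (hs : 0 < s) :
    ∀ᶠ T : ℝ in atTop, C * (Real.log T) ^ n ≤ T ^ s := by
  have h1 := (isLittleO_log_rpow_rpow_atTop (n : ℝ) hs).const_mul_left C
  filter_upwards [h1.bound one_pos, eventually_gt_atTop 1] with T hT hT1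
  have h2 : 0 ≤ Real.log T := Real.log_nonneg hT1.le
  rw [one_mul, Real.norm_of_nonneg (by positivity : (0 : ℝ) ≤ T ^ s), Real.rpow_natCast] at hT
  exact (le_abs_self _).trans hT

theorem params [NeZero N₁] [NeZero N₂] (hα : 1 < α) (hα2 : α ≤ 2) (K : ℕ) :
    ∃ M : ℝ, 0 < M ∧ ∀ᶠ T : ℝ in atTop, ∃ q : ℕ, 1 ≤ q ∧
      (q : ℝ) ≤ (1 + 2 * N₂) * (Real.log T) ^ K ∧ ‖χ₂ (q : ZMod N₂)‖ = 1 ∧
      (∀ p : ℕ × ℕ, cc χ₁ χ₂ δ p ≠ 0 → p ≠ (q, 1) →
        1 / (2 * (q : ℝ) ^ 2) ≤ |α * Real.log q - nu α p|) ∧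
      q * Real.exp (EE N₁ N₂ α (2 * T) + 1 - α * Real.log q) ≤ M * T / (Real.log T) ^ K := by
  have hN2 : (1 : ℝ) ≤ N₂ := by exact_mod_cast Nat.pos_of_ne_zero (NeZero.ne N₂)
  rcases lt_or_eq_of_le hα2 with hlt | heq
  · refine ⟨1, one_pos, ?_⟩
    filter_upwards [ev_pow_log K (Real.exp (c0 N₁ N₂ α + 1) * 2 ^ (α - 1)) (s := 2 - α)
      (by linarith), eventually_ge_atTop (Real.exp 1)] with T hT hTe
    have hT0 : 0 < T := (Real.exp_pos 1).trans_le hTe
    have hℓ : 1 ≤ Real.log T := (Real.le_log_iff_exp_le hT0).mpr hTe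
    have hℓK : 1 ≤ (Real.log T) ^ K := one_le_pow₀ hℓ
    refine ⟨1, le_rfl, ?_, ?_, fun p hc hp => gap_one χ₁ χ₂ α δ hα p hc hp, ?_⟩
    · push_cast
      nlinarith
    · simp
    · rw [Nat.cast_one, Real.log_one, mul_zero, sub_zero, one_mul, one_mul, le_div_iff₀
        (by positivity)]
      have e1 : Real.exp (EE N₁ N₂ α (2 * T) + 1) =
          (Real.exp (c0 N₁ N₂ α + 1) * 2 ^ (α - 1)) * T ^ (α - 1) := by
        unfold EE
        rw [Real.log_mul (by norm_num) hT0.ne',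
          show (α - 1) * (Real.log 2 + Real.log T) + c0 N₁ N₂ α + 1 =
            (c0 N₁ N₂ α + 1) + Real.log 2 * (α - 1) + Real.log T * (α - 1) by ring,
          Real.exp_add, Real.exp_add, ← Real.rpow_def_of_pos (by norm_num),
          ← Real.rpow_def_of_pos hT0]
      rw [e1]
      have e2 : T = T ^ (2 - α) * T ^ (α - 1) := by
        rw [← Real.rpow_add hT0]
        rw [show (2 - α) + (α - 1) = 1 by ring, Real.rpow_one]
      calc Real.exp (c0 N₁ N₂ α + 1) * 2 ^ (α - 1) * T ^ (α - 1) * Real.log T ^ K =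
          (Real.exp (c0 N₁ N₂ α + 1) * 2 ^ (α - 1) * Real.log T ^ K) * T ^ (α - 1) := by ring
        _ ≤ T ^ (2 - α) * T ^ (α - 1) := by gcongr
        _ = T := e2.symm
  · subst heq
    refine ⟨2 * Real.exp (c0 N₁ N₂ 2 + 1), by positivity, ?_⟩
    filter_upwards [eventually_ge_atTop (Real.exp 1)] with T hTe
    have hT0 : 0 < T := (Real.exp_pos 1).trans_le hTe
    have hℓ : 1 ≤ Real.log T := (Real.le_log_iff_exp_le hT0).mpr hTe
    have hℓK : 1 ≤ (Real.log T) ^ K := one_le_pow₀ hℓ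
    set c := ⌈(Real.log T) ^ K⌉₊ with hc
    have hc1 : (Real.log T) ^ K ≤ c := Nat.le_ceil _
    have hc2 : (c : ℝ) ≤ 2 * (Real.log T) ^ K := by
      have := Nat.ceil_lt_add_one (show 0 ≤ (Real.log T) ^ K by positivity)
      linarith
    refine ⟨1 + N₂ * c, by omega, ?_, ?_, fun p hc hp => ?_, ?_⟩
    · push_cast
      nlinarith
    · have : ((1 + N₂ * c : ℕ) : ZMod N₂) = 1 := by
        push_cast
        rw [ZMod.natCast_self]
        ring
      rw [this]
      simp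
    · exact gap_two χ₁ χ₂ δ _ (by omega) p hc hp
    · set q : ℕ := 1 + N₂ * c with hq
      have hqr : (Real.log T) ^ K ≤ q := by
        rw [hq]
        push_cast
        nlinarith
      have hq0 : (0 : ℝ) < q := by linarith
      have e1 : Real.exp (EE N₁ N₂ 2 (2 * T) + 1 - 2 * Real.log q) =
          Real.exp (c0 N₁ N₂ 2 + 1) * (2 * T) / (q * q) := by
        unfold EE
        rw [show ((2 : ℝ) - 1) * Real.log (2 * T) + c0 N₁ N₂ 2 + 1 - 2 * Real.log q =
            (c0 N₁ N₂ 2 + 1) + Real.log (2 * T) - (Real.log q + Real.log q) by ring,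
          Real.exp_sub, Real.exp_add, Real.exp_add (Real.log q), Real.exp_log (by positivity),
          Real.exp_log hq0]
      rw [e1]
      have e2 : (q : ℝ) * (Real.exp (c0 N₁ N₂ 2 + 1) * (2 * T) / (q * q)) =
          2 * Real.exp (c0 N₁ N₂ 2 + 1) * T / q := by
        field_simp
      rw [e2]
      gcongr

end Pool.Agent.T9h53.SZ
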