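import Mathlib

/-! # Shifting a Gaussian window -/

set_option autoImplicit false

open Complex Filter Topology Set MeasureTheory

namespace Pool.Agent.T9h53.SZ

/-- the Gaussian kernel -/
noncomputable def ker (H c v : ℝ) : ℂ := cexp ((⟨c, v⟩ : ℂ) ^ 2 / (H : ℂ) ^ 2)

/-- the Gaussian window of `F` on the line `Re z = c` at height `t` -/
noncomputable def VV (F : ℂ → ℂ) (H Y t c : ℝ) : ℂ := ∫ v in (-Y)..Y, F ⟨c, t + v⟩ * ker H c v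

lemma mk_eq (x y : ℝ) : (⟨x, y⟩ : ℂ) = (x : ℂ) + y * I := by
  apply Complex.ext <;> simp

lemma ker_norm (H c v : ℝ) : ‖ker H c v‖ = Real.exp ((c ^ 2 - v ^ 2) / H ^ 2) := by
  unfold ker
  rw [Complex.norm_exp]
  congr 1
  have h1 : (⟨c, v⟩ : ℂ) ^ 2 / (H : ℂ) ^ 2 = ((c ^ 2 - v ^ 2) / H ^ 2 : ℝ) +
      ((2 * c * v) / H ^ 2 : ℝ) * I := by
    rw [mk_eq]
    push_cast
    have : ((c : ℂ) + v * I) ^ 2 = (c ^ 2 - v ^ 2) + 2 * c * v * I := by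
      ring_nf
      rw [I_sq]
      ring
    rw [this]
    ring
  rw [h1]
  simp only [add_re, ofReal_re, mul_re, I_re, ofReal_im, I_im, mul_zero, zero_mul, sub_zero,
    add_zero]

lemma ker_cont (H c : ℝ) : Continuous (fun v : ℝ => ker H c v) := by
  unfold ker
  simp only [mk_eq]
  fun_prop

/-- the kernel of the shift lemma as a function of a complex variable -/
lemma shift_aux {F : ℂ → ℂ} {H Y t c₁ c₂ : ℝ} (hY : 0 ≤ Y) (hc : c₁ ≤ c₂)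
    (hF : ∀ z : ℂ, c₁ ≤ z.re → z.re ≤ c₂ → t - Y ≤ z.im → z.im ≤ t + Y → DifferentiableAt ℂ F z) :
    VV F H Y t c₂ - VV F H Y t c₁ =
      I * ((∫ c in c₁..c₂, F ⟨c, t + -Y⟩ * ker H c (-Y)) -
        ∫ c in c₁..c₂, F ⟨c, t + Y⟩ * ker H c Y) := by
  set f : ℂ → ℂ := fun u => F (u + t * I) * cexp (u ^ 2 / (H : ℂ) ^ 2) with hf
  have hd : DifferentiableOn ℂ f (Set.uIcc (⟨c₁, -Y⟩ : ℂ).re (⟨c₂, Y⟩ : ℂ).re ×ℂ
      Set.uIcc (⟨c₁, -Y⟩ : ℂ).im (⟨c₂, Y⟩ : ℂ).im) := by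
    intro u hu
    simp only [uIcc_of_le hc, uIcc_of_le (show -Y ≤ Y by linarith)] at hu
    obtain ⟨⟨h1, h2⟩, ⟨h3, h4⟩⟩ := hu
    have e1 := hF (u + t * I) (by simpa using h1) (by simpa using h2) (by simp; linarith)
      (by simp; linarith)
    apply DifferentiableAt.differentiableWithinAt
    rw [hf]
    refine DifferentiableAt.mul ?_ (by fun_prop)
    exact DifferentiableAt.comp u (g := F) (f := fun u => u + t * I) e1 (by fun_prop)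
  have h := Complex.integral_boundary_rect_eq_zero_of_differentiableOn f ⟨c₁, -Y⟩ ⟨c₂, Y⟩ hd
  have e1 : ∀ c v : ℝ, f (c + v * I) = F ⟨c, t + v⟩ * ker H c v := by
    intro c v
    rw [hf]
    simp only [ker, mk_eq]
    congr 2
    push_cast
    ring
  simp only [e1, smul_eq_mul] at h
  unfold VV
  set A := ∫ c in c₁..c₂, F ⟨c, t + -Y⟩ * ker H c (-Y)
  set B := ∫ c in c₁..c₂, F ⟨c, t + Y⟩ * ker H c Y
  set P := ∫ v in (-Y)..Y, F ⟨c₂, t + v⟩ * ker H c₂ v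
  set Q := ∫ v in (-Y)..Y, F ⟨c₁, t + v⟩ * ker H c₁ v
  have h2 : I * (P - Q) = -(A - B) := by linear_combination h
  have h3 : P - Q = -(I * (I * (P - Q))) := by
    rw [← mul_assoc, I_mul_I]
    ring
  rw [h3, h2]
  ring

/-- **the shift lemma** -/
theorem shift_le {F : ℂ → ℂ} {H Y t c₁ c₂ B : ℝ} (hY : 0 ≤ Y) (hc : c₁ ≤ c₂)
    (hF : ∀ z : ℂ, c₁ ≤ z.re → z.re ≤ c₂ → t - Y ≤ z.im → z.im ≤ t + Y → DifferentiableAt ℂ F z)
    (h1 : ∀ c : ℝ, c₁ ≤ c → c ≤ c₂ → ‖F ⟨c, t + -Y⟩‖ * Real.exp ((c ^ 2 - Y ^ 2) / H ^ 2) ≤ B)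
    (h2 : ∀ c : ℝ, c₁ ≤ c → c ≤ c₂ → ‖F ⟨c, t + Y⟩‖ * Real.exp ((c ^ 2 - Y ^ 2) / H ^ 2) ≤ B) :
    ‖VV F H Y t c₂ - VV F H Y t c₁‖ ≤ 2 * (B * (c₂ - c₁)) := by
  rw [shift_aux hY hc hF, norm_mul, norm_I, one_mul]
  refine (norm_sub_le _ _).trans ?_
  have k1 : ‖∫ c in c₁..c₂, F ⟨c, t + -Y⟩ * ker H c (-Y)‖ ≤ B * |c₂ - c₁| := by
    apply intervalIntegral.norm_integral_le_of_norm_le_const
    intro c hc'
    rw [uIoc_of_le hc] at hc'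
    rw [norm_mul, ker_norm, neg_sq]
    exact h1 c hc'.1.le hc'.2
  have k2 : ‖∫ c in c₁..c₂, F ⟨c, t + Y⟩ * ker H c Y‖ ≤ B * |c₂ - c₁| := by
    apply intervalIntegral.norm_integral_le_of_norm_le_const
    intro c hc'
    rw [uIoc_of_le hc] at hc'
    rw [norm_mul, ker_norm]
    exact h2 c hc'.1.le hc'.2
  rw [abs_of_nonneg (by linarith)] at k1 k2
  linarith

/-- the trivial bound -/
lemma VV_le {F : ℂ → ℂ} {H Y t c B : ℝ} (hY : 0 ≤ Y) (hH : 0 < H)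
    (h : ∀ v : ℝ, -Y ≤ v → v ≤ Y → ‖F ⟨c, t + v⟩‖ ≤ B) :
    ‖VV F H Y t c‖ ≤ 2 * (B * Real.exp (c ^ 2 / H ^ 2) * Y) := by
  unfold VV
  have k1 : ‖∫ v in (-Y)..Y, F ⟨c, t + v⟩ * ker H c v‖ ≤
      (B * Real.exp (c ^ 2 / H ^ 2)) * |Y - -Y| := by
    apply intervalIntegral.norm_integral_le_of_norm_le_const
    intro v hv
    rw [uIoc_of_le (by linarith)] at hv
    rw [norm_mul, ker_norm]
    have h3 := h v hv.1.le hv.2
    apply mul_le_mul h3 _ (Real.exp_pos _).le ((norm_nonneg _).trans h3)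
    apply Real.exp_le_exp.mpr
    apply div_le_div_of_nonneg_right _ (by positivity)
    nlinarith [sq_nonneg v]
  rw [abs_of_nonneg (by linarith)] at k1
  linarith

end Pool.Agent.T9h53.SZ
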