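import Pool.Agent.T9h53.SZ.Terms

/-! # The window of a generalised Dirichlet series -/

set_option autoImplicit false

open Complex Filter Topology Set MeasureTheory

namespace Pool.Agent.T9h53.SZ

lemma Amp.contOn {A : ℂ → ℂ} {C E H Y t : ℝ} (hA : Amp A C E H Y t) {x : ℝ} (hx : |x| ≤ H) :
    ContinuousOn (fun v : ℝ => A ⟨x, t + v⟩) (Icc (-Y) Y) := by
  intro v hv
  have h1 : ContinuousAt A (⟨x, t + v⟩ : ℂ) := by
    refine (hA.diff _ hx ?_).continuousAt
    simp only [add_sub_cancel_left]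
    exact abs_le.mpr ⟨hv.1, hv.2⟩
  have h2 : ContinuousAt (fun v : ℝ => (⟨x, t + v⟩ : ℂ)) v := by
    have : (fun v : ℝ => (⟨x, t + v⟩ : ℂ)) = fun v : ℝ => (x : ℂ) + ((t + v : ℝ) : ℂ) * I := by
      funext v
      rw [mk_eq]
    rw [this]
    fun_prop
  exact (ContinuousAt.comp (f := fun v : ℝ => (⟨x, t + v⟩ : ℂ)) (g := A) h1 h2).continuousWithinAt

theorem VV_hasSum {ι : Type} [Countable ι] (c : ι → ℂ) (ν : ι → ℝ) {A : ℂ → ℂ}
    {C E H Y t x : ℝ} (hA : Amp A C E H Y t) (hY : 0 ≤ Y) (hx : |x| ≤ H)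
    (hs : Summable fun i => ‖c i‖ * Real.exp (x * ν i)) :
    HasSum (fun i => c i * VV (tm A (ν i)) H Y t x)
      (VV (fun z => A z * ∑' i, c i * cexp (ν i * z)) H Y t x) := by
  have hsub : Set.uIoc (-Y) Y ⊆ Icc (-Y) Y := by
    rw [uIoc_of_le (by linarith)]
    exact Ioc_subset_Icc_self
  set K : ℝ := C * Real.exp (-(x * E)) * Real.exp (x ^ 2 / H ^ 2) with hK
  have key : ∀ i, c i * VV (tm A (ν i)) H Y t x =
      ∫ v in (-Y)..Y, c i * (tm A (ν i) ⟨x, t + v⟩ * ker H x v) := by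
    intro i
    unfold VV
    rw [intervalIntegral.integral_const_mul]
  simp_rw [key]
  unfold VV
  refine intervalIntegral.hasSum_integral_of_dominated_convergence
    (fun i _ => ‖c i‖ * Real.exp (x * ν i) * K) ?_ ?_ ?_ ?_ ?_
  · intro i
    have hcont : ContinuousOn (fun v : ℝ => c i * (tm A (ν i) ⟨x, t + v⟩ * ker H x v))
        (Icc (-Y) Y) := by
      refine continuousOn_const.mul (ContinuousOn.mul ?_ (ker_cont H x).continuousOn)
      unfold tm
      refine (hA.contOn hx).mul ?_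
      simp only [mk_eq]
      fun_prop
    exact (hcont.mono hsub).aestronglyMeasurable measurableSet_uIoc
  · intro i
    refine Filter.Eventually.of_forall fun v hv => ?_
    have hv' := hsub hv
    have hv2 : |v| ≤ Y := abs_le.mpr ⟨hv'.1, hv'.2⟩
    rw [norm_mul, norm_mul, ker_norm]
    have h1 := hA.tm_le (ν i) hx hv2
    have h2 : Real.exp ((x ^ 2 - v ^ 2) / H ^ 2) ≤ Real.exp (x ^ 2 / H ^ 2) := by
      apply Real.exp_le_exp.mpr
      apply div_le_div_of_nonneg_right _ (by positivity)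
      nlinarith [sq_nonneg v]
    have h3 : Real.exp (x * (ν i - E)) = Real.exp (x * ν i) * Real.exp (-(x * E)) := by
      rw [← Real.exp_add]
      congr 1
      ring
    rw [h3] at h1
    calc ‖c i‖ * (‖tm A (ν i) ⟨x, t + v⟩‖ * Real.exp ((x ^ 2 - v ^ 2) / H ^ 2)) ≤
        ‖c i‖ * ((C * (Real.exp (x * ν i) * Real.exp (-(x * E)))) * Real.exp (x ^ 2 / H ^ 2)) := by
          apply mul_le_mul_of_nonneg_left _ (norm_nonneg _)
          exact mul_le_mul h1 h2 (Real.exp_pos _).le ((norm_nonneg _).trans h1)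
      _ = _ := by rw [hK]; ring
  · exact Filter.Eventually.of_forall fun v _ => hs.mul_right K
  · exact intervalIntegrable_const
  · refine Filter.Eventually.of_forall fun v _ => ?_
    have hs2 : Summable fun i => c i * cexp (ν i * (⟨x, t + v⟩ : ℂ)) := by
      refine Summable.of_norm ?_
      refine hs.congr fun i => ?_
      rw [norm_mul, exp_norm]
    have h1 := (hs2.hasSum.mul_left (A ⟨x, t + v⟩)).mul_right (ker H x v)
    have h2 : (fun i => c i * (tm A (ν i) ⟨x, t + v⟩ * ker H x v)) =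
        fun i => A ⟨x, t + v⟩ * (c i * cexp (ν i * (⟨x, t + v⟩ : ℂ))) * ker H x v := by
      funext i
      unfold tm
      ring
    rw [h2]
    exact h1

end Pool.Agent.T9h53.SZ
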