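import Pool.Agent.T9h53.SZ.Shift

/-! # The contribution of one term -/

set_option autoImplicit false

open Complex Filter Topology Set MeasureTheory

namespace Pool.Agent.T9h53.SZ

/-- an amplitude of size `exp(-σE)` in the box -/
structure Amp (A : ℂ → ℂ) (C E H Y t : ℝ) : Prop where
  diff : ∀ z : ℂ, |z.re| ≤ H → |z.im - t| ≤ Y → DifferentiableAt ℂ A z
  bd : ∀ σ v : ℝ, |σ| ≤ H → |v| ≤ Y → ‖A ⟨σ, t + v⟩‖ ≤ C * Real.exp (-(σ * E))

/-- one term -/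
noncomputable def tm (A : ℂ → ℂ) (ν : ℝ) (z : ℂ) : ℂ := A z * cexp (ν * z)

lemma exp_norm (ν σ u : ℝ) : ‖cexp ((ν : ℂ) * ⟨σ, u⟩)‖ = Real.exp (σ * ν) := by
  rw [Complex.norm_exp]
  congr 1
  simp [mul_comm]

lemma Amp.tm_le {A : ℂ → ℂ} {C E H Y t : ℝ} (hA : Amp A C E H Y t) {σ v : ℝ} (ν : ℝ)
    (h1 : |σ| ≤ H) (h2 : |v| ≤ Y) : ‖tm A ν ⟨σ, t + v⟩‖ ≤ C * Real.exp (σ * (ν - E)) := by
  unfold tm
  rw [norm_mul, exp_norm]
  calc ‖A ⟨σ, t + v⟩‖ * Real.exp (σ * ν) ≤ (C * Real.exp (-(σ * E))) * Real.exp (σ * ν) := by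
        gcongr
        exact hA.bd σ v h1 h2
    _ = C * Real.exp (σ * (ν - E)) := by
        rw [mul_assoc, ← Real.exp_add]
        congr 2
        ring

lemma Amp.tm_diff {A : ℂ → ℂ} {C E H Y t : ℝ} (hA : Amp A C E H Y t) (ν : ℝ) {z : ℂ}
    (h1 : |z.re| ≤ H) (h2 : |z.im - t| ≤ Y) : DifferentiableAt ℂ (tm A ν) z := by
  unfold tm
  exact (hA.diff z h1 h2).mul (by fun_prop)

lemma ker_edge {H Y c : ℝ} (hH : 0 < H) (hc : |c| ≤ H) :
    Real.exp ((c ^ 2 - Y ^ 2) / H ^ 2) ≤ Real.exp (1 - Y ^ 2 / H ^ 2) := by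
  apply Real.exp_le_exp.mpr
  rw [sub_div]
  have : c ^ 2 / H ^ 2 ≤ 1 := by
    rw [div_le_one (by positivity), ← sq_abs c]
    exact pow_le_pow_left₀ (abs_nonneg _) hc 2
  linarith

/-- shifting one term between two lines -/
lemma Amp.shift {A : ℂ → ℂ} {C E H Y t : ℝ} (hA : Amp A C E H Y t) (ν : ℝ) (hC : 0 ≤ C)
    (hH : 0 < H) (hY : 0 ≤ Y) {c₁ c₂ B : ℝ} (h1 : -H ≤ c₁) (h2 : c₁ ≤ c₂) (h3 : c₂ ≤ H)
    (hB : ∀ c : ℝ, c₁ ≤ c → c ≤ c₂ → Real.exp (c * (ν - E)) ≤ B) :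
    ‖VV (tm A ν) H Y t c₂ - VV (tm A ν) H Y t c₁‖ ≤
      2 * (C * B * Real.exp (1 - Y ^ 2 / H ^ 2) * (c₂ - c₁)) := by
  have hc : ∀ c : ℝ, c₁ ≤ c → c ≤ c₂ → |c| ≤ H := fun c a b => abs_le.mpr ⟨by linarith, by linarith⟩
  apply shift_le hY h2
  · intro z a b d e
    exact hA.tm_diff ν (hc _ a b) (abs_le.mpr ⟨by linarith, by linarith⟩)
  · intro c a b
    have e1 := hA.tm_le (σ := c) (v := -Y) ν (hc c a b) (by rw [abs_neg, abs_of_nonneg hY])
    have e2 := ker_edge (Y := Y) hH (hc c a b)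
    have e3 : C * Real.exp (c * (ν - E)) ≤ C * B := mul_le_mul_of_nonneg_left (hB c a b) hC
    exact mul_le_mul (e1.trans e3) e2 (Real.exp_pos _).le
      ((norm_nonneg _).trans (e1.trans e3))
  · intro c a b
    have e1 := hA.tm_le (σ := c) (v := Y) ν (hc c a b) (by rw [abs_of_nonneg hY])
    have e2 := ker_edge (Y := Y) hH (hc c a b)
    have e3 : C * Real.exp (c * (ν - E)) ≤ C * B := mul_le_mul_of_nonneg_left (hB c a b) hC
    exact mul_le_mul (e1.trans e3) e2 (Real.exp_pos _).le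
      ((norm_nonneg _).trans (e1.trans e3))

lemma Amp.line {A : ℂ → ℂ} {C E H Y t : ℝ} (hA : Amp A C E H Y t) (ν : ℝ)
    (hH : 0 < H) (hY : 0 ≤ Y) {c : ℝ} (hc : |c| ≤ H) :
    ‖VV (tm A ν) H Y t c‖ ≤ 2 * (C * Real.exp (c * (ν - E)) * Real.exp 1 * Y) := by
  refine (VV_le hY hH (B := C * Real.exp (c * (ν - E)))
    (fun v h1 h2 => hA.tm_le ν hc (abs_le.mpr ⟨h1, h2⟩))).trans ?_
  have e1 : c ^ 2 / H ^ 2 ≤ 1 := by
    rw [div_le_one (by positivity), ← sq_abs c]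
    exact pow_le_pow_left₀ (abs_nonneg _) hc 2
  have e2 : 0 ≤ C * Real.exp (c * (ν - E)) := by
    have := hA.tm_le (σ := c) (v := 0) ν hc (by simpa using hY)
    exact (norm_nonneg _).trans this
  have e3 : Real.exp (c ^ 2 / H ^ 2) ≤ Real.exp 1 := Real.exp_le_exp.mpr e1
  gcongr

/-- **far terms** -/
theorem Amp.far {A : ℂ → ℂ} {C E H Y t : ℝ} (hA : Amp A C E H Y t) (ν : ℝ) (hC : 0 ≤ C)
    (hH : 1 ≤ H) (hY : 0 ≤ Y) {s₀ η : ℝ} (hs : |s₀| ≤ 1) (hη : 0 ≤ η) (hν : η ≤ |ν - E|) :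
    ‖VV (tm A ν) H Y t s₀‖ ≤ C * Real.exp (s₀ * (ν - E)) *
      (2 * (H + 1) * Real.exp (1 - Y ^ 2 / H ^ 2) + 2 * Real.exp 1 * Y *
        Real.exp (-((H - 1) * η))) := by
  obtain ⟨hs1, hs2⟩ := abs_le.mp hs
  have hH0 : 0 < H := by linarith
  set θ := ν - E with hθ
  rcases abs_cases θ with ⟨h1, h2⟩ | ⟨h1, h2⟩
  · -- shift to the left
    rw [h1] at hν
    have e1 := hA.shift ν hC hH0 hY (c₁ := -H) (c₂ := s₀) (B := Real.exp (s₀ * θ)) le_rfl
      (by linarith) (by linarith) (fun c _ hc2 => by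
        apply Real.exp_le_exp.mpr
        exact mul_le_mul_of_nonneg_right hc2 h2)
    have e2 := hA.line ν hH0 hY (c := -H) (by rw [abs_neg, abs_of_pos hH0])
    rw [← hθ] at e2
    have e3 : Real.exp (-H * θ) ≤ Real.exp (s₀ * θ) * Real.exp (-((H - 1) * η)) := by
      rw [← Real.exp_add]
      apply Real.exp_le_exp.mpr
      have : (H - 1) * η ≤ (H + s₀) * θ := by
        apply mul_le_mul _ hν hη (by linarith)
        linarith
      linarith
    have e4 : ‖VV (tm A ν) H Y t s₀‖ ≤ ‖VV (tm A ν) H Y t s₀ - VV (tm A ν) H Y t (-H)‖ +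
        ‖VV (tm A ν) H Y t (-H)‖ := by
      calc ‖VV (tm A ν) H Y t s₀‖ = ‖(VV (tm A ν) H Y t s₀ - VV (tm A ν) H Y t (-H)) +
            VV (tm A ν) H Y t (-H)‖ := by rw [sub_add_cancel]
        _ ≤ _ := norm_add_le _ _
    have e5 : 2 * (C * Real.exp (s₀ * θ) * Real.exp (1 - Y ^ 2 / H ^ 2) * (s₀ - -H)) ≤
        2 * (C * Real.exp (s₀ * θ) * Real.exp (1 - Y ^ 2 / H ^ 2) * (H + 1)) := by
      gcongr
      linarith
    have e6 : 2 * (C * Real.exp (-H * θ) * Real.exp 1 * Y) ≤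
        2 * (C * (Real.exp (s₀ * θ) * Real.exp (-((H - 1) * η))) * Real.exp 1 * Y) := by
      gcongr
    calc _ ≤ _ := e4
      _ ≤ _ := add_le_add (e1.trans e5) (e2.trans e6)
      _ = _ := by ring
  · rw [h1] at hν
    have e1 := hA.shift ν hC hH0 hY (c₁ := s₀) (c₂ := H) (B := Real.exp (s₀ * θ)) (by linarith)
      (by linarith) le_rfl (fun c hc1 _ => by
        apply Real.exp_le_exp.mpr
        exact mul_le_mul_of_nonpos_right hc1 h2.le)
    have e2 := hA.line ν hH0 hY (c := H) (by rw [abs_of_pos hH0])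
    rw [← hθ] at e2
    have e3 : Real.exp (H * θ) ≤ Real.exp (s₀ * θ) * Real.exp (-((H - 1) * η)) := by
      rw [← Real.exp_add]
      apply Real.exp_le_exp.mpr
      have : (H - 1) * η ≤ (H - s₀) * (-θ) := by
        apply mul_le_mul _ hν hη (by linarith)
        linarith
      linarith
    have e4 : ‖VV (tm A ν) H Y t s₀‖ ≤ ‖VV (tm A ν) H Y t H - VV (tm A ν) H Y t s₀‖ +
        ‖VV (tm A ν) H Y t H‖ := by
      calc ‖VV (tm A ν) H Y t s₀‖ = ‖VV (tm A ν) H Y t H - (VV (tm A ν) H Y t H -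
            VV (tm A ν) H Y t s₀)‖ := by rw [sub_sub_cancel]
        _ ≤ _ := by
          rw [add_comm]
          exact norm_sub_le _ _
    have e5 : 2 * (C * Real.exp (s₀ * θ) * Real.exp (1 - Y ^ 2 / H ^ 2) * (H - s₀)) ≤
        2 * (C * Real.exp (s₀ * θ) * Real.exp (1 - Y ^ 2 / H ^ 2) * (H + 1)) := by
      gcongr
      linarith
    have e6 : 2 * (C * Real.exp (H * θ) * Real.exp 1 * Y) ≤
        2 * (C * (Real.exp (s₀ * θ) * Real.exp (-((H - 1) * η))) * Real.exp 1 * Y) := by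
      gcongr
    calc _ ≤ _ := e4
      _ ≤ _ := add_le_add (e1.trans e5) (e2.trans e6)
      _ = _ := by ring

/-- **near terms** -/
theorem Amp.near {A : ℂ → ℂ} {C E H Y t : ℝ} (hA : Amp A C E H Y t) (ν : ℝ) (hC : 0 ≤ C)
    (hH : 1 ≤ H) (hY : 0 ≤ Y) (hν : |ν - E| ≤ 1) :
    ‖VV (tm A ν) H Y t (-1) - VV (tm A ν) H Y t 0‖ ≤
      C * Real.exp (-1 * (ν - E)) * (2 * Real.exp 1 * Real.exp (1 - Y ^ 2 / H ^ 2)) := by
  obtain ⟨hν1, hν2⟩ := abs_le.mp hν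
  have e1 := hA.shift ν hC (by linarith) hY (c₁ := -1) (c₂ := 0)
    (B := Real.exp (-1 * (ν - E)) * Real.exp 1) (by linarith)
    (by linarith) (by linarith) (fun c hc1 hc2 => by
      rw [← Real.exp_add]
      apply Real.exp_le_exp.mpr
      have : (c + 1) * (ν - E) ≤ 1 := by
        calc (c + 1) * (ν - E) ≤ |(c + 1) * (ν - E)| := le_abs_self _
          _ = |c + 1| * |ν - E| := abs_mul _ _
          _ ≤ 1 * 1 := mul_le_mul (abs_le.mpr ⟨by linarith, by linarith⟩) hν (abs_nonneg _)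
              (by norm_num)
          _ = 1 := by norm_num
      linarith)
  rw [norm_sub_rev]
  refine e1.trans (le_of_eq ?_)
  ring

lemma ker_zero (H v : ℝ) : ker H 0 v = ((Real.exp (-(v ^ 2 / H ^ 2)) : ℝ) : ℂ) := by
  unfold ker
  rw [mk_eq]
  push_cast
  congr 1
  rw [zero_add, mul_pow, I_sq]
  ring

/-- the main term -/
theorem main_term {H Y t : ℝ} (hH : 1 ≤ H) (hY : H ≤ Y) :
    2 * H * Real.exp (-1) - 2 * Real.exp (1 - Y ^ 2 / H ^ 2) ≤
      ‖VV (tm (fun _ => 1) 0) H Y t 1‖ := by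
  have hH0 : 0 < H := by linarith
  have hA : Amp (fun _ => (1 : ℂ)) 1 0 H Y t :=
    ⟨fun z _ _ => differentiableAt_const _, fun σ v _ _ => by simp⟩
  have e1 := hA.shift 0 (by norm_num) hH0 (by linarith) (c₁ := 0) (c₂ := 1)
    (B := 1) (by linarith) (by norm_num) hH (fun c _ _ => by simp)
  have e2 : VV (tm (fun _ => 1) 0) H Y t 0 =
      ((∫ v in (-Y)..Y, Real.exp (-(v ^ 2 / H ^ 2)) : ℝ) : ℂ) := by
    unfold VV tm
    rw [← intervalIntegral.integral_ofReal]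
    congr 1
    funext v
    rw [ker_zero]
    simp
  have e3 : 2 * H * Real.exp (-1) ≤ ∫ v in (-Y)..Y, Real.exp (-(v ^ 2 / H ^ 2)) := by
    have hcont : Continuous (fun v : ℝ => Real.exp (-(v ^ 2 / H ^ 2))) := by fun_prop
    have f1 : ∫ v in (-H)..H, Real.exp (-(v ^ 2 / H ^ 2)) ≤
        ∫ v in (-Y)..Y, Real.exp (-(v ^ 2 / H ^ 2)) := by
      apply intervalIntegral.integral_mono_interval (by linarith) (by linarith) hY
      · exact Filter.Eventually.of_forall fun v => (Real.exp_pos _).le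
      · exact hcont.intervalIntegrable _ _
    have f2 : ∫ _ in (-H)..H, Real.exp (-1) ≤ ∫ v in (-H)..H, Real.exp (-(v ^ 2 / H ^ 2)) := by
      apply intervalIntegral.integral_mono_on (by linarith) (by simp)
        (hcont.intervalIntegrable _ _)
      intro v hv
      apply Real.exp_le_exp.mpr
      apply neg_le_neg
      rw [div_le_one (by positivity), ← sq_abs v]
      exact pow_le_pow_left₀ (abs_nonneg _) (abs_le.mpr ⟨hv.1, hv.2⟩) 2
    rw [intervalIntegral.integral_const, smul_eq_mul] at f2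
    linarith
  have e4 : ∫ v in (-Y)..Y, Real.exp (-(v ^ 2 / H ^ 2)) ≤ ‖VV (tm (fun _ => 1) 0) H Y t 0‖ := by
    rw [e2, Complex.norm_real, Real.norm_eq_abs]
    exact le_abs_self _
  have e5 : ‖VV (tm (fun _ => 1) 0) H Y t 0‖ ≤ ‖VV (tm (fun _ => 1) 0) H Y t 1‖ +
      ‖VV (tm (fun _ => 1) 0) H Y t 1 - VV (tm (fun _ => 1) 0) H Y t 0‖ := by
    calc ‖VV (tm (fun _ => 1) 0) H Y t 0‖ = ‖VV (tm (fun _ => 1) 0) H Y t 1 -
          (VV (tm (fun _ => 1) 0) H Y t 1 - VV (tm (fun _ => 1) 0) H Y t 0)‖ := by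
          rw [sub_sub_cancel]
      _ ≤ _ := norm_sub_le _ _
  have e6 : 2 * (1 * 1 * Real.exp (1 - Y ^ 2 / H ^ 2) * (1 - 0)) =
      2 * Real.exp (1 - Y ^ 2 / H ^ 2) := by ring
  rw [e6] at e1
  linarith

end Pool.Agent.T9h53.SZ
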