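import Pool.Agent.T9h53.SZ.Gam

/-! # The size of the factor of the functional equation -/

set_option autoImplicit false

open Complex Filter Topology Set

namespace Pool.Agent.T9h53.SZ

open H370.DL

variable {q : ℕ} [NeZero q] (χ : DirichletCharacter ℂ q)

lemma aa_cases : aa χ = 0 ∨ aa χ = 1 := by
  unfold aa
  split_ifs <;> simp

lemma Gammaℝ_log {x y : ℝ} (hy : 0 < y) :
    Real.log ‖Gammaℝ (⟨x, y⟩ : ℂ)‖ = -(x / 2) * Real.log Real.pi + gphi (y / 2) (x / 2) +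
      x / 2 * Real.log (y / 2) := by
  have h1 : (⟨x, y⟩ : ℂ) / 2 = ⟨x / 2, y / 2⟩ := by
    apply Complex.ext <;> simp
  have h2 : ‖((Real.pi : ℂ)) ^ (-(⟨x, y⟩ : ℂ) / 2)‖ = Real.pi ^ (-(x / 2)) := by
    rw [Complex.norm_cpow_eq_rpow_re_of_pos Real.pi_pos]
    congr 1
    rw [neg_div, neg_re, h1]
  rw [Complex.Gammaℝ_def, norm_mul, h2, h1, Real.log_mul (Real.rpow_pos_of_pos Real.pi_pos _).ne'
    (Gamma_norm_pos (by linarith)).ne', Real.log_rpow Real.pi_pos]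
  unfold gphi
  ring

lemma Gammaℝ_conj_norm (s : ℂ) : ‖Gammaℝ ((starRingEnd ℂ) s)‖ = ‖Gammaℝ s‖ := by
  have h2 : ∀ w : ℂ, ‖((Real.pi : ℂ)) ^ (-w / 2)‖ = Real.pi ^ (-(w.re / 2)) := by
    intro w
    rw [Complex.norm_cpow_eq_rpow_re_of_pos Real.pi_pos]
    congr 1
    rw [neg_div, neg_re]
    simp
  rw [Complex.Gammaℝ_def, Complex.Gammaℝ_def, norm_mul, norm_mul, h2, h2, conj_re]
  congr 1
  have : (starRingEnd ℂ) s / 2 = (starRingEnd ℂ) (s / 2) := by rw [map_div₀, map_ofNat]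
  rw [this, Gamma_conj, Complex.norm_conj]

/-- the size of the factor in the functional equation in wide regions -/
theorem XX_size (hχ : χ.IsPrimitive) : ∃ C : ℝ, 0 ≤ C ∧ ∀ y X : ℝ, 2 ≤ y → 2 ≤ X →
    X ^ 3 ≤ (y / 2) ^ 2 → ∀ x : ℝ, |x| ≤ X →
    |Real.log ‖XX χ (⟨1 / 2 + x, y⟩ : ℂ)‖ + x * Real.log (q * y / (2 * Real.pi))| ≤ C := by
  obtain ⟨C, hC0, hC⟩ := gphi_main
  refine ⟨|Real.log ‖DirichletCharacter.rootNumber χ‖| + 2 * C, by positivity, ?_⟩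
  intro y X hy hX hXy x hx
  obtain ⟨hx1, hx2⟩ := abs_le.mp hx
  have hy0 : 0 < y := by linarith
  have hq0 : (0 : ℝ) < q := by exact_mod_cast Nat.pos_of_ne_zero (NeZero.ne q)
  obtain ⟨κ, hκ, hκ0, hκ1⟩ : ∃ κ : ℝ, aa χ = (κ : ℂ) ∧ 0 ≤ κ ∧ κ ≤ 1 := by
    rcases aa_cases χ with h | h
    · exact ⟨0, by rw [h]; simp, le_rfl, zero_le_one⟩
    · exact ⟨1, by rw [h]; simp, zero_le_one, le_rfl⟩
  have hs1 : (⟨1 / 2 + x, y⟩ : ℂ) + aa χ = ⟨1 / 2 + x + κ, y⟩ := by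
    rw [hκ]
    apply Complex.ext <;> simp
  have hs2 : 1 - (⟨1 / 2 + x, y⟩ : ℂ) + aa χ = (starRingEnd ℂ) ⟨1 / 2 - x + κ, y⟩ := by
    rw [hκ]
    apply Complex.ext
    · simp
      ring
    · simp
  have e1 : ‖((q : ℂ)) ^ (1 / 2 - (⟨1 / 2 + x, y⟩ : ℂ))‖ = (q : ℝ) ^ (-x) := by
    rw [show ((q : ℂ)) = (((q : ℝ)) : ℂ) by simp, Complex.norm_cpow_eq_rpow_re_of_pos hq0]
    congr 1
    simp
  have hg1 : 0 < ‖Gammaℝ (⟨1 / 2 + x + κ, y⟩ : ℂ)‖ :=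
    norm_pos_iff.mpr (Gammaℝ_ne_zero_of_im (by simpa using hy0.ne'))
  have hg2 : 0 < ‖Gammaℝ (⟨1 / 2 - x + κ, y⟩ : ℂ)‖ :=
    norm_pos_iff.mpr (Gammaℝ_ne_zero_of_im (by simpa using hy0.ne'))
  have hW : 0 < ‖DirichletCharacter.rootNumber χ‖ := norm_pos_iff.mpr (rootNumber_ne_zero hχ)
  have hqx : 0 < (q : ℝ) ^ (-x) := Real.rpow_pos_of_pos hq0 _
  have h1 : Real.log ‖XX χ (⟨1 / 2 + x, y⟩ : ℂ)‖ =
      -x * Real.log q + Real.log ‖DirichletCharacter.rootNumber χ‖ +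
      Real.log ‖Gammaℝ (⟨1 / 2 - x + κ, y⟩ : ℂ)‖ - Real.log ‖Gammaℝ (⟨1 / 2 + x + κ, y⟩ : ℂ)‖ := by
    unfold XX
    rw [hs1, hs2, norm_div, norm_mul, norm_mul, Gammaℝ_conj_norm, e1,
      Real.log_div (by positivity) hg1.ne', Real.log_mul (by positivity) hg2.ne',
      Real.log_mul hqx.ne' hW.ne', Real.log_rpow hq0]
  have h2 := hC (y / 2) X (by linarith) hX hXy ((1 / 2 - x + κ) / 2)
    (abs_le.mpr ⟨by linarith, by linarith⟩)
  have h3 := hC (y / 2) X (by linarith) hX hXy ((1 / 2 + x + κ) / 2)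
    (abs_le.mpr ⟨by linarith, by linarith⟩)
  have h4 : Real.log (q * y / (2 * Real.pi)) = Real.log q + Real.log (y / 2) - Real.log Real.pi := by
    rw [show (q : ℝ) * y / (2 * Real.pi) = q * (y / 2) / Real.pi by field_simp,
      Real.log_div (by positivity) Real.pi_pos.ne', Real.log_mul hq0.ne' (by positivity)]
  have h5 : Real.log ‖XX χ (⟨1 / 2 + x, y⟩ : ℂ)‖ + x * Real.log (q * y / (2 * Real.pi)) =
      Real.log ‖DirichletCharacter.rootNumber χ‖ +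
      ((gphi (y / 2) ((1 / 2 - x + κ) / 2) - gphi (y / 2) 1) -
        (gphi (y / 2) ((1 / 2 + x + κ) / 2) - gphi (y / 2) 1)) := by
    rw [h1, h4, Gammaℝ_log hy0, Gammaℝ_log hy0]
    ring
  rw [h5]
  refine (abs_add_le _ _).trans (add_le_add le_rfl ?_)
  refine (abs_sub _ _).trans ?_
  linarith

end Pool.Agent.T9h53.SZ
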