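import Pool.Agent.T9h53.SZ.PairSum
import Pool.Agent.T9h53.SZ.Block

/-! # Summation over the blocks -/

set_option autoImplicit false

open Complex Filter Topology Set MeasureTheory

namespace Pool.Agent.T9h53.SZ

section

variable {N₁ N₂ : ℕ} (χ₁ : DirichletCharacter ℂ N₁) (χ₂ : DirichletCharacter ℂ N₂) (α δ : ℝ)

lemma cc_le_ww (p : ℕ × ℕ) : ‖cc χ₁ χ₂ δ p‖ ≤ ww p := by
  unfold cc ww
  rw [norm_mul]
  have h1 := a2_norm χ₂ δ p.1
  have h2 := a1_norm χ₁ p.2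
  have h3 : ∀ n : ℕ, (n : ℝ) ^ (-(1 / 2) : ℝ) ≤ 1 / Real.sqrt n := by
    intro n
    rcases Nat.eq_zero_or_pos n with rfl | hn
    · simp
    · rw [Real.rpow_neg (by positivity), ← Real.sqrt_eq_rpow, one_div]
  calc ‖a2 χ₂ δ p.1‖ * ‖a1 χ₁ p.2‖ ≤ (1 / Real.sqrt p.1) * (1 / Real.sqrt p.2) := by
        gcongr
        · exact h1.trans (h3 _)
        · exact h2.trans (h3 _)
    _ = 1 / Real.sqrt ((p.1 : ℝ) * p.2) := by
        rw [Real.sqrt_mul (by positivity), div_mul_div_comm, one_mul]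

lemma ww_le_one {p : ℕ × ℕ} (h1 : 1 ≤ p.1) (h2 : 1 ≤ p.2) : ww p ≤ 1 := by
  unfold ww
  have e1 : (1 : ℝ) ≤ p.1 := by exact_mod_cast h1
  have e2 : (1 : ℝ) ≤ p.2 := by exact_mod_cast h2
  have e3 : (1 : ℝ) ≤ (p.1 : ℝ) * p.2 := by nlinarith
  rw [div_le_one (by positivity)]
  rw [Real.le_sqrt' one_pos]
  linarith

lemma UU_card (X : ℝ) (hX : 1 ≤ X) : ((UU α X).card : ℝ) ≤ X ^ 2 := by
  have h : (UU α X).card ≤ ⌊X⌋₊ * ⌊X⌋₊ := by
    unfold UU
    refine (Finset.card_filter_le _ _).trans ?_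
    rw [Finset.card_product, Nat.card_Icc]
    simp
  have h2 : (⌊X⌋₊ : ℝ) ≤ X := Nat.floor_le (by linarith)
  have h3 : ((UU α X).card : ℝ) ≤ (⌊X⌋₊ : ℝ) * ⌊X⌋₊ := by exact_mod_cast h
  calc ((UU α X).card : ℝ) ≤ (⌊X⌋₊ : ℝ) * ⌊X⌋₊ := h3
    _ ≤ X * X := by gcongr
    _ = X ^ 2 := by ring

theorem ZZ_UU {B X Δ : ℝ} (hα : 1 ≤ α) (hX : 1 ≤ X) (hΔ : 0 ≤ Δ) :
    ZZ χ₁ χ₂ α δ B (UU α X) ≤
      ((Nat.log 2 ⌊X⌋₊ + 1 : ℕ) : ℝ) ^ 4 * (128 * Δ * X + 4 * (1 + Real.log (2 * X)) ^ 2) +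
        X ^ 4 * Real.exp (-(B ^ 2 * Δ ^ 2 / 4)) := by
  classical
  have h1 := pair_sum (α := α) (X := X) (Δ := Δ) hα hX hΔ
  have hmem : ∀ p ∈ UU α X, 1 ≤ p.1 ∧ 1 ≤ p.2 := by
    intro p hp
    unfold UU at hp
    rw [Finset.mem_filter, Finset.mem_product, Finset.mem_Icc, Finset.mem_Icc] at hp
    exact ⟨hp.1.1.1, hp.1.2.1⟩
  unfold ZZ
  rw [← Finset.sum_filter_add_sum_filter_not (UU α X ×ˢ UU α X)
    (fun z => |nu α z.1 - nu α z.2| ≤ Δ)]
  refine add_le_add (le_trans ?_ h1) ?_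
  · refine Finset.sum_le_sum fun z _ => ?_
    have e1 := cc_le_ww χ₁ χ₂ δ z.1
    have e2 := cc_le_ww χ₁ χ₂ δ z.2
    have e3 : Real.exp (-(B ^ 2 * (nu α z.1 - nu α z.2) ^ 2 / 4)) ≤ 1 := by
      rw [Real.exp_le_one_iff]
      have : 0 ≤ B ^ 2 * (nu α z.1 - nu α z.2) ^ 2 / 4 := by positivity
      linarith
    calc ‖cc χ₁ χ₂ δ z.1‖ * ‖cc χ₁ χ₂ δ z.2‖ * Real.exp (-(B ^ 2 * (nu α z.1 - nu α z.2) ^ 2 / 4)) ≤
        ww z.1 * ww z.2 * 1 := by
          have := ww_nonneg z.1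
          have := mul_nonneg (ww_nonneg z.1) (ww_nonneg z.2)
          gcongr
      _ = ww z.1 * ww z.2 := mul_one _
  · calc ∑ z ∈ (UU α X ×ˢ UU α X) with ¬|nu α z.1 - nu α z.2| ≤ Δ, ‖cc χ₁ χ₂ δ z.1‖ *
          ‖cc χ₁ χ₂ δ z.2‖ * Real.exp (-(B ^ 2 * (nu α z.1 - nu α z.2) ^ 2 / 4)) ≤
        ∑ z ∈ (UU α X ×ˢ UU α X) with ¬|nu α z.1 - nu α z.2| ≤ Δ,
          Real.exp (-(B ^ 2 * Δ ^ 2 / 4)) := by
          refine Finset.sum_le_sum fun z hz => ?_
          rw [Finset.mem_filter, Finset.mem_product] at hz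
          obtain ⟨⟨hz1, hz2⟩, hz3⟩ := hz
          have f1 := hmem _ hz1
          have f2 := hmem _ hz2
          have e1 := (cc_le_ww χ₁ χ₂ δ z.1).trans (ww_le_one f1.1 f1.2)
          have e2 := (cc_le_ww χ₁ χ₂ δ z.2).trans (ww_le_one f2.1 f2.2)
          have e3 : Real.exp (-(B ^ 2 * (nu α z.1 - nu α z.2) ^ 2 / 4)) ≤
              Real.exp (-(B ^ 2 * Δ ^ 2 / 4)) := by
            apply Real.exp_le_exp.mpr
            push Not at hz3
            have h5 : Δ ^ 2 ≤ (nu α z.1 - nu α z.2) ^ 2 := by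
              rw [← sq_abs (nu α z.1 - nu α z.2)]
              exact pow_le_pow_left₀ hΔ hz3.le 2
            have h6 : B ^ 2 * Δ ^ 2 ≤ B ^ 2 * (nu α z.1 - nu α z.2) ^ 2 :=
              mul_le_mul_of_nonneg_left h5 (sq_nonneg B)
            linarith
          calc _ ≤ 1 * 1 * Real.exp (-(B ^ 2 * Δ ^ 2 / 4)) := by gcongr
            _ = _ := by ring
      _ = (((UU α X ×ˢ UU α X).filter (fun z => ¬|nu α z.1 - nu α z.2| ≤ Δ)).card : ℝ) *
          Real.exp (-(B ^ 2 * Δ ^ 2 / 4)) := by rw [Finset.sum_const, nsmul_eq_mul]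
      _ ≤ X ^ 4 * Real.exp (-(B ^ 2 * Δ ^ 2 / 4)) := by
          apply mul_le_mul_of_nonneg_right _ (Real.exp_pos _).le
          have h2 : ((UU α X ×ˢ UU α X).filter (fun z => ¬|nu α z.1 - nu α z.2| ≤ Δ)).card ≤
              (UU α X).card * (UU α X).card := by
            rw [← Finset.card_product]
            exact Finset.card_filter_le _ _
          have h3 : (((UU α X ×ˢ UU α X).filter
              (fun z => ¬|nu α z.1 - nu α z.2| ≤ Δ)).card : ℝ) ≤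
              ((UU α X).card : ℝ) * (UU α X).card := by exact_mod_cast h2
          have h4 := UU_card α X hX
          calc _ ≤ _ := h3
            _ ≤ X ^ 2 * X ^ 2 := by gcongr
            _ = X ^ 4 := by ring

/-- the frequencies of a block -/
noncomputable def SS (X q B T : ℝ) (E : ℝ) : Finset (ℕ × ℕ) :=
  (UU α X).filter (fun p => |nu α p + α * Real.log q - E| ≤ 2 * (B / T))

end

variable {N₁ N₂ : ℕ} [NeZero N₁] [NeZero N₂] (χ₁ : DirichletCharacter ℂ N₁)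
  (χ₂ : DirichletCharacter ℂ N₂) (α δ : ℝ)

omit [NeZero N₁] [NeZero N₂] in
lemma EE_diff {a b : ℝ} (ha : 0 < a) (hb : 0 < b) :
    EE N₁ N₂ α b - EE N₁ N₂ α a = (α - 1) * Real.log (b / a) := by
  unfold EE
  rw [Real.log_div hb.ne' ha.ne']
  ring

omit [NeZero N₁] [NeZero N₂] in
lemma EE_spaced {T B : ℝ} (hα : 1 < α) (hT : 0 < T) (hB : 0 < B) {J : ℕ}
    (hJ : ((J : ℝ) - 1) * B ≤ T) :
    ∀ i ∈ Finset.range J, ∀ j ∈ Finset.range J, i ≠ j →
      1 / (2 * T / ((α - 1) * B)) ≤ |EE N₁ N₂ α (T + i * B) - EE N₁ N₂ α (T + j * B)| := by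
  have key : ∀ i ∈ Finset.range J, ∀ j ∈ Finset.range J, i < j →
      1 / (2 * T / ((α - 1) * B)) ≤ |EE N₁ N₂ α (T + i * B) - EE N₁ N₂ α (T + j * B)| := by
    intro i _ j hj hij
    rw [Finset.mem_range] at hj
    have hi0 : (0 : ℝ) ≤ i := Nat.cast_nonneg i
    have hij' : (i : ℝ) + 1 ≤ j := by exact_mod_cast hij
    have hjJ : (j : ℝ) ≤ J - 1 := by
      have : (j : ℝ) + 1 ≤ J := by exact_mod_cast hj
      linarith
    have ha : 0 < T + i * B := by positivity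
    have hb : 0 < T + j * B := by positivity
    have hα0 : 0 < α - 1 := by linarith
    rw [abs_sub_comm, EE_diff α ha hb]
    have h1 := Real.one_sub_inv_le_log_of_pos (show 0 < (T + j * B) / (T + i * B) by positivity)
    have h2 : 1 - ((T + j * B) / (T + i * B))⁻¹ = (j - i) * B / (T + j * B) := by
      rw [inv_div]
      field_simp
      ring
    have h3 : B / (2 * T) ≤ (j - i) * B / (T + j * B) := by
      rw [div_le_div_iff₀ (by positivity) hb]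
      have h4 : (j : ℝ) * B ≤ T := le_trans (by gcongr) hJ
      have h5 : (1 : ℝ) ≤ j - i := by linarith
      calc B * (T + j * B) ≤ B * (2 * T) := by
            apply mul_le_mul_of_nonneg_left _ hB.le
            linarith
        _ = 1 * (B * (2 * T)) := (one_mul _).symm
        _ ≤ (j - i) * (B * (2 * T)) := by
            apply mul_le_mul_of_nonneg_right h5
            positivity
        _ = (j - i) * B * (2 * T) := by ring
    have h6 : B / (2 * T) ≤ Real.log ((T + j * B) / (T + i * B)) := by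
      rw [h2] at h1
      exact h3.trans h1
    rw [abs_of_nonneg (mul_nonneg hα0.le (le_trans (by positivity) h6))]
    have h7 : 1 / (2 * T / ((α - 1) * B)) = (α - 1) * (B / (2 * T)) := by
      field_simp
    rw [h7]
    exact mul_le_mul_of_nonneg_left h6 hα0.le
  intro i hi j hj hne
  rcases lt_or_gt_of_ne hne with h | h
  · exact key i hi j hj h
  · rw [abs_sub_comm]
    exact key j hj i hi h

omit [NeZero N₁] [NeZero N₂] in
theorem sum_ZZ {T B X q : ℝ} (hα : 1 < α) (hT : 0 < T) (hB : 0 < B) {J : ℕ}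
    (hJ : ((J : ℝ) - 1) * B ≤ T) :
    ∑ j ∈ Finset.range J, ZZ χ₁ χ₂ α δ B (SS α X q B T (EE N₁ N₂ α (T + j * B))) ≤
      (8 / (α - 1) + 1) * ZZ χ₁ χ₂ α δ B (UU α X) := by
  classical
  have hα0 : 0 < α - 1 := by linarith
  set w : (ℕ × ℕ) × (ℕ × ℕ) → ℝ := fun z => ‖cc χ₁ χ₂ δ z.1‖ * ‖cc χ₁ χ₂ δ z.2‖ *
    Real.exp (-(B ^ 2 * (nu α z.1 - nu α z.2) ^ 2 / 4)) with hw
  have hw0 : ∀ z, 0 ≤ w z := fun z => by rw [hw]; positivity
  have h1 : ∀ j ∈ Finset.range J, ZZ χ₁ χ₂ α δ B (SS α X q B T (EE N₁ N₂ α (T + j * B))) ≤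
      ∑ z ∈ UU α X ×ˢ UU α X, if |EE N₁ N₂ α (T + j * B) - (nu α z.1 + α * Real.log q)| ≤
        2 * (B / T) then w z else 0 := by
    intro j _
    rw [← Finset.sum_filter]
    unfold ZZ
    refine Finset.sum_le_sum_of_subset_of_nonneg ?_ fun z _ _ => hw0 z
    intro z hz
    unfold SS at hz
    rw [Finset.mem_product, Finset.mem_filter, Finset.mem_filter] at hz
    rw [Finset.mem_filter, Finset.mem_product]
    refine ⟨⟨hz.1.1, hz.2.1⟩, ?_⟩
    rw [abs_sub_comm]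
    exact hz.1.2
  refine (Finset.sum_le_sum h1).trans ?_
  rw [Finset.sum_comm]
  unfold ZZ
  rw [Finset.mul_sum]
  refine Finset.sum_le_sum fun z _ => ?_
  rw [← Finset.sum_filter, Finset.sum_const, nsmul_eq_mul]
  have h2 := count_spaced (Finset.range J) (fun j : ℕ => EE N₁ N₂ α (T + j * B))
    (c := 2 * T / ((α - 1) * B)) (Δ := 2 * (B / T)) (by positivity) (by positivity)
    (EE_spaced α hα hT hB hJ) (nu α z.1 + α * Real.log q)
  have h3 : 2 * (2 * (B / T)) * (2 * T / ((α - 1) * B)) + 1 = 8 / (α - 1) + 1 := by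
    field_simp
    ring
  rw [h3] at h2
  exact mul_le_mul_of_nonneg_right h2 (hw0 z)

end Pool.Agent.T9h53.SZ
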